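import Mathlib

namespace Pool.Agent.Helper97.ADDB

open Polynomial

section unif

variable {D : Type*} [CommRing D] [IsDomain D]

theorem exists_unif (P : Ideal D) [P.IsPrime] [IsDiscreteValuationRing (Localization.AtPrime P)]
    (π : D) (hπ : π ≠ 0) (N : ℕ)
    (hN : algebraMap D (Localization.AtPrime P) π ∉
      IsLocalRing.maximalIdeal (Localization.AtPrime P) ^ (N + 1)) :
    ∃ ϖ ∈ P, ϖ ≠ 0 ∧ (∀ d : D, d ≠ 0 → ∃ m : ℕ, ∃ a ∉ P, ∃ b ∉ P, d * a = ϖ ^ m * b) ∧
      (∃ m ≤ N, ∃ a ∉ P, ∃ b ∉ P, π * a = ϖ ^ m * b) := by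
  set R := Localization.AtPrime P with hR
  have hinj : Function.Injective (algebraMap D R) :=
    IsLocalization.injective R P.primeCompl_le_nonZeroDivisors
  obtain ⟨ϖ', hϖ'⟩ := IsDiscreteValuationRing.exists_irreducible R
  obtain ⟨ϖ, s, hs⟩ := IsLocalization.exists_mk'_eq P.primeCompl ϖ'
  have hϖs : ϖ' * algebraMap D R s = algebraMap D R ϖ := by
    rw [← hs]; exact IsLocalization.mk'_spec R ϖ s
  have hsu : IsUnit (algebraMap D R s) := IsLocalization.map_units R s
  have hirr : Irreducible (algebraMap D R ϖ) := by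
    rw [← hϖs]
    exact (irreducible_mul_isUnit hsu).2 hϖ'
  have hϖP : ϖ ∈ P := by
    by_contra h
    exact hirr.not_isUnit (IsLocalization.map_units R (⟨ϖ, h⟩ : P.primeCompl))
  have hϖ0 : ϖ ≠ 0 := by
    rintro rfl
    exact hirr.ne_zero (map_zero _)
  have key : ∀ d : D, d ≠ 0 → ∃ m : ℕ, Associated (algebraMap D R d) (algebraMap D R ϖ ^ m) ∧
      ∃ a ∉ P, ∃ b ∉ P, d * a = ϖ ^ m * b := by
    intro d hd
    have hd' : algebraMap D R d ≠ 0 := fun h => hd (hinj (by rw [h, map_zero]))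
    obtain ⟨m, hm⟩ := IsDiscreteValuationRing.associated_pow_irreducible hd' hirr
    refine ⟨m, hm, ?_⟩
    obtain ⟨u, hu⟩ := hm
    obtain ⟨a, b, hab⟩ := IsLocalization.exists_mk'_eq P.primeCompl (u : R)
    have ha : a ∉ P := by
      intro haP
      have h1 : (u : R) * algebraMap D R b = algebraMap D R a := by
        rw [← hab]; exact IsLocalization.mk'_spec R a b
      have h2 : IsUnit (algebraMap D R a) := by
        rw [← h1]; exact u.isUnit.mul (IsLocalization.map_units R b)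
      rw [IsLocalization.AtPrime.isUnit_to_map_iff R P] at h2
      exact h2 haP
    refine ⟨a, ha, b, b.2, ?_⟩
    apply hinj
    have h1 : (u : R) * algebraMap D R b = algebraMap D R a := by
      rw [← hab]; exact IsLocalization.mk'_spec R a b
    rw [map_mul, map_mul, map_pow, ← hu, ← h1]
    ring
  refine ⟨ϖ, hϖP, hϖ0, fun d hd => ?_, ?_⟩
  · obtain ⟨m, _, h⟩ := key d hd
    exact ⟨m, h⟩
  · obtain ⟨m, hm, h⟩ := key π hπ
    refine ⟨m, ?_, h⟩
    by_contra hlt
    push Not at hlt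
    apply hN
    have h3 : algebraMap D R ϖ ∈ IsLocalRing.maximalIdeal R := hirr.not_isUnit
    have h4 : algebraMap D R ϖ ^ m ∈ IsLocalRing.maximalIdeal R ^ (N + 1) :=
      Ideal.pow_le_pow_right hlt (Ideal.pow_mem_pow h3 m)
    obtain ⟨u, hu⟩ := hm.symm
    rw [← hu]
    exact Ideal.mul_mem_right _ _ h4

end unif

section val

theorem exists_two_terms {L Γ : Type*} [Field L] [LinearOrderedCommGroupWithZero Γ]
    (v : Valuation L Γ) (s : Finset ℕ) (f : ℕ → L) (hsum : ∑ i ∈ s, f i = 0)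
    (hne : ∃ i ∈ s, f i ≠ 0) :
    ∃ i ∈ s, ∃ j ∈ s, i < j ∧ v (f i) = v (f j) ∧ f i ≠ 0 ∧ f j ≠ 0 := by
  classical
  obtain ⟨i0, hi0, hfi0⟩ := hne
  obtain ⟨j, hj, hmax⟩ := Finset.exists_max_image s (fun i => v (f i)) ⟨i0, hi0⟩
  have hvj : v (f j) ≠ 0 := by
    intro h
    have h1 := hmax i0 hi0
    simp only [h] at h1
    exact hfi0 ((Valuation.zero_iff v).1 (le_antisymm h1 zero_le))
  have hex : ∃ i ∈ s \ {j}, v (f j) ≤ v (f i) := by
    by_contra hcon
    push Not at hcon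
    have h2 := Valuation.map_sum_eq_of_lt v hj hcon
    rw [hsum, map_zero] at h2
    exact hvj h2.symm
  obtain ⟨i, hi, hij⟩ := hex
  rw [Finset.mem_sdiff, Finset.mem_singleton] at hi
  have heq : v (f i) = v (f j) := le_antisymm (hmax i hi.1) hij
  have hfj : f j ≠ 0 := by rintro h; exact hvj (by rw [h, map_zero])
  have hfi : f i ≠ 0 := by
    rintro h
    apply hvj
    rw [← heq, h, map_zero]
  rcases lt_or_gt_of_ne hi.2 with h | h
  · exact ⟨i, hi.1, j, hj, h, heq, hfi, hfj⟩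
  · exact ⟨j, hj, i, hi.1, h, heq.symm, hfj, hfi⟩

variable {D K L Γ : Type*} [CommRing D] [IsDomain D] [Field K] [Algebra D K] [IsFractionRing D K]
  [Field L] [Algebra K L] [Algebra D L] [IsScalarTower D K L] [LinearOrderedCommGroupWithZero Γ]

/-- Data of a valuation over a discrete prime. -/
structure Over (v : Valuation L Γ) (P : Ideal D) : Prop where
  le_one : ∀ d : D, v (algebraMap D L d) ≤ 1
  lt_one_iff : ∀ d : D, v (algebraMap D L d) < 1 ↔ d ∈ P

theorem Over.eq_one {v : Valuation L Γ} {P : Ideal D} (h : Over v P) {d : D} (hd : d ∉ P) :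
    v (algebraMap D L d) = 1 := by
  rcases (h.le_one d).lt_or_eq with h1 | h1
  · exact absurd ((h.lt_one_iff d).1 h1) hd
  · exact h1

/-- Exactness of the value group with uniform denominators. -/
theorem value_exact (v : Valuation L Γ) (P : Ideal D) [P.IsPrime]
    [IsDiscreteValuationRing (Localization.AtPrime P)] (hv : Over v P)
    (π : D) (hπ : π ≠ 0) (hπP : π ∈ P) (N : ℕ)
    (hN : algebraMap D (Localization.AtPrime P) π ∉
      IsLocalRing.maximalIdeal (Localization.AtPrime P) ^ (N + 1)) (n : ℕ)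
    (z : L) (hz : z ≠ 0) (hzK : IsIntegral K z) (hzn : (minpoly K z).natDegree ≤ n) :
    ∃ i : ℤ, v z ^ (n.factorial * N.factorial) = v (algebraMap D L π) ^ i := by
  have hDL : Function.Injective (algebraMap D L) := by
    rw [IsScalarTower.algebraMap_eq D K L]
    exact (algebraMap K L).injective.comp (IsFractionRing.injective D K)
  obtain ⟨ϖ, hϖP, hϖ0, hall, m, hmN, a, ha, b, hb, hab⟩ := exists_unif P π hπ N hN
  have hvϖ0 : v (algebraMap D L ϖ) ≠ 0 := by
    rw [Ne, Valuation.zero_iff]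
    exact fun h => hϖ0 (hDL (by rw [h, map_zero]))
  have hvπ : v (algebraMap D L π) = v (algebraMap D L ϖ) ^ m := by
    have h1 := congrArg (fun x => v (algebraMap D L x)) hab
    simp only [map_mul, map_pow, hv.eq_one ha, hv.eq_one hb, mul_one] at h1
    exact h1
  have hm0 : m ≠ 0 := by
    rintro rfl
    rw [pow_zero] at hvπ
    have := (hv.lt_one_iff π).2 hπP
    rw [hvπ] at this
    exact lt_irrefl _ this
  have hvd : ∀ d : D, d ≠ 0 → ∃ r : ℕ, v (algebraMap D L d) = v (algebraMap D L ϖ) ^ r := by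
    intro d hd
    obtain ⟨r, a', ha', b', hb', h⟩ := hall d hd
    refine ⟨r, ?_⟩
    have h1 := congrArg (fun x => v (algebraMap D L x)) h
    simp only [map_mul, map_pow, hv.eq_one ha', hv.eq_one hb', mul_one] at h1
    exact h1
  have hvk : ∀ k : K, k ≠ 0 → ∃ r : ℤ, v (algebraMap K L k) = v (algebraMap D L ϖ) ^ r := by
    intro k hk
    obtain ⟨x, y, hy, hxy⟩ := IsFractionRing.div_surjective (A := D) k
    have hy0 : y ≠ 0 := nonZeroDivisors.ne_zero hy
    have hx0 : x ≠ 0 := by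
      rintro rfl
      apply hk
      rw [← hxy, map_zero, zero_div]
    obtain ⟨r1, hr1⟩ := hvd x hx0
    obtain ⟨r2, hr2⟩ := hvd y hy0
    refine ⟨(r1 : ℤ) - r2, ?_⟩
    rw [← hxy, map_div₀, map_div₀, ← IsScalarTower.algebraMap_apply,
      ← IsScalarTower.algebraMap_apply, hr1, hr2, zpow_sub₀ hvϖ0, zpow_natCast, zpow_natCast]
  -- the relation
  set p := minpoly K z with hp
  have hp0 : p ≠ 0 := minpoly.ne_zero hzK
  have hsum : ∑ i ∈ Finset.range (p.natDegree + 1), algebraMap K L (p.coeff i) * z ^ i = 0 := by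
    have := minpoly.aeval K z
    rw [← hp, aeval_eq_sum_range] at this
    simpa [Algebra.smul_def] using this
  obtain ⟨i, hi, j, hj, hij, heq, hi0, hj0⟩ := exists_two_terms v _ _ hsum
    ⟨p.natDegree, Finset.mem_range.2 (Nat.lt_succ_self _), by
      rw [coeff_natDegree, hp, (minpoly.monic hzK).leadingCoeff, map_one, one_mul]
      exact pow_ne_zero _ hz⟩
  have hvz0 : v z ≠ 0 := by rwa [Ne, Valuation.zero_iff]
  have hci : p.coeff i ≠ 0 := by
    intro h; apply hi0; rw [h, map_zero, zero_mul]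
  have hcj : p.coeff j ≠ 0 := by
    intro h; apply hj0; rw [h, map_zero, zero_mul]
  obtain ⟨ri, hri⟩ := hvk _ hci
  obtain ⟨rj, hrj⟩ := hvk _ hcj
  have hjn : j ≤ n := by
    have := Finset.mem_range.1 hj
    omega
  -- v z ^ (j - i) = v ϖ ^ (ri - rj)
  have h1 : v z ^ (j - i) = v (algebraMap D L ϖ) ^ (ri - rj) := by
    rw [map_mul, map_mul, map_pow, map_pow, hri, hrj] at heq
    rw [zpow_sub₀ hvϖ0, eq_div_iff (zpow_ne_zero _ hvϖ0)]
    have h2 : v z ^ j = v z ^ (j - i) * v z ^ i := by rw [← pow_add]; congr 1; omega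
    rw [h2] at heq
    have h3 : v z ^ i ≠ 0 := pow_ne_zero _ hvz0
    apply mul_right_cancel₀ h3
    rw [heq, mul_comm (v z ^ (j - i)), mul_assoc]
  obtain ⟨c1, hc1⟩ : (j - i) ∣ n.factorial := Nat.dvd_factorial (by omega) (by omega)
  obtain ⟨c2, hc2⟩ : m ∣ N.factorial := Nat.dvd_factorial (Nat.pos_of_ne_zero hm0) hmN
  refine ⟨(ri - rj) * c1 * c2, ?_⟩
  rw [hc1, hc2, hvπ]
  calc v z ^ ((j - i) * c1 * (m * c2)) = (v z ^ (j - i)) ^ (c1 * (m * c2)) := by
        rw [← pow_mul]; ring_nf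
    _ = (v (algebraMap D L ϖ) ^ (ri - rj)) ^ (c1 * (m * c2)) := by rw [h1]
    _ = (v (algebraMap D L ϖ) ^ m) ^ ((ri - rj) * c1 * c2) := by
        rw [← zpow_natCast, ← zpow_natCast (v (algebraMap D L ϖ)) m, ← zpow_mul, ← zpow_mul]
        congr 1
        push_cast
        ring

end val

end Pool.Agent.Helper97.ADDB
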