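import Mathlib

namespace Pool.Agent.Helper97.ADDB

open Polynomial

/-- The uniform polynomial. -/
noncomputable def Psi (R : Type*) [CommRing R] (c : ℕ) : R[X] := X ^ c * (X ^ c.factorial - 1)

theorem Psi_monic (R : Type*) [CommRing R] (c : ℕ) : (Psi R c).Monic := by
  unfold Psi
  apply (monic_X_pow c).mul
  have : (X ^ c.factorial - 1 : R[X]) = X ^ c.factorial - C 1 := by simp
  rw [this]
  exact monic_X_pow_sub_C 1 (Nat.factorial_ne_zero c)

theorem Psi_map {R S : Type*} [CommRing R] [CommRing S] (f : R →+* S) (c : ℕ) :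
    (Psi R c).map f = Psi S c := by
  simp [Psi]

theorem dvd_Psi {R : Type*} [CommRing R] [Finite R] (m : R[X]) (hm : m.Monic) (n Q : ℕ)
    (hmn : m.natDegree ≤ n) (hQ : Nat.card R ≤ Q) (hQ1 : 1 ≤ Q) : m ∣ Psi R (Q ^ n) := by
  classical
  let b := (AdjoinRoot.powerBasis' hm).basis
  have hdim : (AdjoinRoot.powerBasis' hm).dim = m.natDegree := AdjoinRoot.powerBasis'_dim hm
  have : Finite (AdjoinRoot m) := Finite.of_equiv _ b.equivFun.symm.toEquiv
  have hcard : Nat.card (AdjoinRoot m) ≤ Q ^ n := by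
    rw [Nat.card_congr b.equivFun.toEquiv, Nat.card_fun, hdim]
    calc Nat.card R ^ Nat.card (Fin m.natDegree) ≤ Q ^ Nat.card (Fin m.natDegree) :=
          Nat.pow_le_pow_left hQ _
      _ ≤ Q ^ n := Nat.pow_le_pow_right hQ1 (by simpa using hmn)
  set c := Q ^ n with hc
  have hnotinj : ¬ Function.Injective (fun i : Fin (c + 1) => (AdjoinRoot.root m) ^ (i : ℕ)) := by
    intro h
    have := Nat.card_le_card_of_injective _ h
    rw [Nat.card_eq_fintype_card, Fintype.card_fin] at this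
    omega
  rw [Function.Injective] at hnotinj
  push Not at hnotinj
  obtain ⟨i, j, hij, hne⟩ := hnotinj
  wlog hlt : (i : ℕ) < (j : ℕ) generalizing i j
  · have hne' : (i : ℕ) ≠ j := fun h => hne (Fin.ext h)
    exact this j i hij.symm hne.symm (by omega)
  rw [← AdjoinRoot.mk_eq_zero]
  unfold Psi
  rw [map_mul, map_sub, map_pow, map_pow, map_one, AdjoinRoot.mk_X]
  have hij' : (AdjoinRoot.root m) ^ (i : ℕ) * ((AdjoinRoot.root m) ^ ((j : ℕ) - i) - 1) = 0 := by
    rw [mul_sub, ← pow_add, mul_one, Nat.add_sub_cancel' hlt.le]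
    exact sub_eq_zero.2 hij.symm
  have hi : (i : ℕ) ≤ c := Nat.lt_succ_iff.1 i.2
  have hj : (j : ℕ) ≤ c := Nat.lt_succ_iff.1 j.2
  obtain ⟨k, hk⟩ : ((j : ℕ) - i) ∣ c.factorial := Nat.dvd_factorial (by omega) (by omega)
  obtain ⟨t, ht⟩ : (AdjoinRoot.root m ^ ((j : ℕ) - i) - 1) ∣ (AdjoinRoot.root m ^ c.factorial - 1) := by
    rw [hk, pow_mul]
    simpa using sub_dvd_pow_sub_pow (AdjoinRoot.root m ^ ((j : ℕ) - i)) 1 k
  have hsplit : AdjoinRoot.root m ^ c = AdjoinRoot.root m ^ (c - i) * AdjoinRoot.root m ^ (i : ℕ) := by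
    rw [← pow_add, Nat.sub_add_cancel hi]
  rw [ht, hsplit]
  calc _ = AdjoinRoot.root m ^ (c - i) * (AdjoinRoot.root m ^ (i : ℕ) *
        (AdjoinRoot.root m ^ ((j : ℕ) - i) - 1)) * t := by ring
    _ = 0 := by rw [hij']; ring

theorem coeff_modByMonic_mem {R : Type*} [CommRing R] (I : Ideal R) (f m : R[X]) (hm : m.Monic)
    (hf : ∀ i, f.coeff i ∈ I) (i : ℕ) : (f %ₘ m).coeff i ∈ I := by
  rw [← Ideal.Quotient.eq_zero_iff_mem, ← coeff_map, map_modByMonic _ hm]
  have : f.map (Ideal.Quotient.mk I) = 0 := by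
    ext j
    rw [coeff_map, coeff_zero, Ideal.Quotient.eq_zero_iff_mem]
    exact hf j
  rw [this, zero_modByMonic, coeff_zero]

/-- Uniform divisibility. -/
theorem exists_uniform {D : Type*} [CommRing D] [IsDomain D] (π : D) (hπ : π ≠ 0) (N Q n : ℕ)
    (hQ1 : 1 ≤ Q)
    (hdvr : ∀ (P : Ideal D) [P.IsMaximal], π ∈ P → IsDiscreteValuationRing (Localization.AtPrime P))
    (hN : ∀ (P : Ideal D) [P.IsMaximal], π ∈ P → algebraMap D (Localization.AtPrime P) π ∉
      IsLocalRing.maximalIdeal (Localization.AtPrime P) ^ (N + 1))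
    (hfin : ∀ (P : Ideal D) [P.IsMaximal], π ∈ P → Finite (D ⧸ P) ∧ Nat.card (D ⧸ P) ≤ Q)
    (m : D[X]) (hm : m.Monic) (hmn : m.natDegree ≤ n) :
    ∃ r : D[X], m ∣ (Psi D (Q ^ n)) ^ N - C π * r := by
  classical
  set r0 := (Psi D (Q ^ n)) ^ N %ₘ m with hr0
  have hcoef : ∀ i, π ∣ r0.coeff i := by
    intro i
    rw [← Ideal.mem_span_singleton]
    apply Ideal.mem_of_localization_maximal
    intro P hP
    by_cases hπP : π ∈ P
    swap
    · have hu : IsUnit (algebraMap D (Localization.AtPrime P) π) :=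
        IsLocalization.map_units (Localization.AtPrime P) (⟨π, hπP⟩ : P.primeCompl)
      have htop : Ideal.map (algebraMap D (Localization.AtPrime P)) (Ideal.span {π}) = ⊤ := by
        rw [Ideal.map_span, Set.image_singleton, Ideal.span_singleton_eq_top]
        exact hu
      rw [htop]
      exact Submodule.mem_top
    have hD := hdvr P hπP
    have hNP := hN P hπP
    obtain ⟨hfP, hcP⟩ := hfin P hπP
    -- m divides Psi modulo P
    have h1 : m.map (Ideal.Quotient.mk P) ∣ (Psi D (Q ^ n)).map (Ideal.Quotient.mk P) := by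
      rw [Psi_map]
      refine dvd_Psi _ (hm.map _) n Q ?_ hcP hQ1
      exact (natDegree_map_le).trans hmn
    obtain ⟨h', hh'⟩ := h1
    obtain ⟨h, rfl⟩ := Polynomial.map_surjective _ Ideal.Quotient.mk_surjective h'
    set ρ := Psi D (Q ^ n) - m * h with hρ
    have hρP : ∀ i, ρ.coeff i ∈ P := by
      intro i
      rw [← Ideal.Quotient.eq_zero_iff_mem, ← coeff_map, hρ, Polynomial.map_sub,
        Polynomial.map_mul, hh', sub_self, coeff_zero]
    have hρN : ∀ k i, (ρ ^ k).coeff i ∈ P ^ k := by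
      intro k
      have : ρ ∈ Ideal.map C P := by
        rw [Ideal.mem_map_C_iff]; exact hρP
      have h2 := Ideal.pow_mem_pow this k
      rw [← Ideal.map_pow] at h2
      intro i
      rw [Ideal.mem_map_C_iff] at h2
      exact h2 i
    have hr : r0 = ρ ^ N %ₘ m := by
      rw [hr0]
      have hd : m ∣ (Psi D (Q ^ n)) ^ N - ρ ^ N := by
        have h3 : Psi D (Q ^ n) - ρ ∣ (Psi D (Q ^ n)) ^ N - ρ ^ N := sub_dvd_pow_sub_pow _ _ _
        have h4 : Psi D (Q ^ n) - ρ = m * h := by rw [hρ]; ring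
        rw [h4] at h3
        exact (dvd_mul_right m h).trans h3
      rw [← sub_eq_zero, ← sub_modByMonic]
      exact (modByMonic_eq_zero_iff_dvd hm).2 hd
    have hxP : r0.coeff i ∈ P ^ N := by
      rw [hr]
      exact coeff_modByMonic_mem _ _ _ hm (hρN N) i
    set R := Localization.AtPrime P
    have h5 : algebraMap D R (r0.coeff i) ∈ (IsLocalRing.maximalIdeal R) ^ N := by
      rw [← Localization.AtPrime.map_eq_maximalIdeal, ← Ideal.map_pow]
      exact Ideal.mem_map_of_mem _ hxP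
    have hinj : Function.Injective (algebraMap D R) :=
      IsLocalization.injective R P.primeCompl_le_nonZeroDivisors
    obtain ⟨ϖ, hϖ⟩ := IsDiscreteValuationRing.exists_irreducible R
    have hπ' : algebraMap D R π ≠ 0 := fun h => hπ (hinj (by rw [h, map_zero]))
    obtain ⟨e, he⟩ := IsDiscreteValuationRing.associated_pow_irreducible hπ' hϖ
    have heN : e ≤ N := by
      by_contra hlt
      push Not at hlt
      apply hNP
      have h6 : ϖ ^ e ∈ IsLocalRing.maximalIdeal R ^ (N + 1) :=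
        Ideal.pow_le_pow_right hlt (Ideal.pow_mem_pow hϖ.not_isUnit e)
      obtain ⟨u, hu⟩ := he.symm
      rw [← hu]
      exact Ideal.mul_mem_right _ _ h6
    rw [Ideal.map_span, Set.image_singleton, Ideal.mem_span_singleton]
    rw [hϖ.maximalIdeal_eq, Ideal.span_singleton_pow, Ideal.mem_span_singleton] at h5
    exact (he.dvd).trans ((pow_dvd_pow ϖ heN).trans h5)
  obtain ⟨r, hr⟩ := (C_dvd_iff_dvd_coeff π r0).2 hcoef
  refine ⟨r, ?_⟩
  rw [← hr]
  refine ⟨(Psi D (Q ^ n)) ^ N /ₘ m, ?_⟩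
  have := modByMonic_add_div ((Psi D (Q ^ n)) ^ N) m
  rw [← hr0] at this
  linear_combination -this

end Pool.Agent.Helper97.ADDB
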