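import Mathlib
import Pool.Agent.Helper97.ADDBLocal
import Pool.Agent.Helper97.ADDBUniform

namespace Pool.Agent.Helper97.ADDB

open Polynomial

/-- A nonzero element with uniformly bounded ramification and residue cardinality. -/
structure GoodPrime {D : Type*} [CommRing D] [IsDomain D] (π : D) (N Q : ℕ) : Prop where
  ne : π ≠ 0
  Qpos : 1 ≤ Q
  maximal : ∀ P : Ideal D, P.IsPrime → π ∈ P → P.IsMaximal
  dvr : ∀ (P : Ideal D) [P.IsMaximal], π ∈ P → IsDiscreteValuationRing (Localization.AtPrime P)
  ram : ∀ (P : Ideal D) [P.IsMaximal], π ∈ P → algebraMap D (Localization.AtPrime P) π ∉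
      IsLocalRing.maximalIdeal (Localization.AtPrime P) ^ (N + 1)
  res : ∀ (P : Ideal D) [P.IsMaximal], π ∈ P → Finite (D ⧸ P) ∧ Nat.card (D ⧸ P) ≤ Q

/-- `W` contains the image of `D`. -/
def Above (D : Type*) {L : Type*} [CommRing D] [Field L] [Algebra D L]
    (W : ValuationSubring L) : Prop := ∀ d : D, W.valuation (algebraMap D L d) ≤ 1

section

variable {D K L : Type*} [CommRing D] [IsDomain D] [Field K] [Algebra D K] [IsFractionRing D K]
  [Field L] [Algebra K L] [Algebra D L] [IsScalarTower D K L]

omit [IsDomain D] in
theorem isIntegral_iff_forall (y : L) :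
    IsIntegral D y ↔ ∀ W : ValuationSubring L, Above D W → W.valuation y ≤ 1 := by
  have key := iInf_valuationSubring_superset (K := L) (s := Set.range (algebraMap D L))
  have hcl : Subring.closure (Set.range (algebraMap D L)) = (algebraMap D L).range := by
    rw [← RingHom.coe_range, Subring.closure_eq]
  constructor
  · intro hy W hW
    rw [ValuationSubring.valuation_le_one_iff]
    have hy' : y ∈ (integralClosure (Subring.closure (Set.range (algebraMap D L))) L).toSubring := by
      change IsIntegral (Subring.closure (Set.range (algebraMap D L))) y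
      obtain ⟨p, hp, hpy⟩ := hy
      let f : D →+* Subring.closure (Set.range (algebraMap D L)) :=
        (algebraMap D L).codRestrict _ (fun d => Subring.subset_closure ⟨d, rfl⟩)
      refine ⟨p.map f, hp.map f, ?_⟩
      rw [eval₂_map]
      exact hpy
    rw [← key] at hy'
    have hsub : Set.range (algebraMap D L) ⊆ W.toSubring := by
      rintro _ ⟨d, rfl⟩
      exact (ValuationSubring.valuation_le_one_iff W _).1 (hW d)
    have h2 : (⨅ V : {V : ValuationSubring L // Set.range (algebraMap D L) ⊆ V.toSubring},
      V.1.toSubring) ≤ W.toSubring := iInf_le (fun V : {V : ValuationSubring L //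
        Set.range (algebraMap D L) ⊆ V.toSubring} => V.1.toSubring) ⟨W, hsub⟩
    exact h2 hy'
  · intro h
    have hy' : y ∈ (⨅ V : {V : ValuationSubring L // Set.range (algebraMap D L) ⊆ V.toSubring},
        V.1.toSubring) := by
      rw [Subring.mem_iInf]
      rintro ⟨V, hV⟩
      have := h V (fun d => (ValuationSubring.valuation_le_one_iff V _).2 (hV ⟨d, rfl⟩))
      exact (ValuationSubring.valuation_le_one_iff V _).1 this
    rw [key] at hy'
    have hy2 : IsIntegral (Subring.closure (Set.range (algebraMap D L))) y := hy'
    obtain ⟨p, hp, hpy⟩ := hy2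
    -- lift p to D
    let f : D →+* Subring.closure (Set.range (algebraMap D L)) :=
      (algebraMap D L).codRestrict _ (fun d => Subring.subset_closure ⟨d, rfl⟩)
    have hf : Function.Surjective f := by
      rintro ⟨x, hx⟩
      rw [hcl] at hx
      obtain ⟨d, rfl⟩ := hx
      exact ⟨d, rfl⟩
    have hlift : p ∈ lifts f := by
      rw [lifts_iff_coeff_lifts]
      intro n
      exact hf _
    obtain ⟨q, hq1, _, hq2⟩ := lifts_and_natDegree_eq_and_monic hlift hp
    refine ⟨q, hq2, ?_⟩
    rw [← hq1, eval₂_map] at hpy
    exact hpy

/-- The centre of a valuation above `D`. -/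
def center (D : Type*) {L : Type*} [CommRing D] [Field L] [Algebra D L]
    (W : ValuationSubring L) (hW : Above D W) : Ideal D where
  carrier := {d | W.valuation (algebraMap D L d) < 1}
  add_mem' := by
    intro a b ha hb
    change W.valuation (algebraMap D L (a + b)) < 1
    rw [map_add]
    exact Valuation.map_add_lt _ ha hb
  zero_mem' := by
    change W.valuation (algebraMap D L 0) < 1
    simp
  smul_mem' := by
    intro c a ha
    change W.valuation (algebraMap D L (c * a)) < 1
    rw [map_mul, map_mul]
    exact (mul_le_of_le_one_left' (hW c)).trans_lt ha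

omit [IsDomain D] in
theorem over_center (W : ValuationSubring L) (hW : Above D W) :
    Over W.valuation (center D W hW) := ⟨hW, fun _ => Iff.rfl⟩

theorem center_isPrime (W : ValuationSubring L) (hW : Above D W) :
    (center D W hW).IsPrime := by
  constructor
  · intro h
    have h1 : (1 : D) ∈ center D W hW := h ▸ Submodule.mem_top
    have h2 : W.valuation (algebraMap D L 1) < 1 := h1
    simp at h2
  · intro x y hxy
    by_contra hcon
    push Not at hcon
    have hx := (over_center W hW).eq_one hcon.1
    have hy := (over_center W hW).eq_one hcon.2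
    have h2 : W.valuation (algebraMap D L (x * y)) < 1 := hxy
    rw [map_mul, map_mul, hx, hy, one_mul] at h2
    exact lt_irrefl _ h2

variable {π : D} {N Q n : ℕ}

theorem G1 (hπ : GoodPrime π N Q) (E : IntermediateField K L) [FiniteDimensional K E]
    (hE : Module.finrank K E ≤ n) (W : ValuationSubring L) (hW : Above D W)
    (hlt : W.valuation (algebraMap D L π) < 1) (z : L) (hz : z ∈ E) (hz0 : z ≠ 0) :
    ∃ i : ℤ, W.valuation z ^ (n.factorial * N.factorial) = W.valuation (algebraMap D L π) ^ i := by
  have hπP : π ∈ center D W hW := hlt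
  have hprime := center_isPrime W hW
  have hmax := hπ.maximal _ hprime hπP
  have hdvr := hπ.dvr _ hπP
  have hzK : IsIntegral K (⟨z, hz⟩ : E) := Algebra.IsIntegral.isIntegral _
  have hzK' : IsIntegral K z := by
    have := hzK.map E.val
    exact this
  have hdeg : (minpoly K z).natDegree ≤ n := by
    have h1 : minpoly K z = minpoly K (⟨z, hz⟩ : E) := by
      exact minpoly.algebraMap_eq (algebraMap E L).injective (⟨z, hz⟩ : E)
    rw [h1]
    exact (minpoly.natDegree_le _).trans hE
  exact value_exact W.valuation (center D W hW) (over_center W hW) π hπ.ne hπP N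
    (hπ.ram _ hπP) n z hz0 hzK' hdeg

theorem G3 (hπ : GoodPrime π N Q) (E : IntermediateField K L) [FiniteDimensional K E]
    (hE : Module.finrank K E ≤ n) (W : ValuationSubring L) (hW : Above D W)
    (hlt : W.valuation (algebraMap D L π) < 1) (z : L) (hz : z ∈ E) (hz1 : W.valuation z < 1) :
    W.valuation z ^ (n.factorial * N.factorial) ≤ W.valuation (algebraMap D L π) := by
  have hpos : n.factorial * N.factorial ≠ 0 :=
    mul_ne_zero (Nat.factorial_ne_zero _) (Nat.factorial_ne_zero _)
  rcases eq_or_ne z 0 with rfl | hz0
  · rw [map_zero, zero_pow hpos]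
    exact zero_le
  · obtain ⟨i, hi⟩ := G1 hπ E hE W hW hlt z hz hz0
    have hπ0 : 0 < W.valuation (algebraMap D L π) := by
      rw [zero_lt_iff]
      intro h0
      rw [Valuation.zero_iff] at h0
      have hDL : Function.Injective (algebraMap D L) := by
        rw [IsScalarTower.algebraMap_eq D K L]
        exact (algebraMap K L).injective.comp (IsFractionRing.injective D K)
      exact hπ.ne (hDL (by rw [h0, map_zero]))
    have h1 : W.valuation z ^ (n.factorial * N.factorial) < 1 := pow_lt_one₀ zero_le hz1 hpos
    rw [hi] at h1 ⊢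
    have hi0 : 0 < i := by
      by_contra hneg
      push Not at hneg
      exact absurd h1 (not_lt_of_ge (one_le_zpow_of_nonpos₀ hπ0 hlt.le hneg))
    have h2 := zpow_le_zpow_right_of_le_one₀ hπ0 hlt.le (show (1 : ℤ) ≤ i by omega)
    rwa [zpow_one] at h2

theorem injDL (D K L : Type*) [CommRing D] [Field K] [Algebra D K] [IsFractionRing D K]
    [Field L] [Algebra K L] [Algebra D L] [IsScalarTower D K L] :
    Function.Injective (algebraMap D L) := by
  rw [IsScalarTower.algebraMap_eq D K L]
  exact (algebraMap K L).injective.comp (IsFractionRing.injective D K)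

theorem valuation_pos (hDL : Function.Injective (algebraMap D L)) (hπ : GoodPrime π N Q)
    (W : ValuationSubring L) : 0 < W.valuation (algebraMap D L π) := by
  rw [zero_lt_iff]
  intro h0
  rw [Valuation.zero_iff] at h0
  exact hπ.ne (hDL (by rw [h0, map_zero]))

theorem G2 [IsIntegrallyClosed D] (hπ : GoodPrime π N Q) (E : IntermediateField K L)
    [FiniteDimensional K E] (hE : Module.finrank K E ≤ n) (W : ValuationSubring L)
    (hW : Above D W) (hlt : W.valuation (algebraMap D L π) < 1) (z : L) (hz : z ∈ E)
    (hzD : IsIntegral D z) (hz1 : W.valuation z = 1) :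
    W.valuation (z ^ (Q ^ n).factorial - 1) < 1 := by
  have hmin : minpoly K z = (minpoly D z).map (algebraMap D K) :=
    minpoly.isIntegrallyClosed_eq_field_fractions' K hzD
  have hdeg : (minpoly D z).natDegree ≤ n := by
    have h0 : (minpoly D z).natDegree = (minpoly K z).natDegree := by
      rw [hmin, (minpoly.monic hzD).natDegree_map]
    have h1 : minpoly K z = minpoly K (⟨z, hz⟩ : E) := by
      exact minpoly.algebraMap_eq (algebraMap E L).injective (⟨z, hz⟩ : E)
    rw [h0, h1]
    exact (minpoly.natDegree_le _).trans hE
  obtain ⟨r, q, hq⟩ := exists_uniform π hπ.ne N Q n hπ.Qpos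
    (fun P _ h => hπ.dvr P h) (fun P _ h => hπ.ram P h) (fun P _ h => hπ.res P h)
    (minpoly D z) (minpoly.monic hzD) hdeg
  have h2 : (aeval z (Psi D (Q ^ n))) ^ N = algebraMap D L π * aeval z r := by
    have h3 := congrArg (aeval z) hq
    rw [map_mul, minpoly.aeval, zero_mul, map_sub, map_pow, map_mul, aeval_C] at h3
    exact sub_eq_zero.1 h3
  have hr : W.valuation (aeval z r) ≤ 1 := by
    have h4 : IsIntegral D (aeval z r) := by
      have : aeval z r ∈ Algebra.adjoin D {z} := aeval_mem_adjoin_singleton D z
      exact IsIntegral.of_mem_of_fg (Algebra.adjoin D {z}) hzD.fg_adjoin_singleton _ this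
    exact (isIntegral_iff_forall _).1 h4 W hW
  have h5 : W.valuation (aeval z (Psi D (Q ^ n))) ^ N < 1 := by
    rw [← map_pow, h2, map_mul]
    exact (mul_le_of_le_one_right' hr).trans_lt hlt
  have h6 : W.valuation (aeval z (Psi D (Q ^ n))) < 1 := by
    by_contra hge
    push Not at hge
    exact absurd h5 (not_lt_of_ge (one_le_pow_of_one_le' hge N))
  have h7 : aeval z (Psi D (Q ^ n)) = z ^ (Q ^ n) * (z ^ (Q ^ n).factorial - 1) := by
    simp [Psi]
  rw [h7, map_mul, map_pow, hz1, one_pow, one_mul] at h6
  exact h6

/-- Threshold polynomials. -/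
noncomputable def U (π : K) (l m : ℕ) : ℕ → K[X]
  | 0 => 1
  | (i + 1) => U π l m i * (1 - (C ((π ^ i)⁻¹) * X ^ l * (U π l m i) ^ (l * (i + 1))) ^ m)

noncomputable def V (π : K) (l m : ℕ) (i : ℕ) : K[X] :=
  (C ((π ^ i)⁻¹) * X ^ l * (U π l m i) ^ (l * (i + 1))) ^ m

theorem U_succ (π : K) (l m i : ℕ) : U π l m (i + 1) = U π l m i * (1 - V π l m i) := rfl

theorem aeval_mem (E : IntermediateField K L) {z : L} (hz : z ∈ E) (p : K[X]) :
    aeval z p ∈ E := by
  have : aeval z p = ((aeval (⟨z, hz⟩ : E) p : E) : L) := by
    have := aeval_algHom_apply E.val (⟨z, hz⟩ : E) p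
    exact this
  rw [this]
  exact (aeval (⟨z, hz⟩ : E) p).2

/-- The threshold property. -/
theorem threshold [IsIntegrallyClosed D] (hπ : GoodPrime π N Q) (E : IntermediateField K L)
    [FiniteDimensional K E] (hE : Module.finrank K E ≤ n) (l m : ℕ)
    (hl : l = n.factorial * N.factorial) (hm : m = (Q ^ n).factorial)
    (z : L) (hz : z ∈ E) (hzD : IsIntegral D z) (i : ℕ) :
    (∀ W : ValuationSubring L, Above D W →
      W.valuation (aeval z (U (algebraMap D K π) l m i)) ≤ 1 ∧
      (W.valuation (algebraMap D L π) < 1 →
        (W.valuation z ^ l ≤ W.valuation (algebraMap D L π) ^ i →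
          W.valuation (aeval z (U (algebraMap D K π) l m i) - 1) < 1) ∧
        (W.valuation (algebraMap D L π) ^ i < W.valuation z ^ l →
          W.valuation (aeval z (U (algebraMap D K π) l m i)) < 1))) ∧
    (∀ W : ValuationSubring L, Above D W →
      W.valuation (aeval z (V (algebraMap D K π) l m i)) ≤ 1 ∧
      (W.valuation (algebraMap D L π) < 1 →
        (W.valuation z ^ l = W.valuation (algebraMap D L π) ^ i →
          W.valuation (aeval z (V (algebraMap D K π) l m i) - 1) < 1) ∧
        (W.valuation z ^ l ≠ W.valuation (algebraMap D L π) ^ i →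
          W.valuation (aeval z (V (algebraMap D K π) l m i)) < 1))) := by
  have hl0 : l ≠ 0 := by
    rw [hl]; exact mul_ne_zero (Nat.factorial_ne_zero _) (Nat.factorial_ne_zero _)
  have hm0 : m ≠ 0 := by rw [hm]; exact Nat.factorial_ne_zero _
  have hpi : algebraMap K L (algebraMap D K π) = algebraMap D L π :=
    (IsScalarTower.algebraMap_apply D K L π).symm
  have hV : ∀ i, (∀ W : ValuationSubring L, Above D W →
      W.valuation (aeval z (U (algebraMap D K π) l m i)) ≤ 1 ∧
      (W.valuation (algebraMap D L π) < 1 →
        (W.valuation z ^ l ≤ W.valuation (algebraMap D L π) ^ i →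
          W.valuation (aeval z (U (algebraMap D K π) l m i) - 1) < 1) ∧
        (W.valuation (algebraMap D L π) ^ i < W.valuation z ^ l →
          W.valuation (aeval z (U (algebraMap D K π) l m i)) < 1))) →
    (∀ W : ValuationSubring L, Above D W →
      W.valuation (aeval z (V (algebraMap D K π) l m i)) ≤ 1 ∧
      (W.valuation (algebraMap D L π) < 1 →
        (W.valuation z ^ l = W.valuation (algebraMap D L π) ^ i →
          W.valuation (aeval z (V (algebraMap D K π) l m i) - 1) < 1) ∧
        (W.valuation z ^ l ≠ W.valuation (algebraMap D L π) ^ i →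
          W.valuation (aeval z (V (algebraMap D K π) l m i)) < 1))) := by
    intro i hU
    -- the element t
    set Ui := U (algebraMap D K π) l m i with hUi
    set u := aeval z Ui with hu
    set t : L := ((algebraMap D L π) ^ i)⁻¹ * z ^ l * u ^ (l * (i + 1)) with ht
    have hVt : aeval z (V (algebraMap D K π) l m i) = t ^ m := by
      rw [V, ← hUi, map_pow, map_mul, map_mul, map_pow, map_pow, aeval_C, aeval_X, map_inv₀,
        map_pow, hpi]
    have htE : t ∈ E := by
      have : t = aeval z (C (((algebraMap D K π) ^ i)⁻¹) * X ^ l * Ui ^ (l * (i + 1))) := by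
        rw [map_mul, map_mul, map_pow, map_pow, aeval_C, aeval_X, map_inv₀, map_pow, hpi]
      rw [this]
      exact aeval_mem E hz _
    have huE : u ∈ E := aeval_mem E hz _
    have hzle : ∀ W : ValuationSubring L, Above D W → W.valuation z ≤ 1 :=
      fun W hW => (isIntegral_iff_forall z).1 hzD W hW
    have hvt : ∀ W : ValuationSubring L, W.valuation t =
        ((W.valuation (algebraMap D L π)) ^ i)⁻¹ * W.valuation z ^ l *
          W.valuation u ^ (l * (i + 1)) := by
      intro W
      rw [ht, map_mul, map_mul, map_inv₀, map_pow, map_pow, map_pow]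
    -- values of t
    have hcase1 : ∀ W : ValuationSubring L, Above D W → W.valuation (algebraMap D L π) < 1 →
        W.valuation z ^ l = W.valuation (algebraMap D L π) ^ i → W.valuation t = 1 := by
      intro W hW hlt heq
      have hpos := valuation_pos (injDL D K L) hπ W
      have hu1 : W.valuation u = 1 := by
        have h1 := ((hU W hW).2 hlt).1 heq.le
        have h2 : u = (u - 1) + 1 := by ring
        rw [h2, Valuation.map_add_eq_of_lt_right]
        · simp
        · simpa using h1
      rw [hvt, heq, hu1, one_pow, mul_one, inv_mul_cancel₀ (pow_ne_zero _ hpos.ne')]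
    have hcase2 : ∀ W : ValuationSubring L, Above D W → W.valuation (algebraMap D L π) < 1 →
        W.valuation z ^ l ≠ W.valuation (algebraMap D L π) ^ i → W.valuation t < 1 := by
      intro W hW hlt hne
      have hpos := valuation_pos (injDL D K L) hπ W
      have hposi : 0 < W.valuation (algebraMap D L π) ^ i := pow_pos hpos _
      rcases lt_or_gt_of_ne hne with h | h
      · have hu1 := (hU W hW).1
        rw [hvt]
        refine (mul_le_of_le_one_right' (pow_le_one' hu1 _)).trans_lt ?_
        rw [mul_comm, ← div_eq_mul_inv]
        exact (div_lt_one₀ hposi).2 h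
      · have hu1 := ((hU W hW).2 hlt).2 h
        have hu2 : W.valuation u ^ (l * (i + 1)) ≤ W.valuation (algebraMap D L π) ^ (i + 1) := by
          rw [pow_mul]
          apply pow_le_pow_left'
          rw [hl]
          exact G3 hπ E hE W hW hlt u huE hu1
        rw [hvt]
        have hz1 : W.valuation z ^ l ≤ 1 := pow_le_one' (hzle W hW) _
        calc ((W.valuation (algebraMap D L π)) ^ i)⁻¹ * W.valuation z ^ l *
              W.valuation u ^ (l * (i + 1))
            ≤ ((W.valuation (algebraMap D L π)) ^ i)⁻¹ * 1 *
              W.valuation (algebraMap D L π) ^ (i + 1) := by gcongr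
          _ = W.valuation (algebraMap D L π) := by
              rw [mul_one, pow_succ, ← mul_assoc, inv_mul_cancel₀ hposi.ne', one_mul]
          _ < 1 := hlt
    have htle : ∀ W : ValuationSubring L, Above D W → W.valuation t ≤ 1 := by
      intro W hW
      rcases (hW π).lt_or_eq with hlt | heq
      · by_cases h : W.valuation z ^ l = W.valuation (algebraMap D L π) ^ i
        · exact (hcase1 W hW hlt h).le
        · exact (hcase2 W hW hlt h).le
      · rw [hvt, heq, one_pow, inv_one, one_mul]
        exact mul_le_one' (pow_le_one' (hzle W hW) _) (pow_le_one' (hU W hW).1 _)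
    have htD : IsIntegral D t := (isIntegral_iff_forall t).2 htle
    intro W hW
    rw [hVt]
    refine ⟨?_, fun hlt => ⟨fun heq => ?_, fun hne => ?_⟩⟩
    · rw [map_pow]
      exact pow_le_one' (htle W hW) _
    · rw [hm]
      exact G2 hπ E hE W hW hlt t htE htD (hcase1 W hW hlt heq)
    · rw [map_pow]
      exact pow_lt_one₀ zero_le (hcase2 W hW hlt hne) hm0
  have hUall : ∀ i, (∀ W : ValuationSubring L, Above D W →
      W.valuation (aeval z (U (algebraMap D K π) l m i)) ≤ 1 ∧
      (W.valuation (algebraMap D L π) < 1 →
        (W.valuation z ^ l ≤ W.valuation (algebraMap D L π) ^ i →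
          W.valuation (aeval z (U (algebraMap D K π) l m i) - 1) < 1) ∧
        (W.valuation (algebraMap D L π) ^ i < W.valuation z ^ l →
          W.valuation (aeval z (U (algebraMap D K π) l m i)) < 1))) := by
    intro i
    induction i with
    | zero =>
      intro W hW
      have hU0 : aeval z (U (algebraMap D K π) l m 0) = 1 := by simp [U]
      rw [hU0]
      refine ⟨by simp, fun hlt => ⟨fun _ => by simp, fun h => ?_⟩⟩
      rw [pow_zero] at h
      have hz1 : W.valuation z ^ l ≤ 1 :=
        pow_le_one' ((isIntegral_iff_forall z).1 hzD W hW) _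
      exact absurd hz1 (not_le_of_gt h)
    | succ i ih =>
      have hVi := hV i ih
      intro W hW
      obtain ⟨hU1, hU2⟩ := ih W hW
      obtain ⟨hV1, hV2⟩ := hVi W hW
      have hUs : aeval z (U (algebraMap D K π) l m (i + 1)) =
          aeval z (U (algebraMap D K π) l m i) * (1 - aeval z (V (algebraMap D K π) l m i)) := by
        rw [U_succ, map_mul, map_sub, map_one]
      rw [hUs]
      set u := aeval z (U (algebraMap D K π) l m i)
      set w := aeval z (V (algebraMap D K π) l m i)
      have h1w : W.valuation (1 - w) ≤ 1 := by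
        refine (Valuation.map_sub _ _ _).trans (max_le (by simp) hV1)
      refine ⟨?_, fun hlt => ⟨fun hle => ?_, fun hgt => ?_⟩⟩
      · rw [map_mul]
        exact mul_le_one' hU1 h1w
      · have hpos := valuation_pos (injDL D K L) hπ W
        have hlt' : W.valuation (algebraMap D L π) ^ (i + 1) <
            W.valuation (algebraMap D L π) ^ i := by
          rw [pow_succ]
          exact mul_lt_of_lt_one_right (pow_pos hpos _) hlt
        have h3 := (hU2 hlt).1 (hle.trans hlt'.le)
        have h4 := (hV2 hlt).2 (hle.trans_lt hlt').ne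
        have h5 : u * (1 - w) - 1 = (u - 1) - u * w := by ring
        rw [h5]
        refine Valuation.map_sub_lt _ h3 ?_
        rw [map_mul]
        exact (mul_le_of_le_one_left' hU1).trans_lt h4
      · rw [map_mul]
        have hpos := valuation_pos (injDL D K L) hπ W
        by_cases hle : W.valuation z ^ l ≤ W.valuation (algebraMap D L π) ^ i
        · -- then equality holds
          have hz0 : z ≠ 0 := by
            rintro rfl
            rw [map_zero, zero_pow hl0] at hgt
            exact absurd hgt (not_lt_of_ge zero_le)
          obtain ⟨k, hk⟩ := G1 hπ E hE W hW hlt z hz hz0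
          rw [← hl] at hk
          have heq : W.valuation z ^ l = W.valuation (algebraMap D L π) ^ i := by
            rw [hk] at hgt hle ⊢
            have hk1 : (i : ℤ) ≤ k := by
              by_contra hcon
              push Not at hcon
              have := zpow_lt_zpow_right_of_lt_one₀ hpos hlt hcon
              rw [zpow_natCast] at this
              exact absurd hle (not_le_of_gt this)
            have hk2 : k < (i : ℤ) + 1 := by
              by_contra hcon
              push Not at hcon
              have := zpow_le_zpow_right_of_le_one₀ hpos hlt.le hcon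
              rw [show ((i : ℤ) + 1) = ((i + 1 : ℕ) : ℤ) by push_cast; ring, zpow_natCast] at this
              exact absurd hgt (not_lt_of_ge this)
            have hk3 : k = i := by omega
            rw [hk3, zpow_natCast]
          have h4 := (hV2 hlt).1 heq
          have h5 : W.valuation (1 - w) < 1 := by rwa [Valuation.map_sub_swap]
          exact (mul_le_of_le_one_left' hU1).trans_lt h5
        · push Not at hle
          have h3 := (hU2 hlt).2 hle
          exact (mul_le_of_le_one_right' h1w).trans_lt h3
  exact ⟨hUall i, hV i (hUall i)⟩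

end

end Pool.Agent.Helper97.ADDB
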