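import Mathlib
import Pool.Agent.Helper97.ADDBThreshold

namespace Pool.Agent.Helper97.ADDB

open Polynomial

section

variable {D K L : Type*} [CommRing D] [IsDomain D] [Field K] [Algebra D K] [IsFractionRing D K]
  [Field L] [Algebra K L] [Algebra D L] [IsScalarTower D K L]

/-- `V / X`. -/
noncomputable def V' (π : K) (l m : ℕ) (i : ℕ) : K[X] :=
  C (((π ^ i)⁻¹) ^ m) * X ^ (l * m - 1) * (U π l m i) ^ (l * (i + 1) * m)

theorem V'_mul_X (π : K) (l m i : ℕ) (h : 1 ≤ l * m) : V' π l m i * X = V π l m i := by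
  have h1 : (X : K[X]) ^ (l * m - 1) * X = X ^ (l * m) := by
    rw [← pow_succ, Nat.sub_add_cancel h]
  unfold V' V
  rw [mul_pow, mul_pow, ← pow_mul X l m, ← h1, C_pow, ← pow_mul (U π l m i)]
  ring

variable {π : D} {N Q n : ℕ}

theorem pow_factor_le_one {Γ : Type*} [LinearOrderedCommGroupWithZero Γ] {a b : Γ} {l : ℕ}
    (hl : l ≠ 0) (h : a ^ l ≤ b ^ l) : a ≤ b := by
  by_contra hlt
  push Not at hlt
  exact absurd h (not_le_of_gt (pow_lt_pow_left₀ hlt zero_le hl))

/-- First estimate. -/
theorem est1 [IsIntegrallyClosed D] (hπ : GoodPrime π N Q) (E : IntermediateField K L)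
    [FiniteDimensional K E] (hE : Module.finrank K E ≤ n) (l m : ℕ)
    (hl : l = n.factorial * N.factorial) (hm : m = (Q ^ n).factorial) (hlm : 2 ≤ l * m)
    (y w : L) (hy : y ∈ E) (hyD : IsIntegral D y) (i : ℕ)
    (W : ValuationSubring L) (hW : Above D W) (_ : W.valuation (algebraMap D L π) < 1)
    (hb : W.valuation w ^ l ≤ W.valuation (algebraMap D L π) ^ i) :
    W.valuation (aeval y (V' (algebraMap D K π) l m i) * w) ≤ 1 := by
  have hl0 : l ≠ 0 := by
    rw [hl]; exact mul_ne_zero (Nat.factorial_ne_zero _) (Nat.factorial_ne_zero _)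
  have hm0 : m ≠ 0 := by rw [hm]; exact Nat.factorial_ne_zero _
  have hpos := valuation_pos (injDL D K L) hπ W
  obtain ⟨hU, hV⟩ := threshold hπ E hE l m hl hm y hy hyD i
  rcases eq_or_ne y 0 with rfl | hy0
  · have : aeval (0 : L) (V' (algebraMap D K π) l m i) = 0 := by
      have h1 : l * m - 1 ≠ 0 := by omega
      simp [V', h1]
    rw [this, zero_mul, map_zero]
    exact zero_le
  have hVy : aeval y (V' (algebraMap D K π) l m i) * y = aeval y (V (algebraMap D K π) l m i) := by
    rw [← V'_mul_X _ _ _ _ (by omega), map_mul, aeval_X]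
  have hvy : 0 < W.valuation y := by rw [zero_lt_iff, Ne, Valuation.zero_iff]; exact hy0
  rcases le_or_gt (W.valuation (algebraMap D L π) ^ i) (W.valuation y ^ l) with ha | ha
  · -- v w ≤ v y
    have hwy : W.valuation w ≤ W.valuation y := pow_factor_le_one hl0 (hb.trans ha)
    rw [map_mul]
    calc W.valuation (aeval y (V' (algebraMap D K π) l m i)) * W.valuation w
        ≤ W.valuation (aeval y (V' (algebraMap D K π) l m i)) * W.valuation y := by gcongr
      _ = W.valuation (aeval y (V (algebraMap D K π) l m i)) := by rw [← map_mul, hVy]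
      _ ≤ 1 := (hV W hW).1
  · -- v y ^ l < ρ ^ i
    set ρ := W.valuation (algebraMap D L π) with hρ
    have hρi : 0 < ρ ^ i := pow_pos hpos i
    set u := W.valuation (aeval y (U (algebraMap D K π) l m i)) with hu
    have hu1 : u ≤ 1 := (hU W hW).1
    have hVval : W.valuation (aeval y (V (algebraMap D K π) l m i)) =
        ((ρ ^ i)⁻¹ * W.valuation y ^ l * u ^ (l * (i + 1))) ^ m := by
      have hpi : algebraMap K L (algebraMap D K π) = algebraMap D L π :=
        (IsScalarTower.algebraMap_apply D K L π).symm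
      rw [V, map_pow, map_mul, map_mul, map_pow, map_pow, aeval_C, aeval_X, map_inv₀,
        map_pow, hpi, map_pow, map_mul, map_mul, map_pow, map_pow, map_inv₀, map_pow]
    set s := (ρ ^ i)⁻¹ * W.valuation y ^ l with hs
    have hs1 : s ≤ 1 := by
      rw [hs, mul_comm, ← div_eq_mul_inv]
      exact (div_le_one₀ hρi).2 ha.le
    have hVle : W.valuation (aeval y (V (algebraMap D K π) l m i)) ≤ s := by
      rw [hVval]
      calc (s * u ^ (l * (i + 1))) ^ m ≤ s ^ m :=
            pow_le_pow_left' (mul_le_of_le_one_right' (pow_le_one' hu1 _)) m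
        _ ≤ s ^ 1 := pow_le_pow_right_of_le_one' hs1 (Nat.one_le_iff_ne_zero.2 hm0)
        _ = s := pow_one s
    have hmain : W.valuation (aeval y (V' (algebraMap D K π) l m i) * w) ^ l ≤ 1 ^ l := by
      have h1 : W.valuation (aeval y (V' (algebraMap D K π) l m i) * w) * W.valuation y =
          W.valuation (aeval y (V (algebraMap D K π) l m i)) * W.valuation w := by
        rw [← map_mul, ← map_mul, ← hVy]
        congr 1
        ring
      have h2 : (W.valuation (aeval y (V' (algebraMap D K π) l m i) * w)) ^ l *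
          (W.valuation y) ^ l ≤ 1 ^ l * (W.valuation y) ^ l := by
        rw [← mul_pow, h1, mul_pow, one_pow, one_mul]
        calc W.valuation (aeval y (V (algebraMap D K π) l m i)) ^ l * W.valuation w ^ l
            ≤ s ^ l * ρ ^ i := mul_le_mul' (pow_le_pow_left' hVle l) hb
          _ ≤ s ^ 1 * ρ ^ i := by
              gcongr ?_ * _
              exact pow_le_pow_right_of_le_one' hs1 (Nat.one_le_iff_ne_zero.2 hl0)
          _ = W.valuation y ^ l := by
              rw [pow_one, hs, mul_comm, ← mul_assoc, mul_inv_cancel₀ hρi.ne', one_mul]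
      exact le_of_mul_le_mul_right h2 (pow_pos hvy l)
    exact pow_factor_le_one hl0 hmain

/-- Crude estimate. -/
theorem est2 [IsIntegrallyClosed D] (hπ : GoodPrime π N Q) (E : IntermediateField K L)
    [FiniteDimensional K E] (hE : Module.finrank K E ≤ n) (l m : ℕ)
    (hl : l = n.factorial * N.factorial) (hm : m = (Q ^ n).factorial)
    (y : L) (hy : y ∈ E) (hyD : IsIntegral D y) (i : ℕ)
    (W : ValuationSubring L) (hW : Above D W) :
    W.valuation (aeval y (V' (algebraMap D K π) l m i)) *
      W.valuation (algebraMap D L π) ^ (i * m) ≤ 1 := by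
  have hpos := valuation_pos (injDL D K L) hπ W
  obtain ⟨hU, hV⟩ := threshold hπ E hE l m hl hm y hy hyD i
  have hpi : algebraMap K L (algebraMap D K π) = algebraMap D L π :=
    (IsScalarTower.algebraMap_apply D K L π).symm
  have hexp : aeval y (V' (algebraMap D K π) l m i) = (((algebraMap D L π) ^ i)⁻¹) ^ m *
      y ^ (l * m - 1) * (aeval y (U (algebraMap D K π) l m i)) ^ (l * (i + 1) * m) := by
    simp only [V', map_mul, map_pow, aeval_C, aeval_X, map_inv₀, hpi]
  rw [hexp, map_mul, map_mul, map_pow, map_pow, map_pow, map_inv₀, map_pow]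
  set ρ := W.valuation (algebraMap D L π) with hρ
  have h1 : W.valuation y ^ (l * m - 1) ≤ 1 :=
    pow_le_one' ((isIntegral_iff_forall y).1 hyD W hW) _
  have h2 : W.valuation (aeval y (U (algebraMap D K π) l m i)) ^ (l * (i + 1) * m) ≤ 1 :=
    pow_le_one' (hU W hW).1 _
  have h3 : ((ρ ^ i)⁻¹) ^ m * ρ ^ (i * m) = 1 := by
    rw [pow_mul, ← mul_pow, inv_mul_cancel₀ (pow_ne_zero _ hpos.ne'), one_pow]
  calc _ ≤ ((ρ ^ i)⁻¹) ^ m * 1 * 1 * ρ ^ (i * m) := by gcongr
    _ = 1 := by rw [mul_one, mul_one, h3]

/-- Bounds for the products with a large power of a threshold value. -/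
theorem est3 [IsIntegrallyClosed D] (hπ : GoodPrime π N Q) (E : IntermediateField K L)
    [FiniteDimensional K E] (hE : Module.finrank K E ≤ n) (l m : ℕ)
    (hl : l = n.factorial * N.factorial) (hm : m = (Q ^ n).factorial) (hlm : 2 ≤ l * m)
    (y w : L) (hy : y ∈ E) (hyD : IsIntegral D y) (hw : w ∈ E) (hwD : IsIntegral D w)
    (i j M' : ℕ) (hij : i ≤ j) (hM : l * (i * m) ≤ M')
    (W : ValuationSubring L) (hW : Above D W) :
    W.valuation (aeval y (V' (algebraMap D K π) l m i) *
      (aeval w (U (algebraMap D K π) l m j)) ^ M' * w) ≤ 1 := by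
  have hpos := valuation_pos (injDL D K L) hπ W
  obtain ⟨hU, _⟩ := threshold hπ E hE l m hl hm w hw hwD j
  have hU1 := (hU W hW).1
  have hw1 : W.valuation w ≤ 1 := (isIntegral_iff_forall w).1 hwD W hW
  have h2 := est2 hπ E hE l m hl hm y hy hyD i W hW
  rcases (hW π).lt_or_eq with hlt | heq
  · rcases le_or_gt (W.valuation w ^ l) (W.valuation (algebraMap D L π) ^ j) with hb | hb
    · have hbi : W.valuation w ^ l ≤ W.valuation (algebraMap D L π) ^ i :=
        hb.trans (pow_le_pow_right_of_le_one' hlt.le hij)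
      have h1 := est1 hπ E hE l m hl hm hlm y w hy hyD i W hW hlt hbi
      have h3 : aeval y (V' (algebraMap D K π) l m i) *
          (aeval w (U (algebraMap D K π) l m j)) ^ M' * w =
          (aeval y (V' (algebraMap D K π) l m i) * w) *
          (aeval w (U (algebraMap D K π) l m j)) ^ M' := by ring
      rw [h3, map_mul, map_pow]
      exact mul_le_one' h1 (pow_le_one' hU1 _)
    · have hu := ((hU W hW).2 hlt).2 hb
      have hu2 : W.valuation (aeval w (U (algebraMap D K π) l m j)) ^ l ≤
          W.valuation (algebraMap D L π) := by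
        rw [hl]
        rw [hl] at hu
        exact G3 hπ E hE W hW hlt _ (aeval_mem E hw _) hu
      have hu3 : W.valuation (aeval w (U (algebraMap D K π) l m j)) ^ M' ≤
          W.valuation (algebraMap D L π) ^ (i * m) := by
        calc W.valuation (aeval w (U (algebraMap D K π) l m j)) ^ M'
            ≤ W.valuation (aeval w (U (algebraMap D K π) l m j)) ^ (l * (i * m)) :=
              pow_le_pow_right_of_le_one' hU1 hM
          _ = (W.valuation (aeval w (U (algebraMap D K π) l m j)) ^ l) ^ (i * m) := pow_mul _ _ _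
          _ ≤ _ := pow_le_pow_left' hu2 _
      rw [map_mul, map_mul, map_pow]
      calc _ ≤ W.valuation (aeval y (V' (algebraMap D K π) l m i)) *
            W.valuation (algebraMap D L π) ^ (i * m) * 1 := by gcongr
        _ ≤ 1 := by rw [mul_one]; exact h2
  · rw [heq, one_pow, mul_one] at h2
    rw [map_mul, map_mul, map_pow]
    exact mul_le_one' (mul_le_one' h2 (pow_le_one' hU1 _)) hw1

/-- The two coefficient functions. -/
noncomputable def F1 (π : K) (l m I M' : ℕ) (f g : K[X]) : K[X] :=
  ∑ i ∈ Finset.range (I + 1), (V' π l m i).comp f * ((U π l m i).comp g) ^ M'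

noncomputable def F2 (π : K) (l m I M' : ℕ) (f g : K[X]) : K[X] :=
  ∑ i ∈ Finset.range (I + 1), (V' π l m i).comp g * ((U π l m (i + 1)).comp f) ^ M'

theorem F_bounds [IsIntegrallyClosed D] (hπ : GoodPrime π N Q) (E : IntermediateField K L)
    [FiniteDimensional K E] (hE : Module.finrank K E ≤ n) (l m : ℕ)
    (hl : l = n.factorial * N.factorial) (hm : m = (Q ^ n).factorial) (hlm : 2 ≤ l * m)
    (f g : K[X]) (x : L) (hx : x ∈ E) (hfD : IsIntegral D (aeval x f))
    (hgD : IsIntegral D (aeval x g)) (I M' : ℕ) (hM : l * (I * m) ≤ M')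
    (W : ValuationSubring L) (hW : Above D W) :
    W.valuation (aeval x (F1 (algebraMap D K π) l m I M' f g * f)) ≤ 1 ∧
    W.valuation (aeval x (F1 (algebraMap D K π) l m I M' f g * g)) ≤ 1 ∧
    W.valuation (aeval x (F2 (algebraMap D K π) l m I M' f g * f)) ≤ 1 ∧
    W.valuation (aeval x (F2 (algebraMap D K π) l m I M' f g * g)) ≤ 1 := by
  set y := aeval x f with hy
  set w := aeval x g with hw
  have hyE : y ∈ E := aeval_mem E hx f
  have hwE : w ∈ E := aeval_mem E hx g
  have hMi : ∀ i ∈ Finset.range (I + 1), l * (i * m) ≤ M' := by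
    intro i hi
    have : i ≤ I := Nat.lt_succ_iff.1 (Finset.mem_range.1 hi)
    refine le_trans ?_ hM
    gcongr
  have hF1 : ∀ h : K[X], aeval x (F1 (algebraMap D K π) l m I M' f g * h) =
      ∑ i ∈ Finset.range (I + 1), aeval y (V' (algebraMap D K π) l m i) *
        (aeval w (U (algebraMap D K π) l m i)) ^ M' * aeval x h := by
    intro h
    rw [map_mul, F1, map_sum, Finset.sum_mul]
    apply Finset.sum_congr rfl
    intro i _
    rw [map_mul, map_pow, aeval_comp, aeval_comp]
  have hF2 : ∀ h : K[X], aeval x (F2 (algebraMap D K π) l m I M' f g * h) =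
      ∑ i ∈ Finset.range (I + 1), aeval w (V' (algebraMap D K π) l m i) *
        (aeval y (U (algebraMap D K π) l m (i + 1))) ^ M' * aeval x h := by
    intro h
    rw [map_mul, F2, map_sum, Finset.sum_mul]
    apply Finset.sum_congr rfl
    intro i _
    rw [map_mul, map_pow, aeval_comp, aeval_comp]
  refine ⟨?_, ?_, ?_, ?_⟩
  · rw [hF1]
    apply Valuation.map_sum_le
    intro i hi
    obtain ⟨hUw, _⟩ := threshold hπ E hE l m hl hm w hwE hgD i
    obtain ⟨_, hVy⟩ := threshold hπ E hE l m hl hm y hyE hfD i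
    have h1 : aeval y (V' (algebraMap D K π) l m i) *
        (aeval w (U (algebraMap D K π) l m i)) ^ M' * y =
        aeval y (V (algebraMap D K π) l m i) * (aeval w (U (algebraMap D K π) l m i)) ^ M' := by
      rw [← V'_mul_X _ _ _ _ (by omega), map_mul, aeval_X]
      ring
    rw [← hy, h1, map_mul, map_pow]
    exact mul_le_one' (hVy W hW).1 (pow_le_one' (hUw W hW).1 _)
  · rw [hF1]
    apply Valuation.map_sum_le
    intro i hi
    exact est3 hπ E hE l m hl hm hlm y w hyE hfD hwE hgD i i M' le_rfl (hMi i hi) W hW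
  · rw [hF2]
    apply Valuation.map_sum_le
    intro i hi
    exact est3 hπ E hE l m hl hm hlm w y hwE hgD hyE hfD i (i + 1) M' (Nat.le_succ i)
      (hMi i hi) W hW
  · rw [hF2]
    apply Valuation.map_sum_le
    intro i hi
    obtain ⟨hUy, _⟩ := threshold hπ E hE l m hl hm y hyE hfD (i + 1)
    obtain ⟨_, hVw⟩ := threshold hπ E hE l m hl hm w hwE hgD i
    have h1 : aeval w (V' (algebraMap D K π) l m i) *
        (aeval y (U (algebraMap D K π) l m (i + 1))) ^ M' * w =
        aeval w (V (algebraMap D K π) l m i) *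
          (aeval y (U (algebraMap D K π) l m (i + 1))) ^ M' := by
      rw [← V'_mul_X _ _ _ _ (by omega), map_mul, aeval_X]
      ring
    rw [← hw, h1, map_mul, map_pow]
    exact mul_le_one' (hVw W hW).1 (pow_le_one' (hUy W hW).1 _)

theorem mul_sub_one_lt {Γ : Type*} [LinearOrderedCommGroupWithZero Γ] (v : Valuation L Γ)
    {a b : L} (hb : v b ≤ 1) (h1 : v (a - 1) < 1) (h2 : v (b - 1) < 1) : v (a * b - 1) < 1 := by
  have h3 : a * b - 1 = (a - 1) * b + (b - 1) := by ring
  rw [h3]
  refine Valuation.map_add_lt _ ?_ h2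
  rw [map_mul]
  exact (mul_le_of_le_one_right' hb).trans_lt h1

theorem pow_sub_one_lt {Γ : Type*} [LinearOrderedCommGroupWithZero Γ] (v : Valuation L Γ)
    {a : L} (ha : v a ≤ 1) (h1 : v (a - 1) < 1) (k : ℕ) : v (a ^ k - 1) < 1 := by
  induction k with
  | zero => simp
  | succ k ih =>
    rw [pow_succ]
    exact mul_sub_one_lt v ha ih h1

theorem F_one [IsIntegrallyClosed D] (hπ : GoodPrime π N Q) (E : IntermediateField K L)
    [FiniteDimensional K E] (hE : Module.finrank K E ≤ n) (l m : ℕ)
    (hl : l = n.factorial * N.factorial) (hm : m = (Q ^ n).factorial) (hlm : 2 ≤ l * m)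
    (f g : K[X]) (x : L) (hx : x ∈ E) (hfD : IsIntegral D (aeval x f))
    (hgD : IsIntegral D (aeval x g)) (I M' : ℕ) (hM1 : 1 ≤ M')
    (W : ValuationSubring L) (hW : Above D W) (hlt : W.valuation (algebraMap D L π) < 1)
    (hI : W.valuation (algebraMap D L π) ^ I ≤
      max (W.valuation (aeval x f) ^ l) (W.valuation (aeval x g) ^ l)) :
    W.valuation (aeval x (F1 (algebraMap D K π) l m I M' f g * f +
      F2 (algebraMap D K π) l m I M' f g * g) - 1) < 1 := by
  have hl0 : l ≠ 0 := by
    rw [hl]; exact mul_ne_zero (Nat.factorial_ne_zero _) (Nat.factorial_ne_zero _)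
  have hpos := valuation_pos (injDL D K L) hπ W
  set y := aeval x f with hy
  set w := aeval x g with hw
  have hyE : y ∈ E := aeval_mem E hx f
  have hwE : w ∈ E := aeval_mem E hx g
  set ρ := W.valuation (algebraMap D L π) with hρ
  have hVX : ∀ i, ∀ z : L, aeval z (V' (algebraMap D K π) l m i) * z =
      aeval z (V (algebraMap D K π) l m i) := by
    intro i z
    rw [← V'_mul_X _ _ _ _ (by omega), map_mul, aeval_X]
  have hexp : aeval x (F1 (algebraMap D K π) l m I M' f g * f +
      F2 (algebraMap D K π) l m I M' f g * g) =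
      ∑ i ∈ Finset.range (I + 1), (aeval y (V (algebraMap D K π) l m i) *
        (aeval w (U (algebraMap D K π) l m i)) ^ M' +
        aeval w (V (algebraMap D K π) l m i) *
        (aeval y (U (algebraMap D K π) l m (i + 1))) ^ M') := by
    rw [map_add, map_mul, map_mul, F1, F2, map_sum, map_sum, Finset.sum_mul, Finset.sum_mul,
      ← Finset.sum_add_distrib]
    apply Finset.sum_congr rfl
    intro i _
    rw [map_mul, map_pow, aeval_comp, aeval_comp, map_mul, map_pow, aeval_comp, aeval_comp,
      ← hy, ← hw, ← hVX i y, ← hVX i w]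
    ring
  rw [hexp]
  -- thresholds
  have hUy := fun i => ((threshold hπ E hE l m hl hm y hyE hfD i).1 W hW)
  have hVy := fun i => ((threshold hπ E hE l m hl hm y hyE hfD i).2 W hW)
  have hUw := fun i => ((threshold hπ E hE l m hl hm w hwE hgD i).1 W hW)
  have hVw := fun i => ((threshold hπ E hE l m hl hm w hwE hgD i).2 W hW)
  have hanti : ∀ i j : ℕ, i < j → ρ ^ j < ρ ^ i := fun i j hij =>
    pow_lt_pow_right_of_lt_one₀ hpos hlt hij
  -- exactness
  have hexact : ∀ z ∈ E, IsIntegral D z → ∀ c : ℕ, ρ ^ c ≤ W.valuation z ^ l →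
      ∃ k : ℕ, k ≤ c ∧ W.valuation z ^ l = ρ ^ k := by
    intro z hz hzD c hc
    have hz0 : z ≠ 0 := by
      rintro rfl
      rw [map_zero, zero_pow hl0] at hc
      exact absurd hc (not_le_of_gt (pow_pos hpos c))
    obtain ⟨k, hk⟩ := G1 hπ E hE W hW hlt z hz hz0
    rw [← hl] at hk
    have hz1 : W.valuation z ^ l ≤ 1 := pow_le_one' ((isIntegral_iff_forall z).1 hzD W hW) _
    have hk0 : 0 ≤ k := by
      by_contra hneg
      push Not at hneg
      have := one_lt_zpow_of_neg₀ hpos hlt hneg
      rw [← hk] at this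
      exact absurd hz1 (not_le_of_gt this)
    obtain ⟨k', rfl⟩ := Int.eq_ofNat_of_zero_le hk0
    rw [zpow_natCast] at hk
    refine ⟨k', ?_, hk⟩
    by_contra hcon
    push Not at hcon
    have := hanti _ _ hcon
    rw [← hk] at this
    exact absurd hc (not_le_of_gt this)
  -- the small terms
  have small1 : ∀ i, W.valuation y ^ l ≠ ρ ^ i ∨ ρ ^ i < W.valuation w ^ l →
      W.valuation (aeval y (V (algebraMap D K π) l m i) *
        (aeval w (U (algebraMap D K π) l m i)) ^ M') < 1 := by
    intro i h
    rw [map_mul, map_pow]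
    rcases h with h | h
    · exact (mul_le_of_le_one_right' (pow_le_one' (hUw i).1 _)).trans_lt (((hVy i).2 hlt).2 h)
    · exact (mul_le_of_le_one_left' (hVy i).1).trans_lt
        (pow_lt_one₀ zero_le (((hUw i).2 hlt).2 h) (by omega))
  have small2 : ∀ i, W.valuation w ^ l ≠ ρ ^ i ∨ ρ ^ (i + 1) < W.valuation y ^ l →
      W.valuation (aeval w (V (algebraMap D K π) l m i) *
        (aeval y (U (algebraMap D K π) l m (i + 1))) ^ M') < 1 := by
    intro i h
    rw [map_mul, map_pow]
    rcases h with h | h
    · exact (mul_le_of_le_one_right' (pow_le_one' (hUy (i + 1)).1 _)).trans_lt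
        (((hVw i).2 hlt).2 h)
    · exact (mul_le_of_le_one_left' (hVw i).1).trans_lt
        (pow_lt_one₀ zero_le (((hUy (i + 1)).2 hlt).2 h) (by omega))
  have finish : ∀ i0 ∈ Finset.range (I + 1), ∀ F : ℕ → L,
      W.valuation (F i0 - 1) < 1 → (∀ i ∈ Finset.range (I + 1), i ≠ i0 → W.valuation (F i) < 1) →
      W.valuation (∑ i ∈ Finset.range (I + 1), F i - 1) < 1 := by
    intro i0 hi0 F h1 h2
    rw [← Finset.add_sum_erase _ _ hi0]
    have h3 : F i0 + ∑ i ∈ (Finset.range (I + 1)).erase i0, F i - 1 =
        (F i0 - 1) + ∑ i ∈ (Finset.range (I + 1)).erase i0, F i := by ring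
    rw [h3]
    refine Valuation.map_add_lt _ h1 ?_
    apply Valuation.map_sum_lt _ one_ne_zero
    intro i hi
    exact h2 i (Finset.mem_of_mem_erase hi) (Finset.ne_of_mem_erase hi)
  rcases le_or_gt (W.valuation w ^ l) (W.valuation y ^ l) with hcase | hcase
  · rw [max_eq_left hcase] at hI
    obtain ⟨i0, hi0, hyi⟩ := hexact y hyE hfD I hI
    refine finish i0 (Finset.mem_range.2 (by omega)) _ ?_ ?_
    · have h1 : W.valuation (aeval y (V (algebraMap D K π) l m i0) *
          (aeval w (U (algebraMap D K π) l m i0)) ^ M' - 1) < 1 := by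
        apply mul_sub_one_lt
        · rw [map_pow]; exact pow_le_one' (hUw i0).1 _
        · exact ((hVy i0).2 hlt).1 hyi
        · apply pow_sub_one_lt _ (hUw i0).1
          exact ((hUw i0).2 hlt).1 (hyi ▸ hcase)
      have h2 := small2 i0 (Or.inr (by rw [hyi]; exact hanti _ _ (Nat.lt_succ_self _)))
      have h3 : ∀ a b : L, a + b - 1 = (a - 1) + b := fun a b => by ring
      rw [h3]
      exact Valuation.map_add_lt _ h1 h2
    · intro i _ hne
      have hyne : W.valuation y ^ l ≠ ρ ^ i := by
        rw [hyi]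
        rcases lt_or_gt_of_ne hne with h | h
        · exact (hanti _ _ h).ne
        · exact (hanti _ _ h).ne'
      refine Valuation.map_add_lt _ (small1 i (Or.inl hyne)) (small2 i ?_)
      by_cases hwi : W.valuation w ^ l = ρ ^ i
      · right
        rw [hwi] at hcase
        exact (hanti _ _ (Nat.lt_succ_self _)).trans_le hcase
      · exact Or.inl hwi
  · rw [max_eq_right hcase.le] at hI
    obtain ⟨i0, hi0, hwi⟩ := hexact w hwE hgD I hI
    refine finish i0 (Finset.mem_range.2 (by omega)) _ ?_ ?_
    · have hy1 : W.valuation y ^ l ≤ ρ ^ (i0 + 1) := by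
        by_contra hcon
        push Not at hcon
        obtain ⟨k, hk1, hk2⟩ := hexact y hyE hfD (i0 + 1) hcon.le
        rw [hk2] at hcon hcase
        rw [hwi] at hcase
        have h1 : k < i0 + 1 := by
          rcases Nat.lt_or_ge k (i0 + 1) with h | h
          · exact h
          · have : k = i0 + 1 := by omega
            rw [this] at hcon
            exact absurd hcon (lt_irrefl _)
        have h2 : i0 < k := by
          by_contra h
          push Not at h
          rcases h.lt_or_eq with h' | h'
          · exact absurd hcase (not_lt_of_ge (hanti _ _ h').le)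
          · rw [h'] at hcase
            exact lt_irrefl _ hcase
        omega
      have h1 : W.valuation (aeval w (V (algebraMap D K π) l m i0) *
          (aeval y (U (algebraMap D K π) l m (i0 + 1))) ^ M' - 1) < 1 := by
        apply mul_sub_one_lt
        · rw [map_pow]; exact pow_le_one' (hUy (i0 + 1)).1 _
        · exact ((hVw i0).2 hlt).1 hwi
        · apply pow_sub_one_lt _ (hUy (i0 + 1)).1
          exact ((hUy (i0 + 1)).2 hlt).1 hy1
      have h2 := small1 i0 (Or.inl (by rw [← hwi]; exact hcase.ne))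
      have h3 : ∀ a b : L, a + b - 1 = a + (b - 1) := fun a b => by ring
      rw [h3]
      exact Valuation.map_add_lt _ h2 h1
    · intro i _ hne
      have hwne : W.valuation w ^ l ≠ ρ ^ i := by
        rw [hwi]
        rcases lt_or_gt_of_ne hne with h | h
        · exact (hanti _ _ h).ne
        · exact (hanti _ _ h).ne'
      refine Valuation.map_add_lt _ (small1 i ?_) (small2 i (Or.inl hwne))
      by_cases hyi : W.valuation y ^ l = ρ ^ i
      · right
        rw [← hyi]; exact hcase
      · exact Or.inl hyi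

end

end Pool.Agent.Helper97.ADDB
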