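import Mathlib
import Pool.Agent.Helper97.ADDBEps

namespace Pool.Agent.Helper97.ADDB

open Polynomial

/-- The base ring data. -/
structure Base {D₀ D : Type*} [CommRing D₀] [CommRing D] [IsDomain D] (φ : D₀ →+* D) : Prop where
  inj : Function.Injective φ
  good : ∀ q : D₀, Prime q → ∃ N Q, GoodPrime (φ q) N Q
  div : ∀ c : D, c ≠ 0 → ∃ c₀ : D₀, c₀ ≠ 0 ∧ c ∣ φ c₀
  char : ∀ q : D₀, Prime q → ∃ p : ℕ, p.Prime ∧ q ∣ (p : D₀)

section fg

/-- Two-generated ideals invertible implies finitely generated ideals invertible. -/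
theorem idem_identity {R : Type*} [CommSemiring R] (h : ∀ a : R, a + a = a) (x y z : R) :
    (x + y + z) * (x * y + y * z + z * x) = (x + y) * (y + z) * (z + x) := by
  have h1 : (x + y + z) * (x * y + y * z + z * x) =
      (x * x * y + x * x * z + x * y * y + y * y * z + y * z * z + z * z * x +
        (x * y * z + x * y * z)) + x * y * z := by ring
  have h2 : (x + y) * (y + z) * (z + x) =
      x * x * y + x * x * z + x * y * y + y * y * z + y * z * z + z * z * x +
        (x * y * z + x * y * z) := by ring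
  rw [h1, h2, h (x * y * z), add_assoc, h (x * y * z)]

theorem fg_of_pairs {R : Type*} [CommRing R] [IsDomain R]
    (hpair : ∀ a b : R, a ≠ 0 → b ≠ 0 → ∃ J : Ideal R, ∃ s : R, s ≠ 0 ∧
      Ideal.span {a, b} * J = Ideal.span {s}) :
    ∀ (S : Finset R), (∀ a ∈ S, a ≠ 0) → S.Nonempty → ∃ J : Ideal R, ∃ s : R, s ≠ 0 ∧
      Ideal.span (S : Set R) * J = Ideal.span {s} := by
  classical
  intro S
  induction hn : S.card using Nat.strong_induction_on generalizing S with
  | _ n ih =>
  intro hS hne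
  rcases Nat.lt_or_ge n 3 with hlt | hge
  · -- at most two elements
    obtain ⟨a, ha⟩ := hne
    rcases Nat.lt_or_ge n 2 with h2 | h2
    · have h1 : S.card = 1 := by
        have : 0 < S.card := Finset.card_pos.2 ⟨a, ha⟩
        omega
      obtain ⟨b, rfl⟩ := Finset.card_eq_one.1 h1
      refine ⟨⊤, b, hS b (by simp), ?_⟩
      simp
    · have h1 : S.card = 2 := by omega
      obtain ⟨b, c, hbc, rfl⟩ := Finset.card_eq_two.1 h1
      obtain ⟨J, s, hs, h⟩ := hpair b c (hS b (by simp)) (hS c (by simp))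
      refine ⟨J, s, hs, ?_⟩
      rw [← h]
      congr 2
      simp
  · obtain ⟨a, ha, b, hb, hab⟩ : ∃ a ∈ S, ∃ b ∈ S, a ≠ b :=
      Finset.one_lt_card.1 (by omega)
    set T := (S.erase a).erase b with hT
    have hbS : b ∈ S.erase a := Finset.mem_erase.2 ⟨hab.symm, hb⟩
    have hTcard : T.card = n - 2 := by
      rw [hT, Finset.card_erase_of_mem hbS, Finset.card_erase_of_mem ha, hn]
      omega
    have hTS : ∀ x ∈ T, x ∈ S := fun x hx => Finset.mem_of_mem_erase (Finset.mem_of_mem_erase hx)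
    have hTne : T.Nonempty := by
      rw [← Finset.card_pos]; omega
    have haT : a ∉ T := fun h => (Finset.mem_erase.1 (Finset.mem_of_mem_erase h)).1 rfl
    have hbT : b ∉ T := fun h => (Finset.mem_erase.1 h).1 rfl
    have hSeq : (S : Set R) = {a} ∪ (T : Set R) ∪ {b} := by
      ext x
      simp only [Finset.mem_coe, Set.mem_union, Set.mem_singleton_iff, hT, Finset.mem_erase]
      constructor
      · intro hx
        by_cases h1 : x = a
        · exact Or.inl (Or.inl h1)
        · by_cases h2 : x = b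
          · exact Or.inr h2
          · exact Or.inl (Or.inr ⟨h2, h1, hx⟩)
      · rintro ((rfl | ⟨_, _, hx⟩) | rfl)
        · exact ha
        · exact hx
        · exact hb
    obtain ⟨J1, s1, hs1, h1⟩ := ih (insert a T).card (by rw [Finset.card_insert_of_notMem haT]; omega)
      (insert a T) rfl (by
        intro x hx
        rcases Finset.mem_insert.1 hx with rfl | hx
        · exact hS _ ha
        · exact hS _ (hTS _ hx)) ⟨a, Finset.mem_insert_self _ _⟩
    obtain ⟨J2, s2, hs2, h2⟩ := ih (insert b T).card (by rw [Finset.card_insert_of_notMem hbT]; omega)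
      (insert b T) rfl (by
        intro x hx
        rcases Finset.mem_insert.1 hx with rfl | hx
        · exact hS _ hb
        · exact hS _ (hTS _ hx)) ⟨b, Finset.mem_insert_self _ _⟩
    obtain ⟨J3, s3, hs3, h3⟩ := hpair b a (hS b hb) (hS a ha)
    have e1 : Ideal.span ((insert a T : Finset R) : Set R) = Ideal.span {a} + Ideal.span (T : Set R) := by
      rw [Finset.coe_insert, Ideal.span_insert, Submodule.add_eq_sup]
    have e2 : Ideal.span ((insert b T : Finset R) : Set R) = Ideal.span (T : Set R) + Ideal.span {b} := by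
      rw [Finset.coe_insert, Ideal.span_insert, Submodule.add_eq_sup, sup_comm]
    have e3 : Ideal.span ({b, a} : Set R) = Ideal.span {b} + Ideal.span {a} := by
      rw [Ideal.span_insert, Submodule.add_eq_sup]
    have e4 : Ideal.span (S : Set R) = Ideal.span {a} + Ideal.span (T : Set R) + Ideal.span {b} := by
      rw [hSeq, Ideal.span_union, Ideal.span_union, Submodule.add_eq_sup, Submodule.add_eq_sup]
    rw [e1] at h1
    rw [e2] at h2
    rw [e3] at h3
    set X := Ideal.span ({a} : Set R)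
    set Y := Ideal.span (T : Set R)
    set Z := Ideal.span ({b} : Set R)
    refine ⟨(X * Y + Y * Z + Z * X) * (J1 * J2 * J3), s1 * s2 * s3,
      mul_ne_zero (mul_ne_zero hs1 hs2) hs3, ?_⟩
    rw [e4, ← mul_assoc, idem_identity (fun a => by rw [Submodule.add_eq_sup, sup_idem]) X Y Z,
      ← Ideal.span_singleton_mul_span_singleton, ← Ideal.span_singleton_mul_span_singleton,
      ← h1, ← h2, ← h3]
    ring

end fg

section

variable {D K L : Type*} [CommRing D] [IsDomain D] [Field K] [Algebra D K] [IsFractionRing D K]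
  [Field L] [Algebra K L] [Algebra D L] [IsScalarTower D K L]

/-- Clearing denominators. -/
theorem exists_clear (R : Subalgebra D K[X]) (hX : X ∈ R) (f : K[X]) :
    ∃ s : D, s ≠ 0 ∧ C (algebraMap D K s) * f ∈ R := by
  obtain ⟨b, hbm, hb⟩ := IsLocalization.integerNormalization_spec (nonZeroDivisors D) f
  refine ⟨b, nonZeroDivisors.ne_zero hbm, ?_⟩
  have h1 : C (algebraMap D K b) * f =
      (IsLocalization.integerNormalization (nonZeroDivisors D) f).map (algebraMap D K) := by
    rw [hb, ← smul_eq_C_mul, algebraMap_smul]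
  rw [h1]
  have h2 : ∀ p : D[X], p.map (algebraMap D K) ∈ R := by
    intro p
    have : p.map (algebraMap D K) = aeval (X : K[X]) p := by
      induction p using Polynomial.induction_on' with
      | add p q hp hq => rw [Polynomial.map_add, hp, hq, map_add]
      | monomial n a =>
        rw [map_monomial, aeval_monomial, ← C_mul_X_pow_eq_monomial]
        rfl
    rw [this]
    exact (Algebra.adjoin_le (by simpa using hX) : Algebra.adjoin D {X} ≤ R)
      (aeval_mem_adjoin_singleton D X)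
  exact h2 _

variable {D₀ : Type*} [CommRing D₀] [IsDomain D₀] [IsPrincipalIdealRing D₀] {φ : D₀ →+* D}

/-- The key element. -/
theorem exists_eps [IsIntegrallyClosed D] (hB : Base φ) (R : Subalgebra D K[X]) (Ω : Set L)
    (hR : ∀ f, f ∈ R ↔ ∀ x ∈ Ω, IsIntegral D (aeval x f)) (n : ℕ) (hn : 2 ≤ n)
    (hΩ : ∀ x ∈ Ω, ∃ E : IntermediateField K L, FiniteDimensional K E ∧
      Module.finrank K E ≤ n ∧ x ∈ E)
    (q : D₀) (hq : Prime q) (f g u v : K[X]) (hf : f ∈ R) (hg : g ∈ R) (hu : u ∈ R) (hv : v ∈ R)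
    (c : D) (hc : c ≠ 0) (huv : u * f + v * g = C (algebraMap D K c)) :
    ∃ G1 G2 s : K[X], ∃ l : ℕ, G1 * f ∈ R ∧ G1 * g ∈ R ∧ G2 * f ∈ R ∧ G2 * g ∈ R ∧ s ∈ R ∧
      (1 - (G1 * f + G2 * g)) ^ l = C (algebraMap D K (φ q)) * s := by
  obtain ⟨N, Q, hπ⟩ := hB.good q hq
  set π := φ q with hπdef
  set l := n.factorial * N.factorial with hl
  set m := (Q ^ n).factorial with hm
  have hl2 : 2 ≤ l := by
    rw [hl]
    calc 2 = 2 * 1 := rfl
      _ ≤ n.factorial * N.factorial := Nat.mul_le_mul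
          (hn.trans (Nat.self_le_factorial n)) (Nat.factorial_pos N)
  have hm1 : 1 ≤ m := Nat.factorial_pos _
  have hlm : 2 ≤ l * m := hl2.trans (Nat.le_mul_of_pos_right _ hm1)
  obtain ⟨c₀, hc₀, hcc₀⟩ := hB.div c hc
  -- factor out q
  obtain ⟨κ, c', hqc', hc₀eq⟩ := WfDvdMonoid.max_power_factor hc₀ hq.irreducible
  have hcop : IsCoprime q c' := (hq.irreducible.coprime_iff_not_dvd).2 hqc'
  obtain ⟨a, b, hab⟩ := hcop
  set I := κ * l with hI
  set M' := l * (I * m) + 1 with hM'
  set G1 := F1 (algebraMap D K π) l m I M' f g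
  set G2 := F2 (algebraMap D K π) l m I M' f g
  have hbounds : ∀ x ∈ Ω, ∀ W : ValuationSubring L, Above D W →
      W.valuation (aeval x (G1 * f)) ≤ 1 ∧ W.valuation (aeval x (G1 * g)) ≤ 1 ∧
      W.valuation (aeval x (G2 * f)) ≤ 1 ∧ W.valuation (aeval x (G2 * g)) ≤ 1 := by
    intro x hx W hW
    obtain ⟨E, hEfin, hE, hxE⟩ := hΩ x hx
    exact F_bounds hπ E hE l m hl hm hlm f g x hxE ((hR f).1 hf x hx) ((hR g).1 hg x hx) I M'
      (Nat.le_succ _) W hW
  have h1 : G1 * f ∈ R := (hR _).2 (fun x hx =>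
    (isIntegral_iff_forall _).2 (fun W hW => (hbounds x hx W hW).1))
  have h2 : G1 * g ∈ R := (hR _).2 (fun x hx =>
    (isIntegral_iff_forall _).2 (fun W hW => (hbounds x hx W hW).2.1))
  have h3 : G2 * f ∈ R := (hR _).2 (fun x hx =>
    (isIntegral_iff_forall _).2 (fun W hW => (hbounds x hx W hW).2.2.1))
  have h4 : G2 * g ∈ R := (hR _).2 (fun x hx =>
    (isIntegral_iff_forall _).2 (fun W hW => (hbounds x hx W hW).2.2.2))
  set ε := 1 - (G1 * f + G2 * g) with hε
  have hεR : ε ∈ R := R.sub_mem R.one_mem (R.add_mem h1 h4)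
  have hπK : algebraMap D K π ≠ 0 := by
    rw [Ne, map_eq_zero_iff _ (IsFractionRing.injective D K)]
    exact hπ.ne
  refine ⟨G1, G2, C (algebraMap D K π)⁻¹ * ε ^ l, l, h1, h2, h3, h4, ?_, ?_⟩
  · rw [hR]
    intro x hx
    rw [isIntegral_iff_forall]
    intro W hW
    have hpi : algebraMap K L (algebraMap D K π) = algebraMap D L π :=
      (IsScalarTower.algebraMap_apply D K L π).symm
    have hpos := valuation_pos (injDL D K L) hπ W
    rw [map_mul, aeval_C, map_inv₀, hpi, map_pow, map_mul, map_inv₀, map_pow]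
    have hε1 : W.valuation (aeval x ε) ≤ 1 :=
      (isIntegral_iff_forall _).1 ((hR ε).1 hεR x hx) W hW
    rcases (hW π).lt_or_eq with hlt | heq
    · obtain ⟨E, hEfin, hE, hxE⟩ := hΩ x hx
      have hfD := (hR f).1 hf x hx
      have hgD := (hR g).1 hg x hx
      have huD := (hR u).1 hu x hx
      have hvD := (hR v).1 hv x hx
      have hρκ : W.valuation (algebraMap D L π) ^ κ ≤
          max (W.valuation (aeval x f)) (W.valuation (aeval x g)) := by
        have hc'1 : W.valuation (algebraMap D L (φ c')) = 1 := by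
          refine le_antisymm (hW _) ?_
          by_contra hcon
          push Not at hcon
          have e1 := congrArg (fun z => W.valuation (algebraMap D L (φ z))) hab
          simp only [map_add, map_mul, map_one] at e1
          have e2 : W.valuation (algebraMap D L (φ a) * algebraMap D L (φ q) +
              algebraMap D L (φ b) * algebraMap D L (φ c')) < 1 := by
            apply Valuation.map_add_lt
            · rw [map_mul]
              exact (mul_le_of_le_one_left' (hW _)).trans_lt hlt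
            · rw [map_mul]
              exact (mul_le_of_le_one_left' (hW _)).trans_lt hcon
          rw [e1] at e2
          exact lt_irrefl _ e2
        have hvc₀ : W.valuation (algebraMap D L (φ c₀)) = W.valuation (algebraMap D L π) ^ κ := by
          rw [hc₀eq, map_mul, map_pow, map_mul, map_pow, map_mul, map_pow, hc'1, mul_one]
        have hvc : W.valuation (algebraMap D L π) ^ κ ≤ W.valuation (algebraMap D L c) := by
          rw [← hvc₀]
          obtain ⟨d, hd⟩ := hcc₀
          rw [hd, map_mul, map_mul]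
          exact mul_le_of_le_one_right' (hW d)
        refine hvc.trans ?_
        have e3 : algebraMap D L c = aeval x u * aeval x f + aeval x v * aeval x g := by
          rw [← map_mul, ← map_mul, ← map_add, huv, aeval_C]
          exact IsScalarTower.algebraMap_apply D K L c
        rw [e3]
        refine (Valuation.map_add _ _ _).trans (max_le_max ?_ ?_)
        · rw [map_mul]
          exact mul_le_of_le_one_left' ((isIntegral_iff_forall _).1 huD W hW)
        · rw [map_mul]
          exact mul_le_of_le_one_left' ((isIntegral_iff_forall _).1 hvD W hW)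
      have hρI : W.valuation (algebraMap D L π) ^ I ≤
          max (W.valuation (aeval x f) ^ l) (W.valuation (aeval x g) ^ l) := by
        rw [hI, pow_mul]
        rcases le_max_iff.1 hρκ with h | h
        · exact (pow_le_pow_left' h l).trans (le_max_left _ _)
        · exact (pow_le_pow_left' h l).trans (le_max_right _ _)
      have hone := F_one hπ E hE l m hl hm hlm f g x hxE hfD hgD I M' (by omega) W hW hlt hρI
      have hεlt : W.valuation (aeval x ε) < 1 := by
        rw [hε, map_sub, map_one, Valuation.map_sub_swap]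
        exact hone
      have hεl : W.valuation (aeval x ε) ^ l ≤ W.valuation (algebraMap D L π) := by
        rw [hl]
        exact G3 hπ E hE W hW hlt _ (aeval_mem E hxE _) hεlt
      calc (W.valuation (algebraMap D L π))⁻¹ * W.valuation (aeval x ε) ^ l
          ≤ (W.valuation (algebraMap D L π))⁻¹ * W.valuation (algebraMap D L π) := by gcongr
        _ = 1 := inv_mul_cancel₀ hpos.ne'
    · rw [heq, inv_one, one_mul]
      exact pow_le_one' hε1 _
  · rw [← mul_assoc, ← C_mul, mul_inv_cancel₀ hπK, C_1, one_mul]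

/-- Coprime pairs generate invertible ideals. -/
theorem pair_coprime [IsIntegrallyClosed D] (hB : Base φ) (R : Subalgebra D K[X]) (hX : X ∈ R)
    (Ω : Set L) (hR : ∀ f, f ∈ R ↔ ∀ x ∈ Ω, IsIntegral D (aeval x f)) (n : ℕ) (hn : 2 ≤ n)
    (hΩ : ∀ x ∈ Ω, ∃ E : IntermediateField K L, FiniteDimensional K E ∧
      Module.finrank K E ≤ n ∧ x ∈ E)
    (f g u v : R) (c : D) (hc : c ≠ 0)
    (huv : u * f + v * g = algebraMap D R c) :
    ∃ J : Ideal R, ∃ s : R, s ≠ 0 ∧ Ideal.span {f, g} * J = Ideal.span {s} := by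
  have hCR : ∀ d : D, C (algebraMap D K d) ∈ R := fun d => R.algebraMap_mem d
  have huv' : (u : K[X]) * f + v * g = C (algebraMap D K c) := by
    have := congrArg (Subtype.val) huv
    simpa using this
  -- the trace ideal
  let T : Ideal R :=
    { carrier := {t | ∃ G1 G2 : K[X], G1 * f ∈ R ∧ G1 * g ∈ R ∧ G2 * f ∈ R ∧ G2 * g ∈ R ∧
        (t : K[X]) = G1 * f + G2 * g}
      add_mem' := by
        rintro s t ⟨a1, a2, h1, h2, h3, h4, h5⟩ ⟨b1, b2, k1, k2, k3, k4, k5⟩
        refine ⟨a1 + b1, a2 + b2, ?_, ?_, ?_, ?_, ?_⟩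
        · rw [add_mul]; exact R.add_mem h1 k1
        · rw [add_mul]; exact R.add_mem h2 k2
        · rw [add_mul]; exact R.add_mem h3 k3
        · rw [add_mul]; exact R.add_mem h4 k4
        · push_cast
          rw [h5, k5]; ring
      zero_mem' := ⟨0, 0, by simp, by simp, by simp, by simp, by simp⟩
      smul_mem' := by
        rintro r t ⟨a1, a2, h1, h2, h3, h4, h5⟩
        refine ⟨r * a1, r * a2, ?_, ?_, ?_, ?_, ?_⟩
        · rw [mul_assoc]; exact R.mul_mem r.2 h1
        · rw [mul_assoc]; exact R.mul_mem r.2 h2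
        · rw [mul_assoc]; exact R.mul_mem r.2 h3
        · rw [mul_assoc]; exact R.mul_mem r.2 h4
        · rw [smul_eq_mul]
          push_cast
          rw [h5]; ring }
  have hT : T = ⊤ := by
    by_contra hne
    obtain ⟨M, hM, hTM⟩ := Ideal.exists_le_maximal T hne
    have hcT : algebraMap D R c ∈ T := by
      refine ⟨u, v, R.mul_mem u.2 f.2, R.mul_mem u.2 g.2, R.mul_mem v.2 f.2, R.mul_mem v.2 g.2, ?_⟩
      rw [← huv]
      rfl
    -- a prime of D₀ inside M
    obtain ⟨c₀, hc₀, d, hd⟩ := hB.div c hc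
    set ψ : D₀ →+* R := (algebraMap D R).comp φ with hψ
    have hP : (M.comap ψ).IsPrime := inferInstance
    have hc₀M : c₀ ∈ M.comap ψ := by
      rw [Ideal.mem_comap, hψ, RingHom.comp_apply, hd, map_mul]
      exact M.mul_mem_right _ (hTM hcT)
    obtain ⟨q, hq, hqM⟩ : ∃ q, Prime q ∧ q ∈ M.comap ψ := by
      have hne : M.comap ψ ≠ ⊥ := by
        intro h
        rw [h, Ideal.mem_bot] at hc₀M
        exact hc₀ hc₀M
      obtain ⟨q, hq⟩ := (IsPrincipalIdealRing.principal (M.comap ψ)).principal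
      have hq0 : q ≠ 0 := by
        rintro rfl
        apply hne
        rw [hq]; simp
      refine ⟨q, ?_, ?_⟩
      · rw [← Ideal.span_singleton_prime hq0]
        have : Ideal.span {q} = M.comap ψ := by rw [hq]
        rw [this]; exact hP
      · rw [hq]; exact Submodule.mem_span_singleton_self q
    obtain ⟨G1, G2, s, l, h1, h2, h3, h4, hsR, heq⟩ := exists_eps hB R Ω hR n hn hΩ q hq f g u v
      f.2 g.2 u.2 v.2 c hc huv'
    have hεR : 1 - (G1 * f + G2 * g) ∈ R := R.sub_mem R.one_mem (R.add_mem h1 h4)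
    have ht : (⟨G1 * f + G2 * g, R.add_mem h1 h4⟩ : R) ∈ M :=
      hTM ⟨G1, G2, h1, h2, h3, h4, rfl⟩
    have hεM : (⟨1 - (G1 * f + G2 * g), hεR⟩ : R) ∈ M := by
      apply hM.isPrime.mem_of_pow_mem l
      have h5 : (⟨1 - (G1 * f + G2 * g), hεR⟩ : R) ^ l = ψ q * ⟨s, hsR⟩ := by
        apply Subtype.ext
        push_cast
        rw [heq]
        rfl
      rw [h5]
      exact M.mul_mem_right _ hqM
    have h6 : (1 : R) = ⟨1 - (G1 * f + G2 * g), hεR⟩ + ⟨G1 * f + G2 * g, R.add_mem h1 h4⟩ := by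
      apply Subtype.ext
      push_cast
      ring
    apply hM.ne_top
    rw [Ideal.eq_top_iff_one, h6]
    exact M.add_mem hεM ht
  have h1T : (1 : R) ∈ T := hT ▸ Submodule.mem_top
  obtain ⟨G1, G2, h1, h2, h3, h4, h5⟩ := h1T
  obtain ⟨s1, hs1, hs1R⟩ := exists_clear R hX G1
  obtain ⟨s2, hs2, hs2R⟩ := exists_clear R hX G2
  have hs12 : s1 * s2 ≠ 0 := mul_ne_zero hs1 hs2
  have k1 : C (algebraMap D K (s1 * s2)) * G1 ∈ R := by
    rw [map_mul, C_mul, mul_comm (C (algebraMap D K s1)), mul_assoc]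
    exact R.mul_mem (hCR _) hs1R
  have k2 : C (algebraMap D K (s1 * s2)) * G2 ∈ R := by
    rw [map_mul, C_mul, mul_assoc]
    exact R.mul_mem (hCR _) hs2R
  set S : R := algebraMap D R (s1 * s2) with hS
  have hScoe : (S : K[X]) = C (algebraMap D K (s1 * s2)) := rfl
  have hS0 : S ≠ 0 := by
    intro h
    have h6 : C (algebraMap D K (s1 * s2)) = 0 := by rw [← hScoe, h]; rfl
    rw [C_eq_zero, map_eq_zero_iff _ (IsFractionRing.injective D K)] at h6
    exact hs12 h6
  obtain ⟨e1, he1⟩ : ∃ e1 : R, (e1 : K[X]) = C (algebraMap D K (s1 * s2)) * G1 := ⟨⟨_, k1⟩, rfl⟩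
  obtain ⟨e2, he2⟩ : ∃ e2 : R, (e2 : K[X]) = C (algebraMap D K (s1 * s2)) * G2 := ⟨⟨_, k2⟩, rfl⟩
  obtain ⟨x11, hx11⟩ : ∃ x : R, (x : K[X]) = G1 * f := ⟨⟨_, h1⟩, rfl⟩
  obtain ⟨x12, hx12⟩ : ∃ x : R, (x : K[X]) = G1 * g := ⟨⟨_, h2⟩, rfl⟩
  obtain ⟨x21, hx21⟩ : ∃ x : R, (x : K[X]) = G2 * f := ⟨⟨_, h3⟩, rfl⟩
  obtain ⟨x22, hx22⟩ : ∃ x : R, (x : K[X]) = G2 * g := ⟨⟨_, h4⟩, rfl⟩
  have m11 : f * e1 = S * x11 := by
    apply Subtype.ext
    rw [Subalgebra.coe_mul, Subalgebra.coe_mul, he1, hScoe, hx11]; ring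
  have m12 : g * e1 = S * x12 := by
    apply Subtype.ext
    rw [Subalgebra.coe_mul, Subalgebra.coe_mul, he1, hScoe, hx12]; ring
  have m21 : f * e2 = S * x21 := by
    apply Subtype.ext
    rw [Subalgebra.coe_mul, Subalgebra.coe_mul, he2, hScoe, hx21]; ring
  have m22 : g * e2 = S * x22 := by
    apply Subtype.ext
    rw [Subalgebra.coe_mul, Subalgebra.coe_mul, he2, hScoe, hx22]; ring
  have hsum : x11 + x22 = 1 := by
    apply Subtype.ext
    rw [Subalgebra.coe_add, hx11, hx22, Subalgebra.coe_one]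
    exact h5.symm
  refine ⟨Ideal.span {e1, e2}, S, hS0, ?_⟩
  apply le_antisymm
  · rw [Ideal.mul_le]
    intro r hr t ht
    rw [Ideal.mem_span_pair] at hr ht
    obtain ⟨r1, r2, rfl⟩ := hr
    obtain ⟨t1, t2, rfl⟩ := ht
    rw [Ideal.mem_span_singleton]
    refine ⟨r1 * t1 * x11 + r1 * t2 * x21 + r2 * t1 * x12 + r2 * t2 * x22, ?_⟩
    linear_combination (r1 * t1) * m11 + (r1 * t2) * m21 + (r2 * t1) * m12 + (r2 * t2) * m22
  · rw [Ideal.span_singleton_le_iff_mem]
    have h6 : S = f * e1 + g * e2 := by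
      linear_combination (-S) * hsum - m11 - m22
    rw [h6]
    apply Ideal.add_mem
    · exact Ideal.mul_mem_mul (Ideal.subset_span (by simp)) (Ideal.subset_span (by simp))
    · exact Ideal.mul_mem_mul (Ideal.subset_span (by simp)) (Ideal.subset_span (by simp))

theorem span_pair_mul {A : Type*} [CommRing A] (f g a : A) :
    Ideal.span {f, g} * Ideal.span {a} = Ideal.span {f * a, g * a} := by
  rw [Ideal.span_insert, Ideal.sup_mul, Ideal.span_singleton_mul_span_singleton,
    Ideal.span_singleton_mul_span_singleton, ← Ideal.span_insert]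

/-- All pairs generate invertible ideals. -/
theorem pair_general [IsIntegrallyClosed D] (hB : Base φ) (R : Subalgebra D K[X]) (hX : X ∈ R)
    (Ω : Set L) (hR : ∀ f, f ∈ R ↔ ∀ x ∈ Ω, IsIntegral D (aeval x f)) (n : ℕ) (hn : 2 ≤ n)
    (hΩ : ∀ x ∈ Ω, ∃ E : IntermediateField K L, FiniteDimensional K E ∧
      Module.finrank K E ≤ n ∧ x ∈ E)
    (f g : R) (hf : f ≠ 0) (_ : g ≠ 0) :
    ∃ J : Ideal R, ∃ s : R, s ≠ 0 ∧ Ideal.span {f, g} * J = Ideal.span {s} := by
  classical
  have hCR : ∀ d : D, C (algebraMap D K d) ∈ R := fun d => R.algebraMap_mem d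
  have hCne : ∀ d : D, d ≠ 0 → algebraMap D R d ≠ 0 := by
    intro d hd h
    have h6 : C (algebraMap D K d) = 0 := congrArg Subtype.val h
    rw [C_eq_zero, map_eq_zero_iff _ (IsFractionRing.injective D K)] at h6
    exact hd h6
  set d : K[X] := gcd (f : K[X]) g with hd
  have hf' : (f : K[X]) ≠ 0 := fun h => hf (Subtype.ext h)
  have hd0 : d ≠ 0 := by
    intro h
    rw [hd, gcd_eq_zero_iff] at h
    exact hf' h.1
  obtain ⟨f1, hf1⟩ : d ∣ f := gcd_dvd_left _ _
  obtain ⟨g1, hg1⟩ : d ∣ g := gcd_dvd_right _ _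
  obtain ⟨a, b, hab⟩ : ∃ a b : K[X], d = a * f + b * g := by
    obtain ⟨a, b, h⟩ := exists_gcd_eq_mul_add_mul (f : K[X]) (g : K[X])
    exact ⟨a, b, by rw [hd, h]; ring⟩
  have hab1 : a * f1 + b * g1 = 1 := by
    apply mul_left_cancel₀ hd0
    calc d * (a * f1 + b * g1) = a * (d * f1) + b * (d * g1) := by ring
      _ = d := by rw [← hf1, ← hg1, ← hab]
      _ = d * 1 := by ring
  obtain ⟨c1, hc1, hc1R⟩ := exists_clear R hX f1
  obtain ⟨c2, hc2, hc2R⟩ := exists_clear R hX g1
  obtain ⟨c3, hc3, hc3R⟩ := exists_clear R hX a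
  obtain ⟨c4, hc4, hc4R⟩ := exists_clear R hX b
  obtain ⟨c5, hc5, hc5R⟩ := exists_clear R hX d
  have hff : C (algebraMap D K (c1 * c2)) * f1 ∈ R := by
    rw [map_mul, C_mul, mul_comm (C (algebraMap D K c1)), mul_assoc]
    exact R.mul_mem (hCR _) hc1R
  have hgg : C (algebraMap D K (c1 * c2)) * g1 ∈ R := by
    rw [map_mul, C_mul, mul_assoc]
    exact R.mul_mem (hCR _) hc2R
  have haa : C (algebraMap D K (c3 * c4)) * a ∈ R := by
    rw [map_mul, C_mul, mul_comm (C (algebraMap D K c3)), mul_assoc]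
    exact R.mul_mem (hCR _) hc3R
  have hbb : C (algebraMap D K (c3 * c4)) * b ∈ R := by
    rw [map_mul, C_mul, mul_assoc]
    exact R.mul_mem (hCR _) hc4R
  obtain ⟨F, hF⟩ : ∃ F : R, (F : K[X]) = C (algebraMap D K (c1 * c2)) * f1 := ⟨⟨_, hff⟩, rfl⟩
  obtain ⟨G, hG⟩ : ∃ G : R, (G : K[X]) = C (algebraMap D K (c1 * c2)) * g1 := ⟨⟨_, hgg⟩, rfl⟩
  obtain ⟨A, hA⟩ : ∃ A : R, (A : K[X]) = C (algebraMap D K (c3 * c4)) * a := ⟨⟨_, haa⟩, rfl⟩
  obtain ⟨B, hBB⟩ : ∃ B : R, (B : K[X]) = C (algebraMap D K (c3 * c4)) * b := ⟨⟨_, hbb⟩, rfl⟩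
  obtain ⟨E, hE⟩ : ∃ E : R, (E : K[X]) = C (algebraMap D K c5) * d := ⟨⟨_, hc5R⟩, rfl⟩
  have hcoe : ∀ x : D, ((algebraMap D R x : R) : K[X]) = C (algebraMap D K x) := fun x => rfl
  obtain ⟨J, s, hs, hJ⟩ := pair_coprime hB R hX Ω hR n hn hΩ F G A B
    ((c3 * c4) * (c1 * c2)) (mul_ne_zero (mul_ne_zero hc3 hc4) (mul_ne_zero hc1 hc2)) (by
      apply Subtype.ext
      rw [Subalgebra.coe_add, Subalgebra.coe_mul, Subalgebra.coe_mul, hF, hG, hA, hBB, hcoe,
        map_mul (algebraMap D K) (c3 * c4) (c1 * c2), C_mul (a := algebraMap D K (c3 * c4))]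
      linear_combination (C (algebraMap D K (c3 * c4)) * C (algebraMap D K (c1 * c2))) * hab1)
  refine ⟨Ideal.span {algebraMap D R (c5 * (c1 * c2))} * J, E * s, ?_, ?_⟩
  · apply mul_ne_zero _ hs
    intro h
    have h6 : C (algebraMap D K c5) * d = 0 := by rw [← hE, h]; rfl
    rcases mul_eq_zero.1 h6 with h7 | h7
    · rw [C_eq_zero, map_eq_zero_iff _ (IsFractionRing.injective D K)] at h7
      exact hc5 h7
    · exact hd0 h7
  · have e1 : f * algebraMap D R (c5 * (c1 * c2)) = F * E := by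
      apply Subtype.ext
      rw [Subalgebra.coe_mul, Subalgebra.coe_mul, hF, hE, hcoe, hf1,
        map_mul (algebraMap D K) c5, C_mul (a := algebraMap D K c5)]
      ring
    have e2 : g * algebraMap D R (c5 * (c1 * c2)) = G * E := by
      apply Subtype.ext
      rw [Subalgebra.coe_mul, Subalgebra.coe_mul, hG, hE, hcoe, hg1,
        map_mul (algebraMap D K) c5, C_mul (a := algebraMap D K c5)]
      ring
    have h8 : Ideal.span {f, g} * Ideal.span {algebraMap D R (c5 * (c1 * c2))} =
        Ideal.span {F, G} * Ideal.span {E} := by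
      rw [span_pair_mul, span_pair_mul, e1, e2]
    rw [← mul_assoc, h8, mul_assoc, mul_comm (Ideal.span {E}), ← mul_assoc, hJ,
      Ideal.span_singleton_mul_span_singleton, mul_comm s E]

end

end Pool.Agent.Helper97.ADDB
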