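import Mathlib
import Pool.Agent.Helper97.ADDBPrufer

namespace Pool.Agent.Helper97.ADDB

open Polynomial

section roots

variable {D K L B : Type*} [CommRing D] [Field K] [Algebra D K]
  [Field L] [Algebra K L] [Algebra D L] [IsScalarTower D K L]
  [Ring B] [Algebra D B] [Algebra K B] [IsScalarTower D K B]

theorem integral_of_roots [IsAlgClosed L] (α : B) (hα : IsIntegral K α) (f : K[X])
    (h : ∀ x : L, aeval x (minpoly K α) = 0 → IsIntegral D (aeval x f)) :
    IsIntegral D (aeval α f) := by
  classical
  set s := (minpoly K α).aroots L with hs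
  have hm0 : minpoly K α ≠ 0 := minpoly.ne_zero hα
  have hroot : ∀ x ∈ s, IsIntegral D (aeval x f) := by
    intro x hx
    exact h x ((mem_aroots.1 hx).2)
  set P : D[X] := (s.map fun x => minpoly D (aeval x f)).prod with hP
  have hPmonic : P.Monic := by
    apply monic_multiset_prod_of_monic
    intro x hx
    exact minpoly.monic (hroot x hx)
  have hsplit : (minpoly K α).map (algebraMap K L) = (s.map fun x => X - C x).prod := by
    have hsp := IsAlgClosed.splits ((minpoly K α).map (algebraMap K L))
    have := hsp.eq_prod_roots_of_monic ((minpoly.monic hα).map _)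
    exact this
  have hdvd : (minpoly K α).map (algebraMap K L) ∣
      ((P.map (algebraMap D K)).comp f).map (algebraMap K L) := by
    rw [hsplit]
    have h1 : ((P.map (algebraMap D K)).comp f).map (algebraMap K L) =
        (s.map fun x => ((minpoly D (aeval x f)).map (algebraMap D L)).comp
          (f.map (algebraMap K L))).prod := by
      rw [map_comp, map_map, ← IsScalarTower.algebraMap_eq, hP, ← coe_mapRingHom,
        map_multiset_prod, Multiset.map_map]
      have := Polynomial.multiset_prod_comp
        (s.map fun x => (minpoly D (aeval x f)).map (algebraMap D L)) (f.map (algebraMap K L))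
      rw [Multiset.map_map] at this
      exact this
    rw [h1]
    apply Multiset.prod_dvd_prod_of_dvd
    intro x hx
    rw [dvd_iff_isRoot, IsRoot, eval_comp, eval_map_algebraMap, eval_map_algebraMap]
    exact minpoly.aeval D (aeval x f)
  have hdvd' : minpoly K α ∣ (P.map (algebraMap D K)).comp f := by
    rwa [map_dvd_map'] at hdvd
  refine ⟨P, hPmonic, ?_⟩
  have h2 : aeval α ((P.map (algebraMap D K)).comp f) = 0 := by
    obtain ⟨t, ht⟩ := hdvd'
    rw [ht, map_mul, minpoly.aeval, zero_mul]
  rw [aeval_comp, aeval_map_algebraMap] at h2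
  exact h2

theorem roots_integral (α : B) (f : K[X]) (hf : IsIntegral D (aeval α f)) (x : L)
    (hx : aeval x (minpoly K α) = 0) : IsIntegral D (aeval x f) := by
  obtain ⟨p, hp, hpa⟩ := hf
  refine ⟨p, hp, ?_⟩
  have h1 : aeval α ((p.map (algebraMap D K)).comp f) = 0 := by
    rw [aeval_comp, aeval_map_algebraMap]
    exact hpa
  obtain ⟨t, ht⟩ := minpoly.dvd K α h1
  have h2 : aeval x ((p.map (algebraMap D K)).comp f) = 0 := by
    rw [ht, map_mul, hx, zero_mul]
  rw [aeval_comp, aeval_map_algebraMap] at h2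
  exact h2

theorem root_field [FiniteDimensional K B] (α : B) (n : ℕ) (hn : Module.finrank K B ≤ n) (x : L)
    (hx : aeval x (minpoly K α) = 0) :
    ∃ E : IntermediateField K L, FiniteDimensional K E ∧ Module.finrank K E ≤ n ∧ x ∈ E := by
  have hα : IsIntegral K α := Algebra.IsIntegral.isIntegral _
  have hxK : IsIntegral K x := ⟨minpoly K α, minpoly.monic hα, hx⟩
  refine ⟨IntermediateField.adjoin K {x}, IntermediateField.adjoin.finiteDimensional hxK, ?_,
    IntermediateField.mem_adjoin_simple_self K x⟩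
  rw [IntermediateField.adjoin.finrank hxK]
  have h1 : (minpoly K x).natDegree ≤ (minpoly K α).natDegree :=
    natDegree_le_of_dvd (minpoly.dvd K x hx) (minpoly.ne_zero hα)
  exact h1.trans ((minpoly.natDegree_le α).trans hn)

end roots

section one

variable {D K : Type*} [CommRing D] [IsDomain D] [Field K] [Algebra D K] [IsFractionRing D K]

/-- Integrally closed subrings of `K[X]`. -/
theorem mem_of_integral (R : Subalgebra D K[X]) (hX : X ∈ R) [IsIntegrallyClosed R] (f : K[X])
    (hf : IsIntegral R f) : f ∈ R := by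
  obtain ⟨p, hp, hpf⟩ := hf
  obtain ⟨c, hc, hcR⟩ := exists_clear R hX f
  set c' : R := algebraMap D R c with hc'
  have hc'coe : (c' : K[X]) = C (algebraMap D K c) := rfl
  have hc'0 : c' ≠ 0 := by
    intro h
    have h6 : C (algebraMap D K c) = 0 := by rw [← hc'coe, h]; rfl
    rw [C_eq_zero, map_eq_zero_iff _ (IsFractionRing.injective D K)] at h6
    exact hc h6
  obtain ⟨g, hg⟩ : ∃ g : R, (g : K[X]) = C (algebraMap D K c) * f := ⟨⟨_, hcR⟩, rfl⟩
  have hpf' : aeval f p = 0 := hpf
  have h1 := scaleRoots_aeval_eq_zero (r := c') hpf'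
  have h2 : aeval g (p.scaleRoots c') = 0 := by
    have hinj : Function.Injective (algebraMap R K[X]) := Subtype.val_injective
    apply hinj
    rw [← aeval_algebraMap_apply, map_zero]
    have : algebraMap R K[X] g = algebraMap R K[X] c' * f := hg
    rw [this]
    exact h1
  set F := FractionRing R
  have hc'F : algebraMap R F c' ≠ 0 := by
    rw [Ne, map_eq_zero_iff _ (IsFractionRing.injective R F)]
    exact hc'0
  set x : F := algebraMap R F g / algebraMap R F c' with hx
  have hxg : algebraMap R F g = algebraMap R F c' * x := by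
    rw [hx, mul_div_cancel₀ _ hc'F]
  have h3 : aeval (algebraMap R F g) (p.scaleRoots c') = 0 := by
    rw [aeval_algebraMap_apply, h2, map_zero]
  have h4 : aeval x p = 0 := by
    rw [hxg, aeval_def, scaleRoots_eval₂_mul] at h3
    rcases mul_eq_zero.1 h3 with h | h
    · exact absurd h (pow_ne_zero _ hc'F)
    · exact h
  obtain ⟨r, hr⟩ := IsIntegrallyClosed.isIntegral_iff.1 (⟨p, hp, h4⟩ : IsIntegral R x)
  have h5 : c' * r = g := by
    apply IsFractionRing.injective R F
    rw [map_mul, hr, hxg]
  have h6 : C (algebraMap D K c) * (r : K[X]) = C (algebraMap D K c) * f := by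
    rw [← hg, ← h5]
    rfl
  have h7 : C (algebraMap D K c) ≠ 0 := by
    rw [← hc'coe]
    intro h
    exact hc'0 (Subtype.ext h)
  rw [← mul_left_cancel₀ h7 h6]
  exact r.2

/-- Denominators which are powers of `π`. -/
def PD (K : Type*) [Field K] [Algebra D K] (π : D) (f : K[X]) : Prop :=
  ∃ s : ℕ, ∃ g : D[X], C (algebraMap D K (π ^ s)) * f = g.map (algebraMap D K)

theorem PD.mul {π : D} {f g : K[X]} (hf : PD K π f) (hg : PD K π g) : PD K π (f * g) := by
  obtain ⟨s, a, ha⟩ := hf
  obtain ⟨t, b, hb⟩ := hg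
  refine ⟨s + t, a * b, ?_⟩
  rw [pow_add, map_mul, C_mul, Polynomial.map_mul, ← ha, ← hb]
  ring

theorem PD.pow {π : D} {f : K[X]} (hf : PD K π f) (k : ℕ) : PD K π (f ^ k) := by
  induction k with
  | zero => exact ⟨0, 1, by simp⟩
  | succ k ih => rw [pow_succ]; exact ih.mul hf

theorem PD.sub {π : D} {f g : K[X]} (hf : PD K π f) (hg : PD K π g) : PD K π (f - g) := by
  obtain ⟨s, a, ha⟩ := hf
  obtain ⟨t, b, hb⟩ := hg
  refine ⟨s + t, C (π ^ t) * a - C (π ^ s) * b, ?_⟩
  rw [Polynomial.map_sub, Polynomial.map_mul, Polynomial.map_mul, ← ha, ← hb, map_C, map_C,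
    pow_add, map_mul, C_mul]
  ring

theorem PD.inv {π : D} (hπ : π ≠ 0) (i : ℕ) : PD K π (C (((algebraMap D K π) ^ i)⁻¹)) := by
  refine ⟨i, 1, ?_⟩
  have h : (algebraMap D K π) ^ i ≠ 0 := by
    apply pow_ne_zero
    rw [Ne, map_eq_zero_iff _ (IsFractionRing.injective D K)]
    exact hπ
  rw [← C_mul, map_pow, mul_inv_cancel₀ h, Polynomial.map_one, C_1]

theorem PD.X {π : D} : PD K π (X : K[X]) := ⟨0, Polynomial.X, by simp⟩

theorem PD_U {π : D} (hπ : π ≠ 0) (l m i : ℕ) : PD K π (U (algebraMap D K π) l m i) := by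
  induction i with
  | zero => exact ⟨0, 1, by simp [U]⟩
  | succ i ih =>
    rw [U_succ]
    apply ih.mul
    apply PD.sub ⟨0, 1, by simp⟩
    unfold V
    exact (((PD.inv hπ i).mul (PD.X.pow l)).mul (ih.pow _)).pow m

theorem comp_U {π : D} (hπ : π ≠ 0) (l m : ℕ) (hm : 1 ≤ m) (i : ℕ) (hi : i ≤ l) :
    ∃ h : D[X], (U (algebraMap D K π) l m i).comp (C (algebraMap D K π) * X) =
      1 + C (algebraMap D K π) * h.map (algebraMap D K) := by
  have hπK : algebraMap D K π ≠ 0 := by
    rw [Ne, map_eq_zero_iff _ (IsFractionRing.injective D K)]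
    exact hπ
  induction i with
  | zero => exact ⟨0, by simp [U]⟩
  | succ i ih =>
    obtain ⟨h, hh⟩ := ih (by omega)
    set w : D[X] := C (π ^ (l - i - 1)) * X ^ l * (1 + C π * h) ^ (l * (i + 1)) with hw
    have hV : (V (algebraMap D K π) l m i).comp (C (algebraMap D K π) * X) =
        (C (algebraMap D K π) * w.map (algebraMap D K)) ^ m := by
      have h1 : (algebraMap D K π ^ i)⁻¹ * (algebraMap D K π) ^ l =
          algebraMap D K π * (algebraMap D K π) ^ (l - i - 1) := by
        have h2 : (algebraMap D K π) ^ l = (algebraMap D K π) ^ i * (algebraMap D K π *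
            (algebraMap D K π) ^ (l - i - 1)) := by
          rw [← pow_succ', ← pow_add]
          congr 1
          omega
        rw [h2, ← mul_assoc, inv_mul_cancel₀ (pow_ne_zero _ hπK), one_mul]
      have h3 := congrArg (C : K → K[X]) h1
      simp only [C_mul, C_pow] at h3
      unfold V
      rw [pow_comp, mul_comp, mul_comp, pow_comp, pow_comp, X_comp, C_comp, hh, hw]
      congr 1
      simp only [Polynomial.map_mul, Polynomial.map_pow, Polynomial.map_add, Polynomial.map_one,
        map_C, map_X, map_pow, C_pow, mul_pow]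
      linear_combination (X ^ l * (1 + C (algebraMap D K π) * h.map (algebraMap D K)) ^
        (l * (i + 1))) * h3
    obtain ⟨k, rfl⟩ : ∃ k, m = k + 1 := ⟨m - 1, by omega⟩
    refine ⟨h - w ^ (k + 1) * C (π ^ k) - C π * h * w ^ (k + 1) * C (π ^ k), ?_⟩
    rw [U_succ, mul_comp, sub_comp, one_comp, hV, hh]
    simp only [Polynomial.map_mul, Polynomial.map_pow, Polynomial.map_sub, map_C, map_pow, C_pow]
    ring

end one

end Pool.Agent.Helper97.ADDB
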