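import Mathlib
import Pool.Agent.Helper97.ADDBMain

namespace Pool.Agent.Helper97.ADDB

open Polynomial

theorem one_add_pow_prime {R : Type*} [CommRing R] (π : R) (p : ℕ) (hp : π ∣ (p : R))
    (h : R) (j : ℕ) : ∃ h' : R, (1 + π * h) ^ p ^ j = 1 + π ^ (j + 1) * h' := by
  induction j with
  | zero => exact ⟨h, by simp⟩
  | succ j ih =>
    obtain ⟨h', hh'⟩ := ih
    obtain ⟨c, hc⟩ := hp
    obtain ⟨k, hk⟩ := powAddExpansion (1 : R) (π ^ (j + 1) * h') p
    refine ⟨c * h' + k * π ^ j * h' ^ 2, ?_⟩
    rw [pow_succ p j, pow_mul, hh', hk, hc]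
    ring

section

variable {D K B : Type*} [CommRing D] [IsDomain D] [Field K] [Algebra D K] [IsFractionRing D K]
  [Ring B] [Algebra D B] [Algebra K B] [IsScalarTower D K B]

theorem exists_monic [IsIntegrallyClosed D] [FiniteDimensional K B] (n : ℕ)
    (hn : Module.finrank K B ≤ n) (β : B) (hβ : IsIntegral D β) :
    ∃ m : D[X], m.Monic ∧ m.natDegree ≤ n ∧ aeval β m = 0 := by
  obtain ⟨p, hp, hpβ⟩ := hβ
  have hpβ' : aeval β (p.map (algebraMap D K)) = 0 := by
    rw [aeval_map_algebraMap]; exact hpβ
  obtain ⟨m, hm⟩ := IsIntegrallyClosed.eq_map_mul_C_of_dvd K hp (minpoly.dvd K β hpβ')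
  have hβK : IsIntegral K β := Algebra.IsIntegral.isIntegral _
  have hmon := minpoly.monic hβK
  rw [hmon.leadingCoeff, C_1, mul_one] at hm
  have hinj := IsFractionRing.injective D K
  have hmmon : m.Monic := by
    rw [← hm] at hmon
    exact monic_of_injective hinj hmon
  refine ⟨m, hmmon, ?_, ?_⟩
  · have h1 : m.natDegree = (minpoly K β).natDegree := by
      rw [← hm, hmmon.natDegree_map]
    rw [h1]
    exact (minpoly.natDegree_le β).trans hn
  · have h2 := minpoly.aeval K β
    rw [← hm, aeval_map_algebraMap] at h2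
    exact h2

omit [IsDomain D] in
theorem clear_pow (A : Subalgebra D B) (n : ℕ) (β : B) (m : D[X]) (hm : m.Monic)
    (hmn : m.natDegree ≤ n) (hmβ : aeval β m = 0) (c : D) (hc : c • β ∈ A) (r : D[X]) :
    c ^ n • aeval β r ∈ A := by
  have h1 : aeval β r = aeval β (r %ₘ m) := by
    conv_lhs => rw [← modByMonic_add_div r m]
    rw [map_add, map_mul, hmβ, zero_mul, add_zero]
  rw [h1, aeval_eq_sum_range' (n := n + 1)]
  · rw [Finset.smul_sum]
    apply A.sum_mem
    intro i hi
    have hin : i ≤ n := Nat.lt_succ_iff.1 (Finset.mem_range.1 hi)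
    have h2 : c ^ n • ((r %ₘ m).coeff i • β ^ i) =
        ((r %ₘ m).coeff i * c ^ (n - i)) • (c • β) ^ i := by
      rw [_root_.smul_pow, smul_smul, smul_smul]
      congr 1
      rw [mul_assoc, ← pow_add, Nat.sub_add_cancel hin, mul_comm]
    rw [h2]
    exact A.smul_mem (A.pow_mem hc i) _
  · have := natDegree_modByMonic_le r hm
    omega

/-- The core of the first part. -/
theorem step_one [IsIntegrallyClosed D] [FiniteDimensional K B] (A : Subalgebra D B)
    (hAint : ∀ a ∈ A, IsIntegral D a) (R : Subalgebra D K[X])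
    (hR : ∀ f, f ∈ R ↔ ∀ a ∈ A, aeval a f ∈ A) [IsIntegrallyClosed R]
    (π : D) (N Q : ℕ) (hπ : GoodPrime π N Q) (p : ℕ) (hp : p.Prime) (hπp : π ∣ (p : D))
    (b : B) (hb : IsIntegral D b) (hbA : b ∉ A) (hπb : π • b ∈ A) : False := by
  obtain ⟨n, hn, hn2⟩ : ∃ n, Module.finrank K B ≤ n ∧ 2 ≤ n :=
    ⟨max (Module.finrank K B) 2, le_max_left _ _, le_max_right _ _⟩
  set L := AlgebraicClosure K
  set l := n.factorial * N.factorial with hl
  set m := (Q ^ n).factorial with hm
  have hl0 : l ≠ 0 := mul_ne_zero (Nat.factorial_ne_zero _) (Nat.factorial_ne_zero _)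
  have hm1 : 1 ≤ m := Nat.factorial_pos _
  set j := l + n with hj
  obtain ⟨f, hf⟩ : ∃ f : K[X], f = C ((algebraMap D K π)⁻¹) * X *
      (U (algebraMap D K π) l m l) ^ p ^ j := ⟨_, rfl⟩
  have hπK : algebraMap D K π ≠ 0 := by
    rw [Ne, map_eq_zero_iff _ (IsFractionRing.injective D K)]
    exact hπ.ne
  have hX : X ∈ R := by
    rw [hR]; intro a ha; rwa [aeval_X]
  have hpj : l ≤ p ^ j := by
    calc l ≤ j := Nat.le_add_right _ _
      _ ≤ p ^ j := (Nat.lt_pow_self hp.one_lt).le
  -- (a) integrality
  have ha : ∀ α ∈ A, IsIntegral D (aeval α f) := by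
    intro α hα
    have hαK : IsIntegral K α := Algebra.IsIntegral.isIntegral _
    apply integral_of_roots (L := L) α hαK f
    intro x hx
    obtain ⟨E, hEfin, hE, hxE⟩ := root_field (L := L) α n hn x hx
    have hxD : IsIntegral D x := by
      have := roots_integral (L := L) α (X : K[X]) (by rw [aeval_X]; exact hAint α hα) x hx
      rwa [aeval_X] at this
    rw [isIntegral_iff_forall]
    intro W hW
    have hpi : algebraMap K L (algebraMap D K π) = algebraMap D L π :=
      (IsScalarTower.algebraMap_apply D K L π).symm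
    have hpos := valuation_pos (injDL D K L) hπ W
    have hth := ((threshold hπ E hE l m hl hm x hxE hxD l).1 W hW)
    have hfx : aeval x f = (algebraMap D L π)⁻¹ * x *
        (aeval x (U (algebraMap D K π) l m l)) ^ p ^ j := by
      simp only [hf, map_mul, map_pow, aeval_C, aeval_X, map_inv₀, hpi]
    rw [hfx, map_mul, map_mul, map_inv₀, map_pow]
    have hx1 : W.valuation x ≤ 1 := (isIntegral_iff_forall x).1 hxD W hW
    rcases (hW π).lt_or_eq with hlt | heq
    · rcases le_or_gt (W.valuation x ^ l) (W.valuation (algebraMap D L π) ^ l) with h | h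
      · have h1 := pow_factor_le_one hl0 h
        calc _ ≤ (W.valuation (algebraMap D L π))⁻¹ * W.valuation (algebraMap D L π) * 1 := by
              gcongr
              exact pow_le_one' hth.1 _
          _ = 1 := by rw [mul_one, inv_mul_cancel₀ hpos.ne']
      · have h1 := (hth.2 hlt).2 h
        have h2 : W.valuation (aeval x (U (algebraMap D K π) l m l)) ^ p ^ j ≤
            W.valuation (algebraMap D L π) := by
          calc _ ≤ W.valuation (aeval x (U (algebraMap D K π) l m l)) ^ l :=
                pow_le_pow_right_of_le_one' hth.1 hpj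
            _ ≤ _ := by
                rw [hl]
                rw [hl] at h1
                exact G3 hπ E hE W hW hlt _ (aeval_mem E hxE _) h1
        calc _ ≤ (W.valuation (algebraMap D L π))⁻¹ * 1 * W.valuation (algebraMap D L π) := by
              gcongr
          _ = 1 := by rw [mul_one, inv_mul_cancel₀ hpos.ne']
    · rw [heq, inv_one, one_mul]
      exact mul_le_one' hx1 (pow_le_one' hth.1 _)
  -- (b)
  have hb2 : aeval (π • b) f - b ∈ A := by
    obtain ⟨h, hh⟩ := comp_U (K := K) hπ.ne l m hm1 l le_rfl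
    obtain ⟨h', hh'⟩ := one_add_pow_prime (C π : D[X]) p (by
      rw [← C_eq_natCast, C_dvd_iff_dvd_coeff]
      intro i
      rw [coeff_C]
      split_ifs
      · simpa using hπp
      · simp) h j
    have h1 : aeval (π • b) f = aeval b (f.comp (C (algebraMap D K π) * X)) := by
      rw [aeval_comp, map_mul, aeval_C, aeval_X, ← Algebra.smul_def, algebraMap_smul]
    have h2 : f.comp (C (algebraMap D K π) * X) =
        (X * (1 + C π ^ (j + 1) * h') : D[X]).map (algebraMap D K) := by
      rw [← hh', hf, mul_comp, mul_comp, C_comp, X_comp, pow_comp, hh]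
      simp only [Polynomial.map_mul, Polynomial.map_pow, Polynomial.map_add, Polynomial.map_one,
        map_C, map_X]
      rw [← mul_assoc, ← C_mul, inv_mul_cancel₀ hπK, C_1, one_mul]
    have h3 : aeval (π • b) f - b = π ^ (j + 1) • aeval b (X * h') := by
      rw [h1, h2, aeval_map_algebraMap, map_mul, map_add, map_mul, map_pow, aeval_C, aeval_X,
        map_one, map_mul, aeval_X, mul_add, mul_one, Algebra.smul_def, map_pow, ← map_pow]
      rw [add_sub_cancel_left, ← mul_assoc, ← mul_assoc, Algebra.commutes]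
    rw [h3]
    obtain ⟨mb, hmb1, hmb2, hmb3⟩ := exists_monic (K := K) n hn b hb
    have h4 := clear_pow A n b mb hmb1 hmb2 hmb3 π hπb (X * h')
    have h5 : π ^ (j + 1) • aeval b (X * h') = π ^ (l + 1) • (π ^ n • aeval b (X * h')) := by
      rw [smul_smul, ← pow_add]
      congr 2
      omega
    rw [h5]
    exact A.smul_mem h4 _
  -- (d) f is integral over R
  have hfint : IsIntegral R f := by
    obtain ⟨s, g, hg⟩ : PD K π f := by
      rw [hf]
      refine ((?_ : PD K π (C ((algebraMap D K π)⁻¹))).mul PD.X).mul ((PD_U hπ.ne l m l).pow _)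
      have := PD.inv (K := K) hπ.ne 1
      rwa [pow_one] at this
    set Φ : D[X] := (Psi D (Q ^ n)) ^ (N * (s * n)) * X with hΦ
    have hΦmonic : Φ.Monic := ((Psi_monic D _).pow _).mul monic_X
    have hΦdeg : 0 < Φ.degree := by
      rw [hΦ, degree_mul, degree_X]
      have h1 : (0 : WithBot ℕ) ≤ ((Psi D (Q ^ n)) ^ (N * (s * n))).degree := by
        rw [zero_le_degree_iff]
        exact ((Psi_monic D _).pow _).ne_zero
      calc (0 : WithBot ℕ) < 0 + 1 := by norm_num
        _ ≤ _ := by gcongr
    have hFR : (Φ.map (algebraMap D K)).comp f ∈ R := by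
      rw [hR]
      intro α hα
      rw [aeval_comp, aeval_map_algebraMap]
      set β := aeval α f with hβ
      have hβint : IsIntegral D β := ha α hα
      have hβA : π ^ s • β ∈ A := by
        have h1 : π ^ s • β = aeval α g := by
          rw [← aeval_map_algebraMap K α g, ← hg, map_mul, aeval_C, ← Algebra.smul_def,
            algebraMap_smul]
        rw [h1]
        exact (Algebra.adjoin_le (by simpa using hα) : Algebra.adjoin D {α} ≤ A)
          (aeval_mem_adjoin_singleton D α)
      obtain ⟨mb, hmb1, hmb2, hmb3⟩ := exists_monic (K := K) n hn β hβint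
      obtain ⟨r, q, hq⟩ := exists_uniform π hπ.ne N Q n hπ.Qpos
        (fun P _ h => hπ.dvr P h) (fun P _ h => hπ.ram P h) (fun P _ h => hπ.res P h) mb hmb1 hmb2
      have h2 : (aeval β (Psi D (Q ^ n))) ^ N = π • aeval β r := by
        have h3 := congrArg (aeval β) hq
        rw [map_mul, hmb3, zero_mul, map_sub, map_pow, map_mul, aeval_C] at h3
        rw [sub_eq_zero.1 h3, Algebra.smul_def]
      have h4 : aeval β Φ = (π ^ s) ^ n • aeval β (r ^ (s * n) * X) := by
        rw [hΦ, map_mul, map_pow, pow_mul, h2, _root_.smul_pow, map_mul, map_pow, aeval_X, smul_mul_assoc,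
          pow_mul π s n]
      rw [h4]
      exact clear_pow A n β mb hmb1 hmb2 hmb3 (π ^ s) hβA _
    refine ⟨Φ.map (algebraMap D R) - C ⟨_, hFR⟩, ?_, ?_⟩
    · apply (hΦmonic.map _).sub_of_left
      have hinjR : Function.Injective (algebraMap D R) := by
        intro x y hxy
        have h6 : C (algebraMap D K x) = C (algebraMap D K y) := congrArg Subtype.val hxy
        exact IsFractionRing.injective D K (C_injective h6)
      rw [degree_map_eq_of_injective hinjR]
      exact (degree_C_le).trans_lt hΦdeg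
    · rw [eval₂_sub, eval₂_C, eval₂_map, sub_eq_zero]
      have h7 : (algebraMap R K[X]).comp (algebraMap D R) = (C : K →+* K[X]).comp (algebraMap D K) := by
        ext x
        rfl
      rw [h7]
      change _ = (Φ.map (algebraMap D K)).comp f
      rw [comp, eval₂_map]
  have hfR : f ∈ R := mem_of_integral R hX f hfint
  have h8 := (hR f).1 hfR _ hπb
  apply hbA
  have h9 : b = aeval (π • b) f - (aeval (π • b) f - b) := by abel
  rw [h9]
  exact A.sub_mem h8 hb2

variable {D₀ : Type*} [CommRing D₀] [IsDomain D₀] [IsPrincipalIdealRing D₀] {φ : D₀ →+* D}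

/-- Part one: if the ring is integrally closed then every integral element of `B` is in `A`. -/
theorem part_one [IsIntegrallyClosed D] [FiniteDimensional K B] (hB : Base φ)
    (A : Subalgebra D B) (hAint : ∀ a ∈ A, IsIntegral D a)
    (hspan : ∀ b : B, ∃ c : D, c ≠ 0 ∧ c • b ∈ A) (R : Subalgebra D K[X])
    (hR : ∀ f, f ∈ R ↔ ∀ a ∈ A, aeval a f ∈ A) [IsIntegrallyClosed R]
    (b : B) (hb : IsIntegral D b) : b ∈ A := by
  have key : ∀ c₀ : D₀, c₀ ≠ 0 → ∀ b : B, IsIntegral D b → φ c₀ • b ∈ A → b ∈ A := by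
    intro c₀
    induction c₀ using UniqueFactorizationMonoid.induction_on_prime with
    | h₁ => intro h; exact absurd rfl h
    | h₂ x hx =>
      intro _ b _ hxb
      obtain ⟨u, rfl⟩ := hx
      have h1 : b = φ (↑u⁻¹ : D₀) • (φ (u : D₀) • b) := by
        rw [smul_smul, ← map_mul, Units.inv_mul, map_one, one_smul]
      rw [h1]
      exact A.smul_mem hxb _
    | h₃ a q ha0 hq ih =>
      intro _ b hb hab
      obtain ⟨N, Q, hπ⟩ := hB.good q hq
      obtain ⟨p, hp, hqp⟩ := hB.char q hq
      have hπp : φ q ∣ (p : D) := by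
        have := map_dvd φ hqp
        simpa using this
      apply ih ha0 b hb
      by_contra hcon
      refine step_one (K := K) A hAint R hR (φ q) N Q hπ p hp hπp (φ a • b) ?_ hcon ?_
      · exact hb.smul _
      · rw [smul_smul, ← map_mul]; exact hab
  obtain ⟨c, hc, hcb⟩ := hspan b
  obtain ⟨c₀, hc₀, d, hd⟩ := hB.div c hc
  apply key c₀ hc₀ b hb
  rw [hd, mul_comm, ← smul_smul]
  exact A.smul_mem hcb _

end

end Pool.Agent.Helper97.ADDB
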