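import Mathlib

open Polynomial TensorProduct

namespace Pool.Agent.Helper97.IntKDefs

/-- For a ring homomorphism `φ : D₀ → D` (an inclusion in the uses below): over every prime element
`𝔭` of `D₀`, there is a common bound `N` for all ramification indices `v_P(𝔭)` (expressed by
`𝔭 ∉ (P D_P) ^ (N + 1)`) and all residue degrees `f = [D/P : D₀/𝔭D₀]` (expressed by
`|D/P| = |D₀/𝔭D₀| ^ f`), where `P` runs over the nonzero primes of `D` lying over `𝔭`. -/
def DoublyBounded {D₀ D : Type*} [CommRing D₀] [CommRing D] (φ : D₀ →+* D) : Prop :=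
  ∀ 𝔭 : D₀, Prime 𝔭 → ∃ N : ℕ, ∀ (P : Ideal D) [P.IsPrime], P ≠ ⊥ → φ 𝔭 ∈ P →
    (algebraMap D (Localization.AtPrime P) (φ 𝔭) ∉
      IsLocalRing.maximalIdeal (Localization.AtPrime P) ^ (N + 1)) ∧
    (∃ f : ℕ, f ≤ N ∧ Nat.card (D ⧸ P) = Nat.card (D₀ ⧸ Ideal.span {𝔭}) ^ f)

/-- ADDB-domains: almost Dedekind domains (not fields) with finite residue fields, doubly bounded
over `D₀ ≅ ℤ` (characteristic zero) or `D₀ ≅ 𝔽_p[t]` (characteristic `p`). -/
structure IsADDB (D : Type*) [CommRing D] [IsDomain D] : Prop where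
  not_isField : ¬ IsField D
  almost_dedekind : ∀ (M : Ideal D) [M.IsMaximal],
    IsDiscreteValuationRing (Localization.AtPrime M)
  finite_residue : ∀ (M : Ideal D) [M.IsMaximal], Finite (D ⧸ M)
  bounded : (∃ φ : ℤ →+* D, Function.Injective φ ∧ DoublyBounded φ) ∨
    (∃ p : ℕ, p.Prime ∧ ∃ φ : (ZMod p)[X] →+* D, Function.Injective φ ∧ DoublyBounded φ)

/-- Prüfer domains: every nonzero finitely generated ideal is invertible. -/
def IsPruferDomain (R : Type*) [CommRing R] : Prop :=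
  IsDomain R ∧ ∀ I : Ideal R, I ≠ ⊥ → I.FG →
    IsUnit (I : FractionalIdeal (nonZeroDivisors R) (FractionRing R))

/-- `Int_K(A) = {f ∈ K[X] : f(a) ∈ A for all a ∈ A}`, computed in `B = K ⊗ A`. -/
def IntK (D K A : Type*) [CommRing D] [Field K] [Algebra D K] [Ring A] [Algebra D A] :
    Subalgebra D K[X] where
  carrier := {f | ∀ a : A, ∃ b : A, aeval ((1 : K) ⊗ₜ[D] a) f = (1 : K) ⊗ₜ[D] b}
  mul_mem' := by
    intro f g hf hg a
    obtain ⟨b, hb⟩ := hf a
    obtain ⟨c, hc⟩ := hg a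
    exact ⟨b * c, by rw [map_mul, hb, hc, Algebra.TensorProduct.tmul_mul_tmul, one_mul]⟩
  add_mem' := by
    intro f g hf hg a
    obtain ⟨b, hb⟩ := hf a
    obtain ⟨c, hc⟩ := hg a
    exact ⟨b + c, by rw [map_add, hb, hc, TensorProduct.tmul_add]⟩
  algebraMap_mem' := by
    intro d a
    refine ⟨algebraMap D A d, ?_⟩
    have h1 : aeval ((1 : K) ⊗ₜ[D] a) (algebraMap D K[X] d) = algebraMap D (K ⊗[D] A) d := by
      rw [IsScalarTower.algebraMap_apply D K K[X], AlgHom.commutes,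
        ← IsScalarTower.algebraMap_apply]
    rw [h1]
    exact ((Algebra.TensorProduct.includeRight : A →ₐ[D] K ⊗[D] A).commutes d).symm

end Pool.Agent.Helper97.IntKDefs
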