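import Mathlib
import Pool.Agent.Helper97.ADDBPartOne
import Pool.Agent.Helper97.IntKDefs

open Polynomial TensorProduct

namespace Pool.Agent.Helper97.ADDBFinal

open Pool.Agent.Helper97.IntKDefs

open Pool.Agent.Helper97.ADDB

theorem prime_isMaximal {D : Type*} [CommRing D] [IsDomain D] (hD : IsADDB D) (P : Ideal D)
    (hP : P.IsPrime) (hP0 : P ≠ ⊥) : P.IsMaximal := by
  obtain ⟨M, hM, hPM⟩ := Ideal.exists_le_maximal P hP.ne_top
  have := hD.almost_dedekind M
  set R := Localization.AtPrime M
  have hdisj : Disjoint (M.primeCompl : Set D) (P : Set D) := by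
    rw [Set.disjoint_left]
    intro x hx hxP
    exact hx (hPM hxP)
  have hPR : (P.map (algebraMap D R)).IsPrime :=
    IsLocalization.isPrime_of_isPrime_disjoint M.primeCompl R P hP hdisj
  have hcomap : (P.map (algebraMap D R)).comap (algebraMap D R) = P :=
    IsLocalization.under_map_of_isPrime_disjoint M.primeCompl R hP hdisj
  have hne : P.map (algebraMap D R) ≠ ⊥ := by
    intro h
    apply hP0
    have hinj : Function.Injective (algebraMap D R) :=
      IsLocalization.injective R M.primeCompl_le_nonZeroDivisors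
    rw [Ideal.map_eq_bot_iff_of_injective hinj] at h
    exact h
  have hmax : (P.map (algebraMap D R)).IsMaximal := hPR.isMaximal hne
  have hPM' : P = M := by
    rw [← hcomap, IsLocalRing.eq_maximalIdeal hmax]
    exact IsLocalization.AtPrime.under_maximalIdeal R M
  rw [hPM']
  exact hM

theorem base_of {D : Type*} [CommRing D] [IsDomain D] (hD : IsADDB D) {D₀ : Type*} [CommRing D₀]
    [IsDomain D₀] [Infinite D₀] (φ : D₀ →+* D) (hφ : Function.Injective φ)
    (hb : DoublyBounded φ) (hchar : ∀ q : D₀, Prime q → ∃ p : ℕ, p.Prime ∧ q ∣ (p : D₀)) :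
    Base φ where
  inj := hφ
  good := by
    intro q hq
    obtain ⟨N, hN⟩ := hb q hq
    have hφq : φ q ≠ 0 := by
      rw [Ne, map_eq_zero_iff _ hφ]; exact hq.ne_zero
    refine ⟨N, (max (Nat.card (D₀ ⧸ Ideal.span {q})) 1) ^ N, ?_⟩
    have hPne : ∀ P : Ideal D, φ q ∈ P → P ≠ ⊥ := by
      rintro P hP rfl
      exact hφq hP
    refine ⟨hφq, Nat.one_le_pow _ _ (by simp), ?_, ?_, ?_, ?_⟩
    · intro P hP hqP
      exact prime_isMaximal hD P hP (hPne P hqP)
    · intro P hP _
      exact hD.almost_dedekind P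
    · intro P hP hqP
      exact (hN P (hPne P hqP) hqP).1
    · intro P hP hqP
      refine ⟨hD.finite_residue P, ?_⟩
      obtain ⟨f, hf, hcard⟩ := (hN P (hPne P hqP) hqP).2
      rw [hcard]
      calc Nat.card (D₀ ⧸ Ideal.span {q}) ^ f
          ≤ (max (Nat.card (D₀ ⧸ Ideal.span {q})) 1) ^ f :=
            Nat.pow_le_pow_left (le_max_left _ _) _
        _ ≤ (max (Nat.card (D₀ ⧸ Ideal.span {q})) 1) ^ N :=
            Nat.pow_le_pow_right (by simp) hf
  div := by
    intro c hc
    by_contra hcon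
    push Not at hcon
    set S : Submonoid D := (nonZeroDivisors D₀).map φ with hS
    have hdisj : Disjoint ((Ideal.span {c} : Ideal D) : Set D) (S : Set D) := by
      rw [Set.disjoint_left]
      rintro x hx ⟨c₀, hc₀, rfl⟩
      rw [SetLike.mem_coe, Ideal.mem_span_singleton] at hx
      exact hcon c₀ (nonZeroDivisors.ne_zero hc₀) hx
    obtain ⟨P, hP, hcP, hPS⟩ := Ideal.exists_le_prime_disjoint _ S hdisj
    have hcP' : c ∈ P := hcP (Ideal.mem_span_singleton_self c)
    have hP0 : P ≠ ⊥ := by
      rintro rfl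
      exact hc hcP'
    have hmax := prime_isMaximal hD P hP hP0
    have hfin := hD.finite_residue P
    have hinj : Function.Injective ((Ideal.Quotient.mk P).comp φ) := by
      rw [injective_iff_map_eq_zero]
      intro a ha
      rw [RingHom.comp_apply, Ideal.Quotient.eq_zero_iff_mem] at ha
      by_contra ha0
      exact Set.disjoint_left.1 hPS ha ⟨a, mem_nonZeroDivisors_of_ne_zero ha0, rfl⟩
    have := Finite.of_injective _ hinj
    exact not_finite D₀
  char := hchar

theorem core {D K A : Type*} [CommRing D] [IsDomain D] [Field K] [Algebra D K] [IsFractionRing D K]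
    [Ring A] [Algebra D A] [Module.Finite D A] (hD : IsADDB D) {D₀ : Type*} [CommRing D₀]
    [IsDomain D₀] [IsPrincipalIdealRing D₀] (φ : D₀ →+* D) (hB : Base φ)
    (hIC : IsIntegrallyClosed (IntK D K A)) : IsPruferDomain (IntK D K A) := by
  have hDIC : IsIntegrallyClosed D := by
    apply IsIntegrallyClosed.of_localization_maximal
    intro P _ hP
    have := hD.almost_dedekind P
    infer_instance
  set R := IntK D K A with hR
  set A' : Subalgebra D (K ⊗[D] A) :=
    (Algebra.TensorProduct.includeRight : A →ₐ[D] K ⊗[D] A).range with hA'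
  have hmemA' : ∀ x : K ⊗[D] A, x ∈ A' ↔ ∃ a : A, x = (1 : K) ⊗ₜ[D] a := by
    intro x
    constructor
    · rintro ⟨a, rfl⟩
      exact ⟨a, rfl⟩
    · rintro ⟨a, rfl⟩
      exact ⟨a, rfl⟩
  have hRmem : ∀ f, f ∈ R ↔ ∀ a ∈ A', aeval a f ∈ A' := by
    intro f
    constructor
    · rintro hf a ha
      obtain ⟨a, rfl⟩ := (hmemA' a).1 ha
      obtain ⟨b, hb⟩ := hf a
      exact (hmemA' _).2 ⟨b, hb⟩
    · intro hf a
      exact (hmemA' _).1 (hf _ ((hmemA' _).2 ⟨a, rfl⟩))
  have hAint : ∀ a ∈ A', IsIntegral D a := by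
    intro a ha
    obtain ⟨a, rfl⟩ := (hmemA' a).1 ha
    have h1 : IsIntegral D a := IsIntegral.of_finite D a
    exact h1.map (Algebra.TensorProduct.includeRight : A →ₐ[D] K ⊗[D] A)
  have hspan : ∀ b : K ⊗[D] A, ∃ c : D, c ≠ 0 ∧ c • b ∈ A' := by
    intro b
    induction b using TensorProduct.induction_on with
    | zero => exact ⟨1, one_ne_zero, by rw [smul_zero]; exact A'.zero_mem⟩
    | tmul k a =>
      obtain ⟨x, y, hy, hxy⟩ := IsFractionRing.div_surjective (A := D) k
      refine ⟨y, nonZeroDivisors.ne_zero hy, (hmemA' _).2 ⟨x • a, ?_⟩⟩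
      have hyK : algebraMap D K y ≠ 0 := by
        rw [Ne, map_eq_zero_iff _ (IsFractionRing.injective D K)]
        exact nonZeroDivisors.ne_zero hy
      rw [TensorProduct.smul_tmul', TensorProduct.tmul_smul, TensorProduct.smul_tmul',
        ← hxy, Algebra.smul_def, Algebra.smul_def, mul_div_cancel₀ _ hyK, mul_one]
    | add x y hx hy =>
      obtain ⟨c, hc, hcx⟩ := hx
      obtain ⟨d, hd, hdy⟩ := hy
      refine ⟨c * d, mul_ne_zero hc hd, ?_⟩
      rw [smul_add]
      apply A'.add_mem
      · rw [mul_comm, ← smul_smul]; exact A'.smul_mem hcx _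
      · rw [← smul_smul]; exact A'.smul_mem hdy _
  have hpart1 : ∀ b : K ⊗[D] A, IsIntegral D b → b ∈ A' := fun b hb =>
    part_one (K := K) hB A' hAint hspan R hRmem b hb
  -- second part
  set L := AlgebraicClosure K
  set Ω : Set L := {x | ∃ a ∈ A', aeval x (minpoly K a) = 0} with hΩdef
  have hRΩ : ∀ f, f ∈ R ↔ ∀ x ∈ Ω, IsIntegral D (aeval x f) := by
    intro f
    rw [hRmem]
    constructor
    · rintro hf x ⟨a, ha, hx⟩
      exact roots_integral a f (hAint _ (hf a ha)) x hx
    · intro hf a ha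
      apply hpart1
      have haK : IsIntegral K a := Algebra.IsIntegral.isIntegral _
      exact integral_of_roots (L := L) a haK f (fun x hx => hf x ⟨a, ha, hx⟩)
  obtain ⟨n, hn, hn2⟩ : ∃ n, Module.finrank K (K ⊗[D] A) ≤ n ∧ 2 ≤ n :=
    ⟨max (Module.finrank K (K ⊗[D] A)) 2, le_max_left _ _, le_max_right _ _⟩
  have hΩ : ∀ x ∈ Ω, ∃ E : IntermediateField K L, FiniteDimensional K E ∧
      Module.finrank K E ≤ n ∧ x ∈ E := by
    rintro x ⟨a, _, hx⟩
    exact root_field a n hn x hx
  have hX : X ∈ R := by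
    rw [hRmem]; intro a ha; rwa [aeval_X]
  refine ⟨inferInstance, ?_⟩
  rintro I hI ⟨S, rfl⟩
  classical
  set S' := S.filter (fun a => a ≠ 0) with hS'
  have hspanS : Ideal.span (S : Set R) = Ideal.span (S' : Set R) := by
    apply le_antisymm
    · rw [Ideal.span_le]
      intro x hx
      by_cases hx0 : x = 0
      · rw [hx0]; exact Ideal.zero_mem _
      · apply Ideal.subset_span
        rw [hS', Finset.coe_filter]
        exact ⟨hx, hx0⟩
    · apply Ideal.span_mono
      rw [hS', Finset.coe_filter]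
      exact fun x hx => hx.1
  have hS'ne : S'.Nonempty := by
    rw [Finset.nonempty_iff_ne_empty]
    intro h
    apply hI
    change Ideal.span (S : Set R) = ⊥
    rw [hspanS, h]
    simp
  obtain ⟨J, s, hs, hJ⟩ := fg_of_pairs
    (fun f g hf hg => pair_general hB R hX Ω hRΩ n hn2 hΩ f g hf hg) S'
    (fun a ha => by rw [hS', Finset.mem_filter] at ha; exact ha.2) hS'ne
  change IsUnit ((Ideal.span (S : Set R) : Ideal R) :
    FractionalIdeal (nonZeroDivisors R) (FractionRing R))
  rw [hspanS]
  apply isUnit_of_mul_isUnit_left (y := (J : FractionalIdeal (nonZeroDivisors R) (FractionRing R)))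
  rw [← FractionalIdeal.coeIdeal_mul, hJ, FractionalIdeal.coeIdeal_span_singleton]
  have hs' : algebraMap R (FractionRing R) s ≠ 0 := by
    rw [Ne, map_eq_zero_iff _ (IsFractionRing.injective R (FractionRing R))]
    exact hs
  exact IsUnit.of_mul_eq_one (FractionalIdeal.spanSingleton _ (algebraMap R (FractionRing R) s)⁻¹) (by
    rw [FractionalIdeal.spanSingleton_mul_spanSingleton, mul_inv_cancel₀ hs',
      FractionalIdeal.spanSingleton_one])

/-- For an ADDB-domain `D` with quotient field `K` and a `D`-algebra `A` which is finitely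
generated as a `D`-module: if `Int_K(A)` is integrally closed then it is a Prüfer domain. -/
theorem main (D K A : Type*) [CommRing D] [IsDomain D] [Field K] [Algebra D K]
    [IsFractionRing D K] [Ring A] [Algebra D A] [Module.Finite D A] (hD : IsADDB D)
    (hIC : IsIntegrallyClosed (IntK D K A)) : IsPruferDomain (IntK D K A) := by
  rcases hD.bounded with ⟨φ, hφ, hb⟩ | ⟨p, hp, φ, hφ, hb⟩
  · refine core hD φ (base_of hD φ hφ hb ?_) hIC
    intro q hq
    refine ⟨q.natAbs, Int.prime_iff_natAbs_prime.1 hq, ?_⟩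
    exact Int.dvd_natAbs.2 dvd_rfl
  · have : Fact p.Prime := ⟨hp⟩
    refine core hD φ (base_of hD φ hφ hb ?_) hIC
    intro q _
    refine ⟨p, hp, ?_⟩
    have h0 : ((p : ℕ) : (ZMod p)[X]) = 0 := CharP.cast_eq_zero _ _
    rw [h0]
    exact dvd_zero q

end Pool.Agent.Helper97.ADDBFinal
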