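import Mathlib

namespace Pool.Agent.Helper97.Affine

open Function

/-- A nonempty set closed under the ternary operation has cardinality dividing the group order. -/
theorem card_dvd_of_ternary {G : Type*} [Group G] [Finite G] (S : Set G) (hne : S.Nonempty)
    (hS : ∀ x ∈ S, ∀ y ∈ S, ∀ z ∈ S, x * y⁻¹ * z ∈ S) : Nat.card S ∣ Nat.card G := by
  obtain ⟨s, hs⟩ := hne
  let M : Subgroup G :=
    { carrier := {x | s * x ∈ S}
      one_mem' := by simpa using hs
      mul_mem' := by
        intro x y hx hy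
        have := hS _ hx _ hs _ hy
        simpa [mul_assoc] using this
      inv_mem' := by
        intro x hx
        have := hS _ hs _ hx _ hs
        simpa [mul_assoc] using this }
  have e : M ≃ S :=
    { toFun := fun x => ⟨s * x.1, x.2⟩
      invFun := fun y => ⟨s⁻¹ * y.1, by
        change s * (s⁻¹ * y.1) ∈ S
        simp⟩
      left_inv := fun x => by simp
      right_inv := fun y => by simp }
  rw [← Nat.card_congr e]
  exact M.card_subgroup_dvd_card

/-- Fixed points of coprime maps on cosets. -/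
theorem exists_fixed {G : Type*} [Group G] [Finite G] {p : ℕ} [hp : Fact p.Prime]
    (hG : IsPGroup p G) (f : G → G)
    (hf : ∀ x y z, f (x * y⁻¹ * z) = f x * (f y)⁻¹ * f z) :
    ∀ (m : ℕ), ¬ p ∣ m → ∀ (S : Set G), S.Nonempty →
      (∀ x ∈ S, ∀ y ∈ S, ∀ z ∈ S, x * y⁻¹ * z ∈ S) → Set.MapsTo f S S →
      (∀ x ∈ S, f^[m] x = x) → ∃ x ∈ S, f x = x := by
  intro m
  induction m using Nat.strong_induction_on with
  | _ m ih =>
  intro hpm S hne hS hfS hm
  have hm0 : m ≠ 0 := by rintro rfl; exact hpm (dvd_zero p)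
  rcases Nat.lt_or_ge 1 m with h1 | h1
  swap
  · have : m = 1 := by omega
    subst this
    obtain ⟨s, hs⟩ := hne
    exact ⟨s, hs, by simpa using hm s hs⟩
  obtain ⟨r, hr, hrm⟩ := Nat.exists_prime_and_dvd (by omega : m ≠ 1)
  obtain ⟨m', rfl⟩ := hrm
  have hm' : m' < r * m' := by
    have : 0 < m' := Nat.pos_of_ne_zero (by rintro rfl; simp at hm0)
    nlinarith [hr.two_le]
  have hpm' : ¬ p ∣ m' := fun h => hpm (h.mul_left r)
  have hrp : r ≠ p := by
    rintro rfl
    exact hpm (dvd_mul_right _ _)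
  -- iterates of f are affine too
  have hit : ∀ k x y z, f^[k] (x * y⁻¹ * z) = f^[k] x * (f^[k] y)⁻¹ * f^[k] z := by
    intro k
    induction k with
    | zero => intro x y z; simp
    | succ k ihk =>
      intro x y z
      rw [iterate_succ_apply', iterate_succ_apply', iterate_succ_apply', iterate_succ_apply', ihk, hf]
  have hgS : Set.MapsTo (f^[m']) S S := hfS.iterate m'
  let g : S → S := hgS.restrict _ _ _
  have hgr : ∀ x : S, g^[r] x = x := by
    intro x
    apply Subtype.ext
    have h2 : ∀ k, ∀ x : S, ((g^[k] x : S) : G) = (f^[m'])^[k] x := by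
      intro k
      induction k with
      | zero => intro x; simp
      | succ k ihk =>
        intro x
        rw [iterate_succ_apply', iterate_succ_apply', ← ihk]
        rfl
    rw [h2, ← iterate_mul, mul_comm m' r]
    exact hm x x.2
  classical
  have : Fintype S := Fintype.ofFinite S
  have hr' : Fact r.Prime := ⟨hr⟩
  have hcard : ¬ r ∣ Fintype.card S := by
    intro h
    rw [← Nat.card_eq_fintype_card] at h
    obtain ⟨n, hn⟩ := (IsPGroup.iff_card).1 hG
    have := (h.trans (card_dvd_of_ternary S hne hS))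
    rw [hn] at this
    exact hrp ((Nat.prime_dvd_prime_iff_eq hr hp.out).1 (hr.dvd_of_dvd_pow this))
  let σ : Equiv.Perm S := ⟨g, g^[r - 1], fun x => by
      have := iterate_succ_apply g (r - 1) x
      rw [Nat.succ_eq_add_one, Nat.sub_add_cancel hr.one_le, hgr x] at this
      exact this.symm,
      fun x => by
      have := iterate_succ_apply' g (r - 1) x
      rw [Nat.succ_eq_add_one, Nat.sub_add_cancel hr.one_le, hgr x] at this
      exact this.symm⟩
  have hσ : σ ^ r ^ 1 = 1 := by
    ext x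
    rw [pow_one]
    have h3 : ∀ k, ∀ x, (σ ^ k) x = g^[k] x := by
      intro k
      induction k with
      | zero => intro x; simp
      | succ k ihk =>
        intro x
        rw [pow_succ', Equiv.Perm.mul_apply, ihk, iterate_succ_apply']
        rfl
    rw [h3, hgr]
    rfl
  obtain ⟨a, ha⟩ := Equiv.Perm.exists_fixed_point_of_prime hcard hσ
  have ha' : f^[m'] a = a := congrArg Subtype.val ha
  let S' : Set G := {x | x ∈ S ∧ f^[m'] x = x}
  obtain ⟨x, hx, hfx⟩ := ih m' hm' hpm' S' ⟨a, a.2, ha'⟩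
    (fun x hx y hy z hz => ⟨hS x hx.1 y hy.1 z hz.1, by rw [hit, hx.2, hy.2, hz.2]⟩)
    (fun x hx => ⟨hfS hx.1, by
      rw [← iterate_succ_apply f m' x, iterate_succ_apply', hx.2]⟩)
    (fun x hx => hx.2)
  exact ⟨x, hx.1, hfx⟩


/-- Regular points for coprime cyclic groups of automorphisms, avoiding a proper invariant
subgroup. -/
theorem exists_regular {G : Type*} [Group G] [Finite G] {p : ℕ} [hp : Fact p.Prime]
    (hG : IsPGroup p G) :
    ∀ (n : ℕ) (N : Subgroup G), Nat.card N = n → ∀ (β : G ≃* G) (m : ℕ), ¬ p ∣ m → β^m = 1 →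
      (∀ x, x ∈ N → β x ∈ N) → ∀ H : Subgroup G, H < N → (∀ x, x ∈ H → β x ∈ H) →
      ∃ x ∈ N, x ∉ H ∧ ∀ k : ℕ, (β^k) x = x → ∀ y ∈ N, (β^k) y = y := by
  classical
  intro n
  induction n using Nat.strong_induction_on with
  | _ n ih =>
  intro N hNn β m hpm hβm hβN H hHN hβH
  have hm0 : 0 < m := Nat.pos_of_ne_zero (by rintro rfl; exact hpm (dvd_zero p))
  -- maximal invariant proper subgroup
  obtain ⟨M, hHM, hM⟩ : ∃ M : Subgroup G, H ≤ M ∧
      Maximal (fun M : Subgroup G => M < N ∧ ∀ x, x ∈ M → β x ∈ M) M := by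
    have hfin : {M : Subgroup G | M < N ∧ ∀ x, x ∈ M → β x ∈ M}.Finite := Set.toFinite _
    obtain ⟨M, hHM, hM⟩ := hfin.exists_le_maximal (a := H) ⟨hHN, hβH⟩
    exact ⟨M, hHM, hM⟩
  have hMN : M < N := hM.prop.1
  have hβM : ∀ x, x ∈ M → β x ∈ M := hM.prop.2
  have hMmax : ∀ M' : Subgroup G, M ≤ M' → M' ≤ N → (∀ x, x ∈ M' → β x ∈ M') →
      ∀ g ∈ M', g ∉ M → M' = N := by
    intro M' h1 h2 h3 g hg hgM
    by_contra hne
    have h4 : M' < N := lt_of_le_of_ne h2 hne
    exact hgM (hM.le_of_ge ⟨h4, h3⟩ h1 hg)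
  -- powers preserve
  have hpow : ∀ (K : Subgroup G), (∀ x, x ∈ K → β x ∈ K) → ∀ k x, x ∈ K → (β^k) x ∈ K := by
    intro K hK k
    induction k with
    | zero => intro x hx; simpa using hx
    | succ k ihk =>
      intro x hx
      rw [pow_succ', MulAut.mul_apply]
      exact hK _ (ihk x hx)
  have hinv : ∀ (K : Subgroup G), (∀ x, x ∈ K → β x ∈ K) → ∀ x, β x ∈ K → x ∈ K := by
    intro K hK x hx
    have h5 := hpow K hK (m-1) _ hx
    have h6 : (β^(m-1)) (β x) = (β^m) x := by
      conv_rhs => rw [← Nat.sub_add_cancel hm0, pow_succ, MulAut.mul_apply]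
    rw [h6, hβm] at h5
    simpa using h5
  -- M is normalised by N
  have hnorm : ∀ g ∈ N, ∀ x, x ∈ M ↔ g * x * g⁻¹ ∈ M := by
    have hnc : NormalizerCondition N := by
      have : Group.IsNilpotent N := (hG.to_subgroup N).isNilpotent
      exact Group.normalizerCondition_of_isNilpotent
    have h7 : M.subgroupOf N < ⊤ := by
      rw [lt_top_iff_ne_top]
      intro h
      rw [Subgroup.subgroupOf_eq_top] at h
      exact absurd h (not_le_of_gt hMN)
    have h8 := hnc _ h7
    obtain ⟨g, hg1, hg2⟩ := SetLike.exists_of_lt h8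
    let M' : Subgroup G := (Subgroup.normalizer (M : Set G)) ⊓ N
    have hM' : M' = N := by
      refine hMmax M' ?_ inf_le_right ?_ g.1 ?_ ?_
      · exact le_inf Subgroup.le_normalizer hMN.le
      · intro x hx
        rw [Subgroup.mem_inf] at hx ⊢
        obtain ⟨hx1, hx2⟩ := hx
        refine ⟨?_, hβN x hx2⟩
        rw [Subgroup.mem_normalizer_iff] at hx1 ⊢
        intro h
        obtain ⟨h', rfl⟩ := β.surjective h
        rw [← map_inv, ← map_mul, ← map_mul]
        constructor
        · intro hh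
          exact hβM _ ((hx1 h').1 (hinv M hβM _ hh))
        · intro hh
          exact hβM _ ((hx1 h').2 (hinv M hβM _ hh))
      · rw [Subgroup.mem_inf]
        refine ⟨?_, g.2⟩
        rw [Subgroup.mem_normalizer_iff]
        rw [Subgroup.mem_normalizer_iff] at hg1
        intro h
        constructor
        · intro hh
          have := (hg1 ⟨h, hMN.le hh⟩).1 (by rw [Subgroup.mem_subgroupOf]; exact hh)
          rw [Subgroup.mem_subgroupOf] at this
          exact this
        · intro hh
          have h9 : h ∈ N := by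
            have h10 := N.mul_mem (N.mul_mem (N.inv_mem g.2) (hMN.le hh)) g.2
            have h11 : (g : G)⁻¹ * ((g : G) * h * (g : G)⁻¹) * g = h := by group
            rwa [h11] at h10
          have := (hg1 ⟨h, h9⟩).2 (by rw [Subgroup.mem_subgroupOf]; exact hh)
          rw [Subgroup.mem_subgroupOf] at this
          exact this
      · intro h
        exact hg2 (by rw [Subgroup.mem_subgroupOf]; exact h)
    intro g hg x
    have : g ∈ M' := hM' ▸ hg
    exact (Subgroup.mem_normalizer_iff.1 this.1 x)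
  -- trivial action on the quotient
  have hirr : ∀ k : ℕ, ∀ x ∈ N, x ∉ M → x⁻¹ * (β^k) x ∈ M → ∀ y ∈ N, y⁻¹ * (β^k) y ∈ M := by
    intro k x hx hxM hxk
    let F : Subgroup G :=
      { carrier := {y | y ∈ N ∧ y⁻¹ * (β^k) y ∈ M}
        one_mem' := ⟨N.one_mem, by simp⟩
        mul_mem' := by
          rintro y z ⟨hy1, hy2⟩ ⟨hz1, hz2⟩
          refine ⟨N.mul_mem hy1 hz1, ?_⟩
          have h12 := (hnorm z⁻¹ (N.inv_mem hz1) _).1 hy2
          have h13 := M.mul_mem h12 hz2
          have h14 : (y * z)⁻¹ * (β^k) (y * z)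
              = z⁻¹ * (y⁻¹ * (β^k) y) * z⁻¹⁻¹ * (z⁻¹ * (β^k) z) := by
            rw [map_mul]; group
          rw [h14]; exact h13
        inv_mem' := by
          rintro y ⟨hy1, hy2⟩
          refine ⟨N.inv_mem hy1, ?_⟩
          have h12 := (hnorm y hy1 _).1 (M.inv_mem hy2)
          have h14 : y⁻¹⁻¹ * (β^k) y⁻¹ = y * (y⁻¹ * (β^k) y)⁻¹ * y⁻¹ := by
            rw [map_inv]; group
          rw [h14]; exact h12 }
    have hF : F = N := by
      refine hMmax F ?_ (fun y hy => hy.1) ?_ x ⟨hx, hxk⟩ hxM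
      · intro y hy
        exact ⟨hMN.le hy, M.mul_mem (M.inv_mem hy) (hpow M hβM k y hy)⟩
      · rintro y ⟨hy1, hy2⟩
        refine ⟨hβN y hy1, ?_⟩
        have h15 : (β y)⁻¹ * (β^k) (β y) = β (y⁻¹ * (β^k) y) := by
          rw [map_mul, map_inv]
          congr 1
          rw [← MulAut.mul_apply, ← MulAut.mul_apply, ← pow_succ, ← pow_succ']
        rw [h15]
        exact hβM _ hy2
    intro y hy
    rw [← hF] at hy
    exact hy.2
  -- the index j
  let Dp : ℕ → Prop := fun k => 0 < k ∧ ∀ y ∈ N, y⁻¹ * (β^k) y ∈ M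
  have hDm : ∃ k, Dp k := ⟨m, hm0, fun y hy => by simp [hβm]⟩
  let j := Nat.find hDm
  have hj0 : 0 < j := (Nat.find_spec hDm).1
  have hj : ∀ y ∈ N, y⁻¹ * (β^j) y ∈ M := (Nat.find_spec hDm).2
  have hjmul : ∀ l, ∀ y ∈ N, y⁻¹ * (β^(j*l)) y ∈ M := by
    intro l
    induction l with
    | zero => intro y hy; simp
    | succ l ihl =>
      intro y hy
      have h16 : y⁻¹ * (β^(j*(l+1))) y
          = (y⁻¹ * (β^j) y) * (((β^j) y)⁻¹ * (β^(j*l)) ((β^j) y)) := by
        have : (β^(j*(l+1))) y = (β^(j*l)) ((β^j) y) := by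
          rw [← MulAut.mul_apply, ← pow_add]; rfl
        rw [this]; group
      rw [h16]
      exact M.mul_mem (hj y hy) (ihl _ (hpow N hβN j y hy))
  have hjdvd : ∀ k, (∀ y ∈ N, y⁻¹ * (β^k) y ∈ M) → j ∣ k := by
    intro k hk
    by_contra hnd
    have hmod : 0 < k % j := Nat.pos_of_ne_zero (fun h => hnd (Nat.dvd_of_mod_eq_zero h))
    have hlt : k % j < j := Nat.mod_lt _ hj0
    refine Nat.find_min hDm hlt ⟨hmod, ?_⟩
    intro y hy
    have h17 : y⁻¹ * (β^k) y = (y⁻¹ * (β^(k % j)) y) *
        (((β^(k%j)) y)⁻¹ * (β^(j*(k/j))) ((β^(k%j)) y)) := by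
      have : (β^k) y = (β^(j*(k/j))) ((β^(k%j)) y) := by
        rw [← MulAut.mul_apply, ← pow_add, Nat.div_add_mod]
      rw [this]; group
    have h18 := hk y hy
    rw [h17] at h18
    have h19 := hjmul (k/j) _ (hpow N hβN (k%j) y hy)
    exact (M.mul_mem_cancel_right h19).1 h18
  -- γ
  have hγm : (β^j)^m = 1 := by rw [← pow_mul, mul_comm, pow_mul, hβm, one_pow]
  -- fixed points in cosets
  have hfix : ∀ y ∈ N, ∃ z ∈ N, y⁻¹ * z ∈ M ∧ (β^j) z = z := by
    intro y hy
    let S : Set G := {z | y⁻¹ * z ∈ M}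
    have hSN : ∀ z ∈ S, z ∈ N := by
      intro z hz
      have := N.mul_mem hy (hMN.le hz)
      simpa using this
    obtain ⟨z, hz, hfz⟩ := exists_fixed hG (fun g => (β^j) g)
      (fun x y z => by simp) m hpm S ⟨y, by simp [S]⟩
      (by
        intro a ha b hb c hc
        have h20 := M.mul_mem (M.mul_mem ha (M.inv_mem hb)) hc
        have h21 : y⁻¹ * (a * b⁻¹ * c) = y⁻¹ * a * (y⁻¹ * b)⁻¹ * (y⁻¹ * c) := by group
        change y⁻¹ * (a * b⁻¹ * c) ∈ M
        rw [h21]; exact h20)
      (by
        intro a ha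
        have h22 := hj a (hSN a ha)
        have h23 := M.mul_mem ha h22
        have h24 : y⁻¹ * (β^j) a = y⁻¹ * a * (a⁻¹ * (β^j) a) := by group
        change y⁻¹ * (β^j) a ∈ M
        rw [h24]; exact h23)
      (by
        intro a ha
        have h25 : ∀ k, (fun g => (β^j) g)^[k] a = ((β^j)^k) a := by
          intro k
          induction k with
          | zero => simp
          | succ k ihk => rw [iterate_succ_apply', ihk, pow_succ' (β^j) k]; rfl
        rw [h25, hγm]; rfl)
    exact ⟨z, hSN z hz, hz, hfz⟩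
  obtain ⟨x0, hx0N, hx0M⟩ := SetLike.exists_of_lt hMN
  obtain ⟨x1, hx1N, hx1M, hx1⟩ := hfix x0 hx0N
  have hx1M' : x1 ∉ M := by
    intro h
    have h26 := M.mul_mem h (M.inv_mem hx1M)
    have h27 : x1 * (x0⁻¹ * x1)⁻¹ = x0 := by group
    rw [h27] at h26
    exact hx0M h26
  -- induction
  obtain ⟨u, huM, hu⟩ : ∃ u ∈ M, ∀ k : ℕ, ((β^j)^k) u = u → ∀ y ∈ M, ((β^j)^k) y = y := by
    rcases eq_or_ne M ⊥ with hbot | hbot
    · refine ⟨1, M.one_mem, fun k _ y hy => ?_⟩
      rw [hbot, Subgroup.mem_bot] at hy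
      rw [hy, map_one]
    · have hcardlt : Nat.card M < n := by
        rw [← hNn]
        exact Set.Finite.card_lt_card (Set.toFinite _) hMN
      obtain ⟨u, hu1, _, hu2⟩ := ih _ hcardlt M rfl (β^j) m hpm hγm (fun x hx => hpow M hβM j x hx)
        ⊥ (bot_lt_iff_ne_bot.2 hbot) (fun x hx => by
          rw [Subgroup.mem_bot] at hx ⊢
          rw [hx, map_one])
      exact ⟨u, hu1, hu2⟩
  refine ⟨x1 * u, N.mul_mem hx1N (hMN.le huM), ?_, ?_⟩
  · intro h
    exact hx1M' ((M.mul_mem_cancel_right huM).1 (hHM h))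
  · intro k hk y hy
    have hxN : x1 * u ∈ N := N.mul_mem hx1N (hMN.le huM)
    have hxM : x1 * u ∉ M := fun h => hx1M' ((M.mul_mem_cancel_right huM).1 h)
    have hkD := hirr k (x1 * u) hxN hxM (by rw [hk]; simp)
    obtain ⟨l, rfl⟩ := hjdvd k hkD
    rw [pow_mul] at hk ⊢
    have hfl : ∀ z, (β^j) z = z → ∀ l, ((β^j)^l) z = z := by
      intro z hz l
      induction l with
      | zero => simp
      | succ l ihl => rw [pow_succ' (β^j) l, MulAut.mul_apply, ihl, hz]
    have hul : ((β^j)^l) u = u := by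
      rw [map_mul, hfl x1 hx1 l] at hk
      exact mul_left_cancel hk
    have hMl := hu l hul
    obtain ⟨z, hzN, hzM, hz⟩ := hfix y hy
    have h28 : y = z * (y⁻¹ * z)⁻¹ := by group
    rw [h28, map_mul, hfl z hz l, hMl _ (M.inv_mem hzM)]

/-- Regular points for affine maps of finite groups of prime power order. -/
theorem regular_pgroup {G : Type*} [Group G] [Finite G] {p : ℕ} [hp : Fact p.Prime]
    (hG : IsPGroup p G) (A : Equiv.Perm G)
    (hA : ∀ x y z, A (x * y⁻¹ * z) = A x * (A y)⁻¹ * A z) :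
    ∃ x : G, ∀ k : ℕ, (A^k) x = x → A^k = 1 := by
  classical
  have hpow : ∀ k x y z, (A^k) (x * y⁻¹ * z) = (A^k) x * ((A^k) y)⁻¹ * (A^k) z := by
    intro k
    induction k with
    | zero => intro x y z; simp
    | succ k ih => intro x y z; simp only [pow_succ', Equiv.Perm.mul_apply]; rw [ih, hA]
  have hiter : ∀ k, ∀ (B : Equiv.Perm G) x, (⇑B)^[k] x = (B^k) x := by
    intro k B x
    rw [← Equiv.Perm.coe_pow]
  -- order
  have hn0 : orderOf A ≠ 0 := (orderOf_pos A).ne'
  obtain ⟨a, m, hpm, hn⟩ := Nat.exists_eq_pow_mul_and_not_dvd hn0 p hp.out.ne_one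
  have hm0 : m ≠ 0 := by rintro rfl; exact hpm (dvd_zero p)
  obtain ⟨C, hC⟩ : ∃ C : Equiv.Perm G, C = A^(p^a) := ⟨_, rfl⟩
  have hCm : C^m = 1 := by rw [hC, ← pow_mul, ← hn, pow_orderOf_eq_one]
  have hCaff : ∀ x y z, C (x * y⁻¹ * z) = C x * (C y)⁻¹ * C z := by rw [hC]; exact hpow _
  -- the coset and point
  obtain ⟨y, H, hH, hβy, hHne, hBH⟩ : ∃ (y : G) (H : Subgroup G),
      (∀ h, h ∈ H → y⁻¹ * C (y * h) ∈ H) ∧ C y = y ∧
      (Nontrivial G → H < ⊤) ∧
      (a ≠ 0 → ∀ x, (A^(orderOf A / p)) x = x → y⁻¹ * x ∈ H) := by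
    by_cases hcase : a ≠ 0 ∧ ∃ x, (A^(orderOf A / p)) x = x
    · obtain ⟨ha, x0, hx0⟩ := hcase
      set B := A^(orderOf A / p) with hB
      have hcomm : ∀ x, B (C x) = C (B x) := by
        intro x
        rw [hB, hC, ← Equiv.Perm.mul_apply, ← Equiv.Perm.mul_apply, ← pow_add, ← pow_add, add_comm]
      obtain ⟨y, hyB, hy⟩ := exists_fixed hG C hCaff m hpm {x | B x = x} ⟨x0, hx0⟩
        (fun x hx y hy z hz => by
          change B _ = _
          rw [hB, hpow, ← hB, show B x = x from hx, show B y = y from hy, show B z = z from hz])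
        (fun x hx => by
          change B _ = _
          rw [hcomm, show B x = x from hx])
        (fun x hx => by
          rw [hiter, hCm]; rfl)
      let H : Subgroup G :=
        { carrier := {h | B (y * h) = y * h}
          one_mem' := by
            change B (y * 1) = y * 1
            rw [mul_one]; exact hyB
          mul_mem' := by
            intro g h hg hh
            have h1 : y * (g * h) = (y * g) * y⁻¹ * (y * h) := by group
            change B (y * (g * h)) = y * (g * h)
            rw [h1, hB, hpow, ← hB, show B (y * g) = _ from hg, show B (y * h) = _ from hh,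
              show B y = y from hyB]
          inv_mem' := by
            intro g hg
            have h1 : y * g⁻¹ = y * (y * g)⁻¹ * y := by group
            change B (y * g⁻¹) = y * g⁻¹
            rw [h1, hB, hpow, ← hB, show B (y * g) = _ from hg, show B y = y from hyB] }
      refine ⟨y, H, ?_, hy, ?_, ?_⟩
      · intro h hh
        change B (y * (y⁻¹ * _)) = y * (y⁻¹ * _)
        rw [mul_inv_cancel_left, hcomm, show B (y * h) = _ from hh]
      · intro _
        rw [lt_top_iff_ne_top]
        intro htop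
        have hB1 : B = 1 := by
          ext x
          have : y⁻¹ * x ∈ H := htop ▸ Subgroup.mem_top _
          have h2 : B (y * (y⁻¹ * x)) = y * (y⁻¹ * x) := this
          rw [mul_inv_cancel_left] at h2
          simpa using h2
        have hdvd := orderOf_dvd_of_pow_eq_one hB1
        have hpd : p ∣ orderOf A := by
          rw [hn]
          exact (dvd_pow_self p ha).mul_right m
        have hlt : orderOf A / p < orderOf A := Nat.div_lt_self (orderOf_pos A) hp.out.one_lt
        have hpos : 0 < orderOf A / p := Nat.div_pos (Nat.le_of_dvd (orderOf_pos A) hpd) hp.out.pos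
        exact absurd (Nat.le_of_dvd hpos hdvd) (not_le_of_gt hlt)
      · intro _ x hx
        change B (y * (y⁻¹ * x)) = y * (y⁻¹ * x)
        rw [mul_inv_cancel_left]; exact hx
    · obtain ⟨y, _, hy⟩ := exists_fixed hG C hCaff m hpm Set.univ Set.univ_nonempty
        (fun _ _ _ _ _ _ => Set.mem_univ _) (fun _ _ => Set.mem_univ _)
        (fun x _ => by rw [hiter, hCm]; rfl)
      refine ⟨y, ⊥, ?_, hy, ?_, ?_⟩
      · intro h hh
        rw [Subgroup.mem_bot] at hh ⊢
        rw [hh, mul_one, hy, inv_mul_cancel]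
      · intro _
        exact bot_lt_top
      · intro ha x hx
        exact absurd ⟨ha, x, hx⟩ hcase
  rcases subsingleton_or_nontrivial G with hsub | hnt
  · refine ⟨1, fun k _ => ?_⟩
    ext x
    exact Subsingleton.elim _ _
  -- the automorphism
  have hAut : ∀ u v, y⁻¹ * C (y * (u * v)) =
      (y⁻¹ * C (y * u)) * (y⁻¹ * C (y * v)) := by
    intro u v
    have h1 : y * (u * v) = (y * u) * y⁻¹ * (y * v) := by group
    rw [h1, hCaff, hβy]
    group
  let β : G ≃* G :=
    { toFun := fun h => y⁻¹ * C (y * h)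
      invFun := fun h => y⁻¹ * C.symm (y * h)
      left_inv := fun h => by
        change y⁻¹ * C.symm (y * (y⁻¹ * C (y * h))) = h
        rw [mul_inv_cancel_left, Equiv.symm_apply_apply, inv_mul_cancel_left]
      right_inv := fun h => by
        change y⁻¹ * C (y * (y⁻¹ * C.symm (y * h))) = h
        rw [mul_inv_cancel_left, Equiv.apply_symm_apply, inv_mul_cancel_left]
      map_mul' := hAut }
  have hβk : ∀ k h, (β^k) h = y⁻¹ * (C^k) (y * h) := by
    intro k
    induction k with
    | zero => intro h; simp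
    | succ k ih =>
      intro h
      rw [pow_succ', MulAut.mul_apply, ih, pow_succ' C, Equiv.Perm.mul_apply]
      change y⁻¹ * C (y * (y⁻¹ * _)) = _
      rw [mul_inv_cancel_left]
  have hβm : β^m = 1 := by
    ext h
    rw [hβk, hCm]
    simp
  obtain ⟨x', _, hx'H, hx'⟩ := exists_regular hG _ ⊤ rfl β m hpm hβm (fun _ _ => Subgroup.mem_top _)
    H (hHne hnt) hH
  refine ⟨y * x', fun k hk => ?_⟩
  -- it suffices that orderOf A divides k
  rw [← orderOf_dvd_iff_pow_eq_one]
  -- minimal period argument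
  have hmp : Function.minimalPeriod A (y * x') ∣ k := by
    apply Function.IsPeriodicPt.minimalPeriod_dvd
    change (⇑A)^[k] _ = _
    rw [hiter]; exact hk
  refine dvd_trans ?_ hmp
  set d := Function.minimalPeriod A (y * x') with hd
  have hdfix : (A^d) (y * x') = y * x' := by
    rw [← hiter]; exact Function.iterate_minimalPeriod
  have hdn : d ∣ orderOf A := by
    apply Function.IsPeriodicPt.minimalPeriod_dvd
    change (⇑A)^[_] _ = _
    rw [hiter, pow_orderOf_eq_one]; rfl
  by_contra hnd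
  obtain ⟨e, he⟩ := hdn
  have he1 : e ≠ 1 := by
    rintro rfl
    rw [mul_one] at he
    exact hnd (he ▸ dvd_rfl)
  obtain ⟨r, hr, e', rfl⟩ := Nat.exists_prime_and_dvd he1
  have hfix : ∀ l, (A^(d*l)) (y * x') = y * x' := by
    intro l
    induction l with
    | zero => simp
    | succ l ih => rw [mul_add, mul_one, pow_add, Equiv.Perm.mul_apply, hdfix, ih]
  have hde : orderOf A / r = d * e' := by
    rw [he, show d * (r * e') = r * (d * e') by ring, Nat.mul_div_cancel_left _ hr.pos]
  by_cases hrp : r = p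
  · subst hrp
    have ha : a ≠ 0 := by
      rintro rfl
      rw [pow_zero, one_mul] at hn
      apply hpm
      rw [← hn, he]
      exact (dvd_mul_right r e').mul_left d
    have h3 := hBH ha (y * x') (by rw [hde]; exact hfix e')
    rw [inv_mul_cancel_left] at h3
    exact hx'H h3
  · -- r divides m
    have hrm : r ∣ m := by
      have h4 : r ∣ p^a * m := by rw [← hn, he]; exact (dvd_mul_right r e').mul_left d
      rcases hr.dvd_mul.1 h4 with h5 | h5
      · exact absurd ((Nat.prime_dvd_prime_iff_eq hr hp.out).1 (hr.dvd_of_dvd_pow h5)) hrp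
      · exact h5
    obtain ⟨m', rfl⟩ := hrm
    have hde' : d * e' = p^a * m' := by
      rw [← hde, hn, show p^a * (r * m') = r * (p^a * m') by ring, Nat.mul_div_cancel_left _ hr.pos]
    have h6 : (β^m') x' = x' := by
      rw [hβk, hC, ← pow_mul, ← hde', hfix, inv_mul_cancel_left]
    have h7 := hx' m' h6
    have h8 : A^(orderOf A / r) = 1 := by
      ext x
      have h9 := h7 (y⁻¹ * x) (Subgroup.mem_top _)
      rw [hβk, hC, ← pow_mul, ← hde', ← hde, mul_inv_cancel_left] at h9
      simpa using mul_left_cancel h9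
    have hdvd := orderOf_dvd_of_pow_eq_one h8
    have hrd : r ∣ orderOf A := by rw [he]; exact (dvd_mul_right r e').mul_left d
    have hlt : orderOf A / r < orderOf A := Nat.div_lt_self (orderOf_pos A) hr.one_lt
    have hpos : 0 < orderOf A / r := Nat.div_pos (Nat.le_of_dvd (orderOf_pos A) hrd) hr.pos
    exact absurd (Nat.le_of_dvd hpos hdvd) (not_le_of_gt hlt)

/-- Regular points for affine maps of direct products of groups of coprime orders. -/
theorem regular_pi {ι : Type*} [Finite ι] (K : ι → Type*) [∀ i, Group (K i)] [∀ i, Finite (K i)]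
    (hcop : Pairwise fun i j => Nat.Coprime (Nat.card (K i)) (Nat.card (K j)))
    (hreg : ∀ i, ∀ A : Equiv.Perm (K i), (∀ x y z, A (x * y⁻¹ * z) = A x * (A y)⁻¹ * A z) →
      ∃ x : K i, ∀ k : ℕ, (A^k) x = x → A^k = 1)
    (A : Equiv.Perm (∀ i, K i)) (hA : ∀ x y z, A (x * y⁻¹ * z) = A x * (A y)⁻¹ * A z) :
    ∃ x : (∀ i, K i), ∀ k : ℕ, (A^k) x = x → A^k = 1 := by
  classical
  have : Fintype ι := Fintype.ofFinite ι
  have hα : ∀ x y, (A 1)⁻¹ * A (x * y) = ((A 1)⁻¹ * A x) * ((A 1)⁻¹ * A y) := by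
    intro x y
    have h1 : x * y = x * 1⁻¹ * y := by group
    rw [h1, hA]
    group
  let α : (∀ i, K i) →* (∀ i, K i) := MonoidHom.mk' (fun x => (A 1)⁻¹ * A x) hα
  have hker : ∀ i (z : ∀ i, K i), z i = 1 → (α z) i = 1 := by
    intro i z hz
    let N := ∏ j ∈ Finset.univ.erase i, Nat.card (K j)
    have hzN : z ^ N = 1 := by
      funext j
      rw [Pi.pow_apply, Pi.one_apply]
      by_cases hji : j = i
      · subst hji
        rw [hz, one_pow]
      · have h2 : Nat.card (K j) ∣ N :=
          Finset.dvd_prod_of_mem _ (Finset.mem_erase.2 ⟨hji, Finset.mem_univ _⟩)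
        obtain ⟨c, hc⟩ := h2
        rw [hc, pow_mul, pow_card_eq_one', one_pow]
    have h3 : ((α z) i) ^ N = 1 := by
      rw [← Pi.pow_apply, ← map_pow, hzN, map_one, Pi.one_apply]
    have hcopN : Nat.Coprime N (Nat.card (K i)) := by
      apply Nat.Coprime.prod_left
      intro j hj
      exact hcop (Finset.ne_of_mem_erase hj)
    have h4 : orderOf ((α z) i) ∣ N := orderOf_dvd_of_pow_eq_one h3
    have h5 : orderOf ((α z) i) ∣ Nat.card (K i) := orderOf_dvd_natCard _
    have h6 := Nat.dvd_gcd h4 h5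
    rw [hcopN] at h6
    exact orderOf_eq_one_iff.1 (Nat.dvd_one.1 h6)
  have hAx : ∀ x, A x = A 1 * α x := by
    intro x
    change A x = A 1 * ((A 1)⁻¹ * A x)
    rw [mul_inv_cancel_left]
  have hdep : ∀ i (x y : ∀ i, K i), x i = y i → (A x) i = (A y) i := by
    intro i x y hxy
    have h7 : (α (x⁻¹ * y)) i = 1 := hker i _ (by simp [hxy])
    rw [map_mul, map_inv, Pi.mul_apply, Pi.inv_apply, inv_mul_eq_one] at h7
    rw [hAx x, hAx y, Pi.mul_apply, Pi.mul_apply, h7]
  let B : ∀ i, K i → K i := fun i g => (A (Pi.mulSingle i g)) i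
  have hAB : ∀ x i, (A x) i = B i (x i) := by
    intro x i
    exact hdep i _ _ (by simp)
  have hBinj : ∀ i, Function.Injective (B i) := by
    intro i g h hgh
    have h8 : A (Pi.mulSingle i g) = A (Pi.mulSingle i h) := by
      funext j
      by_cases hji : j = i
      · subst hji
        exact hgh
      · exact hdep j _ _ (by simp [hji])
    have h9 := congrFun (A.injective h8) i
    simpa using h9
  let P : ∀ i, Equiv.Perm (K i) := fun i =>
    Equiv.ofBijective (B i) (Finite.injective_iff_bijective.1 (hBinj i))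
  have hP : ∀ x i, (A x) i = P i (x i) := hAB
  have hPaff : ∀ i, ∀ x y z, P i (x * y⁻¹ * z) = P i x * (P i y)⁻¹ * P i z := by
    intro i x y z
    have h10 : (Pi.mulSingle i (x * y⁻¹ * z) : ∀ i, K i)
        = Pi.mulSingle i x * (Pi.mulSingle i y)⁻¹ * Pi.mulSingle i z := by
      rw [Pi.mulSingle_mul, Pi.mulSingle_mul, Pi.mulSingle_inv]
    change (A (Pi.mulSingle i (x * y⁻¹ * z))) i = _
    rw [h10, hA]
    rfl
  choose x hx using fun i => hreg i (P i) (hPaff i)
  have hPk : ∀ k (y : ∀ i, K i) i, ((A^k) y) i = ((P i)^k) (y i) := by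
    intro k
    induction k with
    | zero => intro y i; simp
    | succ k ih =>
      intro y i
      rw [pow_succ', pow_succ', Equiv.Perm.mul_apply, Equiv.Perm.mul_apply, hP, ih]
  refine ⟨x, fun k hk => ?_⟩
  have h11 : ∀ i, (P i)^k = 1 := by
    intro i
    apply hx i k
    rw [← hPk, hk]
  ext y i
  rw [hPk, h11]
  rfl

/-- Regular points for affine maps of finite nilpotent groups. -/
theorem regular_nilpotent {G : Type*} [Group G] [Finite G] [hnil : Group.IsNilpotent G]
    (A : Equiv.Perm G) (hA : ∀ x y z, A (x * y⁻¹ * z) = A x * (A y)⁻¹ * A z) :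
    ∃ x : G, ∀ k : ℕ, (A^k) x = x → A^k = 1 := by
  classical
  obtain ⟨e⟩ := ((Group.isNilpotent_of_finite_tfae (G := G)).out 0 4).mp hnil
  let K : (Nat.card G).primeFactors → Type _ := fun p => ∀ P : Sylow p G, (↑P : Subgroup G)
  have hKexp : ∀ p : (Nat.card G).primeFactors, ∀ f : K p,
      f ^ ((p : ℕ) ^ (Nat.card G).factorization p) = 1 := by
    intro p f
    have hp : Fact (p : ℕ).Prime := ⟨Nat.prime_of_mem_primeFactors p.2⟩
    funext P
    rw [Pi.pow_apply, Pi.one_apply, ← Sylow.card_eq_multiplicity P]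
    exact pow_card_eq_one'
  have hKp : ∀ p : (Nat.card G).primeFactors, IsPGroup p (K p) := fun p f => ⟨_, hKexp p f⟩
  have hKfin : ∀ p : (Nat.card G).primeFactors, Finite (K p) := fun p => inferInstance
  let A' : Equiv.Perm (∀ p, K p) := e.toEquiv.symm.permCongr A
  have hA'x : ∀ x, A' x = e.symm (A (e x)) := fun x => rfl
  obtain ⟨x, hx⟩ := regular_pi K (by
      intro p q hpq
      have hp : Fact (p : ℕ).Prime := ⟨Nat.prime_of_mem_primeFactors p.2⟩
      have hq : Fact (q : ℕ).Prime := ⟨Nat.prime_of_mem_primeFactors q.2⟩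
      obtain ⟨a, ha⟩ := (IsPGroup.iff_card).1 (hKp p)
      obtain ⟨b, hb⟩ := (IsPGroup.iff_card).1 (hKp q)
      change Nat.Coprime (Nat.card (K p)) (Nat.card (K q))
      rw [ha, hb]
      exact Nat.Coprime.pow _ _ ((Nat.coprime_primes hp.out hq.out).2 (fun h => hpq (Subtype.ext h))))
    (by
      intro p B hB
      have hp : Fact (p : ℕ).Prime := ⟨Nat.prime_of_mem_primeFactors p.2⟩
      exact regular_pgroup (hKp p) B hB) A'
    (by
      intro x y z
      simp only [hA'x, map_mul, map_inv, hA])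
  have hA'k : ∀ k x, (A'^k) x = e.symm ((A^k) (e x)) := by
    intro k
    induction k with
    | zero => intro x; simp
    | succ k ih =>
      intro x
      rw [pow_succ', pow_succ', Equiv.Perm.mul_apply, Equiv.Perm.mul_apply, ih, hA'x]
      simp
  refine ⟨e x, fun k hk => ?_⟩
  have h1 : A'^k = 1 := hx k (by rw [hA'k, hk]; simp)
  ext y
  have h2 := hA'k k (e.symm y)
  rw [h1, MulEquiv.apply_symm_apply, Equiv.Perm.one_apply] at h2
  exact (e.symm.injective h2).symm

end Pool.Agent.Helper97.Affine
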